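import Pool.Agent.U569.APL.Null

set_option autoImplicit false

/-!
# Linear forms in the coordinates of flat families

One small set of exceptions for countably many properties and all linear forms at once.
-/

namespace Pool.Agent.U569.APL

open Filter
open Pool.Agent.N24.RW (ProNull)

theorem pn_mono {ι : Type} [Fintype ι] {A B : Set (ι → ℤ)} (h : A ⊆ B) (hB : ProNull B) : ProNull A := by
  intro M hM ε hε
  obtain ⟨q, hq, hc, hle⟩ := hB M hM ε hε
  have : NeZero q := ⟨hq.ne'⟩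
  exact ⟨q, hq, hc, le_trans (Nat.cast_le.2 (Set.ncard_le_ncard (Set.image_mono h) (Set.toFinite _))) hle⟩

theorem pn_empty {ι : Type} [Fintype ι] : ProNull (∅ : Set (ι → ℤ)) := by
  intro M hM ε hε
  exact ⟨1, one_pos, Nat.coprime_one_left _, by simpa using hε.le⟩

/-- one small set of exceptions for a countable family of properties of the values of all linear forms, under
conditions on the property -/
theorem flat_linear {ι : Type} [Fintype ι] [DecidableEq ι] {Φ : Type} [Countable Φ] {τ : ℕ → Type}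
    {s : ∀ j, Finset (τ j)} {v : ∀ j, τ j → ι → ℤ} (hs : FlatFamilies s v) (A : Φ → Prop) (R : Φ → ℤ → Prop)
    (hR : ∀ φ, A φ → ∀ lam : ι → ℤ, lam ≠ 0 → ProNull {c : ι → ℤ | ¬ R φ (∑ i, lam i * c i)}) :
    ∃ E : ∀ j, Finset (τ j), Small s E ∧
      ∀ φ, A φ → ∀ lam : ι → ℤ, lam ≠ 0 → Outside s E v fun c => R φ (∑ i, lam i * c i) := by
  obtain ⟨E, hE, h⟩ := flat_diag hs
    (fun x : {φ : Φ // A φ} × {lam : ι → ℤ // lam ≠ 0} => {c : ι → ℤ | ¬ R x.1.1 (∑ i, x.2.1 i * c i)})
    (fun x => hR x.1.1 x.1.2 x.2.1 x.2.2)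
  refine ⟨E, hE, fun φ hφ lam hlam => ?_⟩
  filter_upwards [h (⟨φ, hφ⟩, ⟨lam, hlam⟩)] with j hj i hi hi2
  exact not_not.mp (hj i hi hi2)

end Pool.Agent.U569.APL
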