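import Pool.Agent.U569.APL.FamP
import Pool.Agent.N647.TS.Thin

set_option autoImplicit false

/-!
# From well distributed families of vectors of natural numbers to flat families of polynomial size

The analogue of `Pool.Agent.N647.TS.thin_conv`.
-/

namespace Pool.Agent.U569.APL

open Finset Filter
open Pool.Agent.N384.VF (Flat VFam wellF_exists wellF_of)
open Pool.Agent.N647.TS (WellN wellN_of_well)

/-- a family of vectors of residues plus a constant vector, as a well distributed family of vectors of natural numbers -/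
theorem wellN_fam {d : ℕ} {τ : Type} {q : ℕ} [NeZero q] {s : Finset τ} {y : τ → Fin d → ZMod q} {Z : ℝ}
    (hv : VFam q s y Z) (hs : s.Nonempty) (c₀ : Fin d → ℤ) (hc : ∀ i ∈ s, ∀ l, 0 ≤ c₀ l + ((y i l).val : ℕ)) :
    ∃ (S : Finset ℕ) (x : ℕ → Fin d → ℕ), S.card = s.card ∧
      (∀ H : ℕ, 2 * (2 * (H : ℝ) + 1) ^ (d + 2) ≤ Z → WellN S x H) ∧
      ∀ Q : (Fin d → ℕ) → Prop, {n : ℕ | n ∈ S ∧ Q (x n)}.ncard =
        {i : τ | i ∈ s ∧ Q (fun l => (c₀ l + ((y i l).val : ℕ)).toNat)}.ncard := by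
  classical
  obtain ⟨S, x, h1, h2, h3⟩ := wellF_exists s (fun i l => c₀ l + ((y i l).val : ℕ))
  have hx : ∀ n ∈ S, ∀ l, 0 ≤ x n l := by
    have h4 := h3 (fun v => ¬ ∀ l, 0 ≤ v l)
    have h5 : {i : τ | i ∈ s ∧ ¬ ∀ l, 0 ≤ (fun l => c₀ l + (((y i l).val : ℕ) : ℤ)) l} = ∅ := by
      ext i
      simp only [Set.mem_ofPred_eq, Set.mem_empty_iff_false, iff_false, not_and, not_not]
      exact fun hi l => hc i hi l
    rw [h5, Set.ncard_empty, Set.ncard_eq_zero (S.finite_toSet.subset fun n hn => hn.1)] at h4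
    intro n hn
    by_contra hcon
    have : n ∈ ({n : ℕ | n ∈ S ∧ ¬ ∀ l, 0 ≤ x n l} : Set ℕ) := ⟨hn, hcon⟩
    rw [h4] at this
    exact this
  refine ⟨S, fun n l => (x n l).toNat, h2, fun H hH => ?_, fun Q => ?_⟩
  · refine wellN_of_well (h1 H (wellF_of hv hs c₀ H (by rwa [Fintype.card_fin]))) fun n hn l => ?_
    exact (Int.toNat_of_nonneg (hx n hn l)).symm
  · exact h3 (fun v => Q (fun l => (v l).toNat))

/-- **From well distributed families to flat families of polynomial size.** -/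
theorem power_conv (d : ℕ) {β : ℝ} (hβ : 0 < β) (B M : ℕ) : ∃ κ₀ : ℝ, 0 < κ₀ ∧
    ∀ {τ : ℕ → Type} {s : ∀ j, Finset (τ j)} {v : ∀ j, τ j → Fin d → ℤ}, PowerFlat β B s v →
      (∀ j, ∀ i ∈ s j, ∀ l, 0 ≤ v j i l) → ∀ᶠ j in atTop, ∀ (y A : ℕ) (R : ℕ → (Fin d → ℕ) → Prop),
        (∀ (S : Finset ℕ) (u : ℕ → Fin d → ℕ) (H : ℕ), WellN S u H → ∀ E : (Fin d → ℕ) → Prop,
          (∀ m, (∀ n : ℕ, y ≤ n → n ^ M ≤ 2 * H + 1 → R n m) → E m) →
          ({t : ℕ | t ∈ S ∧ ¬ E (u t)}.ncard : ℝ) ≤ 1 / (y : ℝ) ^ A * S.card) →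
        ∀ E : (Fin d → ℕ) → Prop,
          (∀ m, (∀ n : ℕ, y ≤ n → (n : ℝ) ≤ (1 + ∑ l, (m l : ℝ)) ^ κ₀ → R n m) → E m) →
          ({i : τ j | i ∈ s j ∧ ¬ E (fun l => (v j i l).toNat)}.ncard : ℝ) ≤ 1 / (y : ℝ) ^ A * (s j).card := by
  classical
  obtain ⟨κ₀, hκ⟩ : ∃ κ₀ : ℝ, κ₀ = β / (8 * ((B + 2) * (M + 1))) := ⟨_, rfl⟩
  have hκ0 : 0 < κ₀ := by rw [hκ]; positivity
  -- the size of `Z`
  have hZe : ∀ᶠ z : ℝ in atTop, 2 * 3 ^ (d + 2) * z ^ ((1 : ℝ) / 8 / (d + 2) * (d + 2)) ≤ z := by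
    have h1 : ∀ᶠ z : ℝ in atTop, 2 * 3 ^ (d + 2) ≤ z ^ ((7 : ℝ) / 8) :=
      (tendsto_rpow_atTop (by norm_num)).eventually_ge_atTop _
    filter_upwards [h1, eventually_gt_atTop 0] with z hz hz0
    have e1 : (1 : ℝ) / 8 / (d + 2) * (d + 2) = 1 / 8 := by field_simp
    rw [e1]
    calc 2 * 3 ^ (d + 2) * z ^ ((1 : ℝ) / 8) ≤ z ^ ((7 : ℝ) / 8) * z ^ ((1 : ℝ) / 8) :=
          mul_le_mul_of_nonneg_right hz (by positivity)
      _ = z := by rw [← Real.rpow_add hz0]; norm_num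
  obtain ⟨κ₁, hκ₁⟩ : ∃ κ₁ : ℝ, κ₁ = 1 / 8 / ((d : ℝ) + 2) := ⟨_, rfl⟩
  refine ⟨κ₀ / (d + 2), by positivity, fun {τ s v} hs hpos => ?_⟩
  obtain ⟨Z₁, hZ₁⟩ := eventually_atTop.1 hZe
  filter_upwards [hs (max (max Z₁ 1) (2 * d + 1))] with j hj
  obtain ⟨q, _, z, c₀, Z, g1, g2, g3, g4, g5, g6⟩ := hj
  intro y A R hM E hE
  have hv : v j = fun i l => c₀ l + ((z i l).val : ℕ) := by
    funext i l
    exact g6 i l
  rcases (s j).eq_empty_or_nonempty with h0 | hne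
  · rw [h0]
    simp
  have hZ1 : 1 ≤ Z := ((le_max_right _ _).trans (le_max_left _ _)).trans g1
  have hZ0 : 0 < Z := by linarith
  have hq1 : (1 : ℝ) ≤ q := hZ1.trans g2
  have hq0 : (0 : ℝ) < q := by linarith
  have hqd : 2 * (d : ℝ) + 1 ≤ q := ((le_max_right _ _).trans g1).trans g2
  obtain ⟨S, x, k1, k2, k3⟩ := wellN_fam (hv := (⟨g2, g5⟩ : VFam q (s j) z Z)) hne c₀ (fun i hi l => by
    have := hpos j i hi l
    rw [hv] at this
    exact this)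
  obtain ⟨H, hH⟩ : ∃ H : ℕ, H = ⌊Z ^ κ₁⌋₊ := ⟨_, rfl⟩
  have hZk : 1 ≤ Z ^ κ₁ := Real.one_le_rpow hZ1 (by rw [hκ₁]; positivity)
  have hH1 : (H : ℝ) ≤ Z ^ κ₁ := by rw [hH]; exact Nat.floor_le (by positivity)
  have hH2 : Z ^ κ₁ < H + 1 := by rw [hH]; exact Nat.lt_floor_add_one _
  have hW : WellN S x H := by
    refine k2 H ?_
    calc 2 * (2 * (H : ℝ) + 1) ^ (d + 2) ≤ 2 * (3 * Z ^ κ₁) ^ (d + 2) := by
          gcongr
          linarith
      _ = 2 * 3 ^ (d + 2) * Z ^ ((1 : ℝ) / 8 / (d + 2) * (d + 2)) := by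
          rw [mul_pow, ← Real.rpow_natCast (Z ^ κ₁), ← Real.rpow_mul hZ0.le, ← mul_assoc, hκ₁]
          push_cast
          rfl
      _ ≤ Z := hZ₁ Z (((le_max_left _ _).trans (le_max_left _ _)).trans g1)
  -- the property on the vectors of moderate size
  have h1 := hM S x H hW (fun m => (1 + ∑ l, (m l : ℝ)) ≤ (q : ℝ) ^ (B + 2) → E m) (fun m hm hsz => by
    refine hE m fun n hyn hn => hm n hyn ?_
    have hm0 : (0 : ℝ) ≤ 1 + ∑ l, (m l : ℝ) := by positivity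
    have h2 : (n : ℝ) ≤ (q : ℝ) ^ (((B : ℝ) + 2) * (κ₀ / (d + 2))) := by
      calc (n : ℝ) ≤ (1 + ∑ l, (m l : ℝ)) ^ (κ₀ / (d + 2)) := hn
        _ ≤ ((q : ℝ) ^ (B + 2)) ^ (κ₀ / (d + 2)) := Real.rpow_le_rpow hm0 hsz (by positivity)
        _ = _ := by
          rw [← Real.rpow_natCast, ← Real.rpow_mul hq0.le]
          push_cast
          rfl
    have h3 : (n : ℝ) ^ M ≤ (q : ℝ) ^ (β * κ₁) := by
      calc (n : ℝ) ^ M ≤ ((q : ℝ) ^ (((B : ℝ) + 2) * (κ₀ / (d + 2)))) ^ M := pow_le_pow_left₀ (by positivity) h2 _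
        _ = (q : ℝ) ^ (((B : ℝ) + 2) * (κ₀ / (d + 2)) * M) := by
          rw [← Real.rpow_natCast, ← Real.rpow_mul hq0.le]
        _ ≤ (q : ℝ) ^ (β * κ₁) := by
          apply Real.rpow_le_rpow_of_exponent_le hq1
          rw [hκ, hκ₁]
          have hM0 : (M : ℝ) ≤ M + 1 := by linarith
          have e1 : ((B : ℝ) + 2) * (β / (8 * ((B + 2) * (M + 1))) / (d + 2)) * M = β * (1 / 8 / (d + 2)) * (M / (M + 1)) := by
            field_simp
          rw [e1]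
          have h6 : (M : ℝ) / (M + 1) ≤ 1 := by rw [div_le_one (by positivity)]; linarith
          exact mul_le_of_le_one_right (by positivity) h6
    have h4 : (q : ℝ) ^ (β * κ₁) ≤ Z ^ κ₁ := by
      rw [Real.rpow_mul hq0.le]
      exact Real.rpow_le_rpow (by positivity) g3 (by rw [hκ₁]; positivity)
    have h5 : ((n ^ M : ℕ) : ℝ) ≤ ((2 * H + 1 : ℕ) : ℝ) := by
      push_cast
      have : (0 : ℝ) ≤ H := Nat.cast_nonneg _
      linarith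
    exact_mod_cast h5)
  have h2 := k3 (fun m => ¬ ((1 + ∑ l, (m l : ℝ)) ≤ (q : ℝ) ^ (B + 2) → E m))
  rw [h2, k1] at h1
  refine le_trans ?_ h1
  have hsub : {i : τ j | i ∈ s j ∧ ¬ E (fun l => (v j i l).toNat)} ⊆
      {i : τ j | i ∈ s j ∧ ¬ ((1 + ∑ l, (((c₀ l + ((z i l).val : ℕ)).toNat : ℕ) : ℝ)) ≤ (q : ℝ) ^ (B + 2) →
        E (fun l => (c₀ l + ((z i l).val : ℕ)).toNat))} := by
    rintro i ⟨hi, hni⟩
    refine ⟨hi, fun hcon => hni ?_⟩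
    rw [hv]
    apply hcon
    have hl : ∀ l, (((c₀ l + ((z i l).val : ℕ)).toNat : ℕ) : ℝ) ≤ 2 * (q : ℝ) ^ (B + 1) := by
      intro l
      have h0 := hpos j i hi l
      rw [hv] at h0
      have e1 : (((c₀ l + ((z i l).val : ℕ)).toNat : ℕ) : ℝ) = (c₀ l : ℝ) + ((z i l).val : ℕ) := by
        have := Int.toNat_of_nonneg h0
        have h7 : ((((c₀ l + ((z i l).val : ℕ)).toNat : ℕ) : ℤ) : ℝ) = ((c₀ l + ((z i l).val : ℕ) : ℤ) : ℝ) := by
          rw [this]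
        push_cast at h7 ⊢
        linarith
      rw [e1]
      have h8 : (c₀ l : ℝ) ≤ (q : ℝ) ^ B := (le_abs_self _).trans (g4 l)
      have h9 : (((z i l).val : ℕ) : ℝ) ≤ q := by exact_mod_cast (ZMod.val_lt (z i l)).le
      have h10 : (q : ℝ) ^ B ≤ (q : ℝ) ^ (B + 1) := pow_le_pow_right₀ hq1 (by omega)
      have h11 : (q : ℝ) ≤ (q : ℝ) ^ (B + 1) := by
        calc (q : ℝ) = (q : ℝ) ^ 1 := (pow_one _).symm
          _ ≤ _ := pow_le_pow_right₀ hq1 (by omega)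
      linarith
    have h12 : ∑ l : Fin d, (((c₀ l + ((z i l).val : ℕ)).toNat : ℕ) : ℝ) ≤ d * (2 * (q : ℝ) ^ (B + 1)) := by
      refine (sum_le_sum fun l _ => hl l).trans ?_
      rw [sum_const, card_univ, Fintype.card_fin, nsmul_eq_mul]
    have h13 : (1 : ℝ) ≤ (q : ℝ) ^ (B + 1) := one_le_pow₀ hq1
    calc 1 + ∑ l : Fin d, (((c₀ l + ((z i l).val : ℕ)).toNat : ℕ) : ℝ) ≤
          (q : ℝ) ^ (B + 1) + d * (2 * (q : ℝ) ^ (B + 1)) := add_le_add h13 h12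
      _ = (2 * d + 1) * (q : ℝ) ^ (B + 1) := by ring
      _ ≤ q * (q : ℝ) ^ (B + 1) := mul_le_mul_of_nonneg_right hqd (by positivity)
      _ = (q : ℝ) ^ (B + 2) := by ring
  exact_mod_cast Set.ncard_le_ncard hsub ((s j).finite_toSet.subset fun i hi => hi.1)

end Pool.Agent.U569.APL
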