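import Pool.Agent.U569.APL.Uni

set_option autoImplicit false

/-!
# Flat families of integral vectors

`FlatFamilies s v`: in the sequence (`j = 0, 1, 2, …`) of finite families of integral vectors `v j i`, `i ∈ s j`, the
`j`-th family consists for large `j` of the vectors `c₀ + y_i`, where `y_i` are vectors of residues modulo some `q`
(represented by `0, …, q - 1`) whose nontrivial Fourier coefficients are at most `1 / (Z (42 + 3 log q) ^ r)`, where `r`
is the number of the coordinates and `Z ≤ q` tends to infinity with `j`; `c₀` and `q` depend on `j`.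

`Examples`: vectors formed from the elements of ARBITRARY sets of residues modulo a prime.
-/

namespace Pool.Agent.U569.APL

open Finset Filter
open Pool.Agent.N384.VF (Flat VFam transfer)
open Pool.Agent.N24.RW (ProNull)

section
variable {ι : Type} [Fintype ι]

/-- The `j`-th family `v j i`, `i ∈ s j`, consists for large `j` of an integral vector `c₀` plus vectors of residues
modulo some `q` with nontrivial Fourier coefficients at most `1 / (Z (42 + 3 log q) ^ r)`, where `Z → ∞`, `Z ≤ q`. -/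
def FlatFamilies {τ : ℕ → Type} (s : ∀ j, Finset (τ j)) (v : ∀ j, τ j → ι → ℤ) : Prop :=
  ∀ Z₀ : ℝ, ∀ᶠ j in atTop, ∃ (q : ℕ) (_ : NeZero q) (y : τ j → ι → ZMod q) (c₀ : ι → ℤ) (Z : ℝ), Z₀ ≤ Z ∧ Z ≤ q ∧
    (∀ h : ι → ZMod q, h ≠ 0 → ‖∑ i ∈ s j, (ZMod.stdAddChar (∑ l, h l * y i l) : ℂ)‖ ≤
      1 / (Z * (42 + 3 * Real.log q) ^ Fintype.card ι) * (s j).card) ∧
    ∀ i l, v j i l = c₀ l + ((y i l).val : ℕ)

/-- `E j` is a subset of `s j` and `|E j| = o(|s j|)`. -/
def Small {τ : ℕ → Type} (s E : ∀ j, Finset (τ j)) : Prop :=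
  (∀ j, E j ⊆ s j) ∧ ∀ ε : ℝ, 0 < ε → ∀ᶠ j in atTop, ((E j).card : ℝ) ≤ ε * (s j).card

/-- For all large `j` all the vectors `v j i`, `i ∈ s j`, `i ∉ E j`, have the property `R`. -/
def Outside {τ : ℕ → Type} (s E : ∀ j, Finset (τ j)) (v : ∀ j, τ j → ι → ℤ) (R : (ι → ℤ) → Prop) : Prop :=
  ∀ᶠ j in atTop, ∀ i ∈ s j, i ∉ E j → R (v j i)

lemma spread_of_flat {τ : ℕ → Type} {s : ∀ j, Finset (τ j)} {v : ∀ j, τ j → ι → ℤ} (h : FlatFamilies s v) :
    Spread s v := by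
  intro Z₀
  filter_upwards [h (Z₀ : ℝ)] with j hj
  obtain ⟨q, hq, y, c₀, Z, h1, h2, h3, h4⟩ := hj
  exact ⟨q, hq, y, Z, c₀, h1, ⟨h2, h3⟩, by funext i l; exact h4 i l⟩

lemma flat_of_spread {τ : ℕ → Type} {s : ∀ j, Finset (τ j)} {v : ∀ j, τ j → ι → ℤ} (h : Spread s v) :
    FlatFamilies s v := by
  intro Z₀
  obtain ⟨n, hn⟩ := exists_nat_ge Z₀
  filter_upwards [h n] with j hj
  obtain ⟨q, hq, y, Z, c₀, h1, h2, h3⟩ := hj
  exact ⟨q, hq, y, c₀, Z, hn.trans h1, h2.1, h2.2, fun i l => by rw [h3]⟩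

/-- one small set of exceptions for countably many pronull sets -/
theorem flat_diag [DecidableEq ι] {Φ : Type} [Countable Φ] {τ : ℕ → Type} {s : ∀ j, Finset (τ j)}
    {v : ∀ j, τ j → ι → ℤ} (h : FlatFamilies s v) (B : Φ → Set (ι → ℤ)) (hB : ∀ φ, ProNull (B φ)) :
    ∃ E : ∀ j, Finset (τ j), Small s E ∧ ∀ φ, Outside s E v fun c => c ∉ B φ :=
  spread_diag (spread_of_flat h) B hB

/-- the density of the exceptions for one pronull set -/
theorem flat_rare [DecidableEq ι] {τ : ℕ → Type} {s : ∀ j, Finset (τ j)}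
    {v : ∀ j, τ j → ι → ℤ} (h : FlatFamilies s v) {B : Set (ι → ℤ)} (hB : ProNull B) (ε : ℝ) (hε : 0 < ε) :
    ∀ᶠ j in atTop, ({i : τ j | i ∈ s j ∧ v j i ∈ B}.ncard : ℝ) ≤ ε * (s j).card :=
  spread_rare (spread_of_flat h) hB ε hε

end

/-- (1) Values of bilinear maps `β j : k ^ a × k ^ b → k ^ ι` at the elements of ARBITRARY sets `E j ⊆ k ^ a` and
`F j ⊆ k ^ b`, plus arbitrary functions of the one and of the other element; `k` is the field of `P j` elements and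
every nontrivial combination of the coordinates of `β j` has rank at least `ρ j`, `|E j| |F j| ≥ P j ^ (a + b - ρ + δ)`. -/
def BilinearExamples (ι : Type) [Fintype ι] (δ : ℝ) (P : ℕ → ℕ) : Prop :=
  ∀ (a b ρ : ℕ → ℕ) (M : ∀ j, ι → Matrix (Fin (a j)) (Fin (b j)) (ZMod (P j)))
    (E : ∀ j, Finset (Fin (a j) → ZMod (P j))) (F : ∀ j, Finset (Fin (b j) → ZMod (P j)))
    (u : ∀ j, (Fin (a j) → ZMod (P j)) → ι → ZMod (P j)) (w : ∀ j, (Fin (b j) → ZMod (P j)) → ι → ZMod (P j))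
    (c₀ : ℕ → ι → ℤ), (∀ j, ∀ α : ι → ZMod (P j), α ≠ 0 → ρ j ≤ (∑ l, α l • M j l).rank) →
    (∀ j, (P j : ℝ) ^ (((a j + b j : ℕ) : ℝ) + δ) ≤ (E j).card * (F j).card * (P j : ℝ) ^ ρ j) →
    FlatFamilies (fun j => E j ×ˢ F j) (fun j z l =>
      c₀ j l + ((z.1 ⬝ᵥ Matrix.mulVec (M j l) z.2 + u j z.1 l + w j z.2 l).val : ℕ))

/-- (2) Products of the elements of two ARBITRARY subsets of the field `K j` of `P j ^ r` elements, with respect to any
basis over the prime field (`r` is the number of the coordinates), plus arbitrary functions of the one and of the other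
element; `|E j| |F j| ≥ P j ^ (r + δ)`. -/
def FieldExamples (ι : Type) [Fintype ι] (δ : ℝ) (P : ℕ → ℕ) : Prop :=
  ∀ (K : ℕ → Type) [∀ j, Field (K j)] [∀ j, Algebra (ZMod (P j)) (K j)]
    (b : ∀ j, Module.Basis ι (ZMod (P j)) (K j)) (E F : ∀ j, Finset (K j)) (u w : ∀ j, K j → ι → ZMod (P j))
    (c₀ : ℕ → ι → ℤ), (∀ j, (P j : ℝ) ^ ((Fintype.card ι : ℝ) + δ) ≤ (E j).card * (F j).card) →
    FlatFamilies (fun j => E j ×ˢ F j) (fun j z l =>
      c₀ j l + (((b j).repr (z.1 * z.2) l + u j z.1 l + w j z.2 l).val : ℕ))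

/-- (3) Values of polynomials `F j l` of degree at most `P j ^ (δ / 4)`, such that every nontrivial combination has a
monomial with at least two variables, on products of ARBITRARY sets of at least `P j ^ (1 / 2 + δ)` residues, plus
arbitrary functions of the single variables. -/
def PolynomialExamples (ι : Type) [Fintype ι] (δ : ℝ) (P : ℕ → ℕ) : Prop :=
  ∀ (k : ℕ → ℕ) (F : ∀ j, ι → MvPolynomial (Fin (k j)) (ZMod (P j)))
    (A : ∀ j, Fin (k j) → Finset (ZMod (P j))) (u : ∀ j, Fin (k j) → ZMod (P j) → ι → ZMod (P j))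
    (c₀ : ℕ → ι → ℤ), (∀ j l, ((F j l).totalDegree : ℝ) ≤ (P j : ℝ) ^ (δ / 4)) →
    (∀ j, ∀ α : ι → ZMod (P j), α ≠ 0 → Mixed (∑ l, MvPolynomial.C (α l) * F j l)) →
    (∀ j i, (P j : ℝ) ^ (1 / 2 + δ) ≤ (A j i).card) →
    FlatFamilies (fun j => Fintype.piFinset (A j)) (fun j a l =>
      c₀ j l + ((MvPolynomial.eval a (F j l) + ∑ i, u j i (a i) l).val : ℕ))

/-- (4) Values of polynomials in one variable of degree at most `P j ^ (δ / 4)`, no nontrivial combination of which is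
constant, on subgroups `H j` of the multiplicative group modulo `P j` with at least `P j ^ (1 / 2 + δ)` elements. -/
def SubgroupExamples (ι : Type) [Fintype ι] (δ : ℝ) (P : ℕ → ℕ) : Prop :=
  ∀ (H : ∀ j, Subgroup (ZMod (P j))ˣ) (s : ∀ j, Finset (ZMod (P j))ˣ) (F : ∀ j, ι → Polynomial (ZMod (P j)))
    (c₀ : ℕ → ι → ℤ), (∀ j x, x ∈ s j ↔ x ∈ H j) →
    (∀ j l, ((F j l).natDegree : ℝ) ≤ (P j : ℝ) ^ (δ / 4)) →
    (∀ j, ∀ α : ι → ZMod (P j), α ≠ 0 → 0 < (∑ l, Polynomial.C (α l) * F j l).natDegree) →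
    (∀ j, (P j : ℝ) ^ (1 / 2 + δ) ≤ (s j).card) →
    FlatFamilies s (fun j h l => c₀ j l + (((F j l).eval (h : ZMod (P j))).val : ℕ))

/-- The four kinds of examples, for all `0 < δ ≤ 1` and all sequences of primes `P j → ∞`. -/
def Examples (ι : Type) [Fintype ι] : Prop :=
  ∀ δ : ℝ, 0 < δ → δ ≤ 1 → ∀ P : ℕ → ℕ, (∀ j, (P j).Prime) → Tendsto P atTop atTop →
    BilinearExamples ι δ P ∧ FieldExamples ι δ P ∧ PolynomialExamples ι δ P ∧ SubgroupExamples ι δ P

theorem examples (ι : Type) [Fintype ι] : Examples ι := by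
  intro δ hδ hδ1 P hP hP'
  refine ⟨?_, ?_, ?_, ?_⟩
  · intro a b ρ M E F u w c₀ hM hEF
    exact flat_of_spread (spread_bil δ hδ hδ1 P hP hP' a b ρ M E F u w hM hEF c₀)
  · intro K _ _ b E F u w c₀ hEF
    refine flat_of_spread fun Z₀ => ?_
    obtain ⟨p₀, h2⟩ := vfam_field (Fintype.card ι) δ hδ hδ1 Z₀
    filter_upwards [hP'.eventually_ge_atTop p₀] with j hj
    have : NeZero (P j) := ⟨(hP j).ne_zero⟩
    obtain ⟨h3, h4⟩ := h2 (P j) (hP j) hj
    obtain ⟨e⟩ : Nonempty (ι ≃ Fin (Fintype.card ι)) := ⟨Fintype.equivFin ι⟩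
    have h5 := vfam_reindex e (h4 (K j) ((b j).reindex e) (E j) (F j) (fun x l => u j x (e.symm l))
      (fun x l => w j x (e.symm l)) (hEF j))
    simp only [Equiv.symm_apply_apply, Module.Basis.repr_reindex_apply] at h5
    exact ⟨P j, this, _, _, c₀ j, h3, h5, rfl⟩
  · intro k F A u c₀ hF hF' hA
    exact flat_of_spread (spread_prod δ hδ hδ1 P hP hP' k F A u hF hF' hA c₀)
  · intro H s F c₀ hs hF hF' hH
    exact flat_of_spread (spread_grp δ hδ hδ1 P hP hP' H s hs F hF hF' hH c₀)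

end Pool.Agent.U569.APL
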