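import Pool.Agent.U569.APL.En

set_option autoImplicit false

/-!
# Laws for families of small additive energy, applied to families with small Fourier coefficients; examples formed from
arbitrary sets
-/

namespace Pool.Agent.U569.APL

open Finset Filter
open Pool.Agent.N384.VF (Flat VFam)

/-- a law for families of nearly minimal energy holds for ALL integers near almost all members of the families -/
theorem near_flat (κ : ℝ) (hκ : 0 < κ) (R : ℕ) : ∃ p : ℕ, 1 ≤ p ∧ ∀ (B : ℕ) (θ : ℝ), 0 < θ →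
    ∃ δ : ℝ, 0 < δ ∧ δ < θ ∧ δ < 1 ∧ ∃ N₀ : ℕ, ∀ N : ℕ, N₀ ≤ N → ∀ Bad : ℤ → Prop,
      (∀ (ι : Type) [Fintype ι] (v : ι → ℤ), (∀ i, |v i| ≤ ((2 * B + 1 : ℕ) : ℤ) * N) →
        (Nat.card {t : (Fin p → ι) × (Fin p → ι) // ∑ j, v (t.1 j) = ∑ j, v (t.2 j)} : ℝ) * N ≤
          (N : ℝ) ^ θ * (Fintype.card ι : ℝ) ^ (2 * p) →
        ∀ S : Finset ι, (∀ i ∈ S, Bad (v i)) → (S.card : ℝ) ≤ (N : ℝ) ^ (-θ) * Fintype.card ι) →
      ∀ (q : ℕ) [NeZero q], (N : ℝ) ^ (1 - δ) ≤ (q : ℝ) ^ R → (q : ℝ) ^ R ≤ B * N →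
      ∀ (τ : Type) (s : Finset τ) (y : τ → Fin R → ZMod q), FlatRes κ q s y → ∀ c : ℤ, |c| ≤ (B : ℤ) * N →
      ∀ S : Finset τ, S ⊆ s → (∀ i ∈ S, ∃ h : ℤ, |(h : ℝ) - ((c : ℝ) + (num (y i) : ℕ))| ≤ (N : ℝ) ^ δ ∧ Bad h) →
        (S.card : ℝ) ≤ (N : ℝ) ^ (-δ) * s.card := by
  classical
  obtain ⟨p, hp⟩ := exists_nat_ge ((R : ℝ) / (2 * κ) + 1)
  have hR0 : (0 : ℝ) ≤ (R : ℝ) / (2 * κ) := by positivity
  have hp1 : 1 ≤ p := by
    have : (1 : ℝ) ≤ p := by linarith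
    exact_mod_cast this
  refine ⟨p, hp1, fun B θ hθ => ?_⟩
  set δ : ℝ := min (θ / 4) (1 / 2) with hδ
  have hδ0 : 0 < δ := lt_min (by positivity) (by norm_num)
  have hδθ : δ ≤ θ / 4 := min_le_left _ _
  have hδ1 : δ ≤ 1 / 2 := min_le_right _ _
  have E1 : ∀ᶠ N : ℕ in atTop, (2 * (2 * p + 1 : ℝ) ^ R) ≤ (N : ℝ) ^ (θ - δ) :=
    ((tendsto_rpow_atTop (show 0 < θ - δ by linarith)).comp tendsto_natCast_atTop_atTop).eventually_ge_atTop _
  have E2 : ∀ᶠ N : ℕ in atTop, (3 : ℝ) ≤ (N : ℝ) ^ (θ - 2 * δ) :=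
    ((tendsto_rpow_atTop (show 0 < θ - 2 * δ by linarith)).comp tendsto_natCast_atTop_atTop).eventually_ge_atTop _
  obtain ⟨N₀, hN₀⟩ := eventually_atTop.1 (E1.and (E2.and (eventually_ge_atTop 1)))
  refine ⟨δ, hδ0, by linarith, by linarith, N₀, fun N hN Bad hlaw q _ hq1 hq2 τ s y hy c hc S hS hbad => ?_⟩
  obtain ⟨h1, h2, h3⟩ := hN₀ N hN
  have hN1 : (1 : ℝ) ≤ N := by exact_mod_cast h3
  have hN0 : (0 : ℝ) < N := by linarith
  have hq0 : (1 : ℝ) ≤ q := by exact_mod_cast NeZero.one_le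
  have hqR : (0 : ℝ) < (q : ℝ) ^ R := by positivity
  -- the energy of a translate
  have hen : ∀ c' : ℤ, (Nat.card {t : (Fin p → s) × (Fin p → s) // ∑ j, (c' + (num (y (t.1 j)) : ℤ)) =
      ∑ j, (c' + (num (y (t.2 j)) : ℤ))} : ℝ) * N ≤ (N : ℝ) ^ θ * (Fintype.card s : ℝ) ^ (2 * p) := by
    intro c'
    have h4 := energy_le (ι := s) p ((q : ℝ) ^ (-κ)) (by positivity) (fun i => y i) (fun h hh => by
      have h5 := hy h hh
      rw [Fintype.card_coe]
      refine le_trans (le_of_eq ?_) h5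
      rw [← sum_coe_sort s]) c'
    have h6 : (q : ℝ) ^ R * ((q : ℝ) ^ (-κ)) ^ (2 * p) ≤ 1 := by
      rw [← Real.rpow_natCast ((q : ℝ) ^ (-κ)), ← Real.rpow_mul (by linarith), ← Real.rpow_natCast (q : ℝ) R,
        ← Real.rpow_add (by linarith)]
      refine Real.rpow_le_one_of_one_le_of_nonpos hq0 ?_
      have h7 : (R : ℝ) = R / (2 * κ) * (2 * κ) := by field_simp
      push_cast
      nlinarith
    have hC : (0 : ℝ) ≤ (2 * p + 1 : ℝ) ^ R := by positivity
    have hI : (0 : ℝ) ≤ (Fintype.card s : ℝ) ^ (2 * p) := by positivity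
    set W : ℝ := (Nat.card {t : (Fin p → s) × (Fin p → s) // ∑ j, (c' + (num (y (t.1 j)) : ℤ)) =
      ∑ j, (c' + (num (y (t.2 j)) : ℤ))} : ℝ) with hW
    have hW0 : 0 ≤ W := Nat.cast_nonneg _
    have h8 : W * (q : ℝ) ^ R ≤ 2 * (2 * p + 1 : ℝ) ^ R * (Fintype.card s : ℝ) ^ (2 * p) := by
      refine h4.trans ?_
      calc _ ≤ (2 * p + 1 : ℝ) ^ R * ((1 + 1) * (Fintype.card s : ℝ) ^ (2 * p)) := by gcongr
        _ = _ := by ring
    have h9 : (N : ℝ) = (N : ℝ) ^ (1 - δ) * (N : ℝ) ^ δ := by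
      rw [← Real.rpow_add hN0, sub_add_cancel, Real.rpow_one]
    calc W * N = W * ((N : ℝ) ^ (1 - δ) * (N : ℝ) ^ δ) := by rw [← h9]
      _ ≤ W * ((q : ℝ) ^ R * (N : ℝ) ^ δ) := by gcongr
      _ = W * (q : ℝ) ^ R * (N : ℝ) ^ δ := by ring
      _ ≤ 2 * (2 * p + 1 : ℝ) ^ R * (Fintype.card s : ℝ) ^ (2 * p) * (N : ℝ) ^ δ := by gcongr
      _ ≤ (N : ℝ) ^ (θ - δ) * (Fintype.card s : ℝ) ^ (2 * p) * (N : ℝ) ^ δ := by gcongr
      _ = (N : ℝ) ^ (θ - δ) * (N : ℝ) ^ δ * (Fintype.card s : ℝ) ^ (2 * p) := by ring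
      _ = (N : ℝ) ^ θ * (Fintype.card s : ℝ) ^ (2 * p) := by
        rw [← Real.rpow_add hN0, sub_add_cancel]
  -- the translates
  set T : ℤ := ⌊(N : ℝ) ^ δ⌋ with hT
  have hT0 : 0 ≤ T := Int.floor_nonneg.2 (by positivity)
  have hTN : (T : ℝ) ≤ (N : ℝ) ^ δ := Int.floor_le _
  have hNδ : (N : ℝ) ^ δ ≤ N := by
    calc (N : ℝ) ^ δ ≤ (N : ℝ) ^ (1 : ℝ) := Real.rpow_le_rpow_of_exponent_le hN1 (by linarith)
      _ = N := Real.rpow_one _
  have hnum : ∀ i, ((num (y i) : ℕ) : ℝ) ≤ (q : ℝ) ^ R := by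
    intro i
    have h10 : ∀ (n : ℕ) (z : Fin n → ZMod q), num z + 1 ≤ q ^ n := by
      intro n
      induction n with
      | zero => intro z; simp [num]
      | succ n ih =>
        intro z
        have h11 : num z = (z 0).val + q * num (fun l : Fin n => z l.succ) := by
          simp only [num]
          rw [Fin.sum_univ_succ, mul_sum]
          simp only [Fin.val_zero, pow_zero, mul_one, Fin.val_succ]
          congr 1
          refine sum_congr rfl fun l _ => ?_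
          rw [pow_succ]
          ring
        have h12 := ih fun l : Fin n => z l.succ
        have h13 := ZMod.val_lt (z 0)
        rw [h11, pow_succ]
        have h14 : q * (num (fun l : Fin n => z l.succ) + 1) ≤ q * q ^ n := Nat.mul_le_mul_left _ h12
        nlinarith
    have := h10 R (y i)
    have h15 : ((num (y i) + 1 : ℕ) : ℝ) ≤ ((q ^ R : ℕ) : ℝ) := by exact_mod_cast this
    push_cast at h15
    linarith
  have hcov : S ⊆ (Icc (-T) T).biUnion fun d => S.filter fun i => Bad (c + d + (num (y i) : ℤ)) := by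
    intro i hi
    obtain ⟨h, h16, h17⟩ := hbad i hi
    rw [mem_biUnion]
    refine ⟨h - (c + (num (y i) : ℤ)), ?_, ?_⟩
    · rw [mem_Icc]
      have h18 : |(((h - (c + (num (y i) : ℤ))) : ℤ) : ℝ)| ≤ (N : ℝ) ^ δ := by
        push_cast
        exact h16
      rw [abs_le] at h18
      refine ⟨?_, Int.le_floor.2 h18.2⟩
      have : -(h - (c + (num (y i) : ℤ))) ≤ T := Int.le_floor.2 (by push_cast; push_cast at h18; linarith [h18.1])
      linarith
    · rw [mem_filter]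
      refine ⟨hi, ?_⟩
      have : c + (h - (c + (num (y i) : ℤ))) + (num (y i) : ℤ) = h := by ring
      rw [this]
      exact h17
  have hone : ∀ d ∈ Icc (-T) T, ((S.filter fun i => Bad (c + d + (num (y i) : ℤ))).card : ℝ) ≤
      (N : ℝ) ^ (-θ) * s.card := by
    intro d hd
    rw [mem_Icc] at hd
    have h19 := hlaw s (fun i => c + d + (num (y i) : ℤ)) (fun i => by
      have h20 : |((c + d + (num (y i) : ℤ) : ℤ) : ℝ)| ≤ ((((2 * B + 1 : ℕ) : ℤ) * N : ℤ) : ℝ) := by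
        have h21 : |(c : ℝ)| ≤ B * N := by exact_mod_cast hc
        have h22 : |(d : ℝ)| ≤ T := by
          rw [abs_le]
          constructor
          · exact_mod_cast hd.1
          · exact_mod_cast hd.2
        have h23 : |((num (y i) : ℕ) : ℝ)| ≤ B * N := by
          rw [abs_of_nonneg (Nat.cast_nonneg _)]
          exact (hnum i).trans hq2
        push_cast
        calc |(c : ℝ) + d + (num (y i) : ℕ)| ≤ |(c : ℝ)| + |(d : ℝ)| + |((num (y i) : ℕ) : ℝ)| := abs_add_three _ _ _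
          _ ≤ B * N + N + B * N := by linarith
          _ = _ := by ring
      exact_mod_cast h20) (hen (c + d)) (univ.filter fun i : s => (i : τ) ∈ S ∧ Bad (c + d + (num (y i) : ℤ)))
      (fun i hi => (mem_filter.1 hi).2.2)
    rw [Fintype.card_coe] at h19
    refine le_trans ?_ h19
    have h24 : (S.filter fun i => Bad (c + d + (num (y i) : ℤ))).card ≤
        (univ.filter fun i : s => (i : τ) ∈ S ∧ Bad (c + d + (num (y i) : ℤ))).card := by
      refine card_le_card_of_surjOn (fun i : s => (i : τ)) ?_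
      intro i hi
      rw [mem_coe, mem_filter] at hi
      exact ⟨⟨i, hS hi.1⟩, by rw [mem_coe, mem_filter]; exact ⟨mem_univ _, hi.1, hi.2⟩, rfl⟩
    exact_mod_cast h24
  have hfin : (S.card : ℝ) ≤ (2 * T + 1) * ((N : ℝ) ^ (-θ) * s.card) := by
    calc (S.card : ℝ) ≤ ((∑ d ∈ Icc (-T) T, (S.filter fun i => Bad (c + d + (num (y i) : ℤ))).card : ℕ) : ℝ) := by
          exact_mod_cast (card_le_card hcov).trans card_biUnion_le
      _ = ∑ d ∈ Icc (-T) T, ((S.filter fun i => Bad (c + d + (num (y i) : ℤ))).card : ℝ) := by push_cast; rfl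
      _ ≤ ∑ _d ∈ Icc (-T) T, (N : ℝ) ^ (-θ) * s.card := sum_le_sum hone
      _ = _ := by
        rw [sum_const, nsmul_eq_mul, Int.card_Icc]
        congr 1
        have h25 : (((T + 1 - -T).toNat : ℕ) : ℤ) = 2 * T + 1 := by omega
        have h26 : (((T + 1 - -T).toNat : ℕ) : ℝ) = ((2 * T + 1 : ℤ) : ℝ) := by exact_mod_cast h25
        rw [h26]
        push_cast
        ring
  refine hfin.trans ?_
  have hNδ1 : (1 : ℝ) ≤ (N : ℝ) ^ δ := Real.one_le_rpow hN1 hδ0.le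
  have h27 : (2 * (T : ℝ) + 1) * (N : ℝ) ^ (-θ) ≤ (N : ℝ) ^ (-δ) := by
    calc (2 * (T : ℝ) + 1) * (N : ℝ) ^ (-θ) ≤ (3 * (N : ℝ) ^ δ) * (N : ℝ) ^ (-θ) := by
          gcongr
          linarith
      _ ≤ ((N : ℝ) ^ (θ - 2 * δ) * (N : ℝ) ^ δ) * (N : ℝ) ^ (-θ) := by gcongr
      _ = (N : ℝ) ^ (-δ) := by
        rw [← Real.rpow_add hN0, ← Real.rpow_add hN0]
        congr 1
        ring
  calc (2 * (T : ℝ) + 1) * ((N : ℝ) ^ (-θ) * s.card) = (2 * (T : ℝ) + 1) * (N : ℝ) ^ (-θ) * s.card := by ring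
    _ ≤ (N : ℝ) ^ (-δ) * s.card := by gcongr

/-- The families of vectors of `R` residues formed from ARBITRARY sets. For all `0 < δ ≤ 1` and all large primes `P` the
following families have nontrivial Fourier coefficients at most `P ^ (-δ / 8)`:
(1) bilinear maps (given by matrices `M l`, all nontrivial combinations of which have rank at least `ρ`) at the elements of
ARBITRARY sets `E`, `F` with `|E| |F| ≥ P ^ (a + b - ρ + δ)`, plus arbitrary functions `u`, `w` of the one and of the other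
element; (2) products of the elements of ARBITRARY subsets `E`, `F`, `|E| |F| ≥ P ^ (R + δ)`, of the field of `P ^ R` elements,
with respect to any basis, plus arbitrary functions `u`, `w`; (3) polynomials of degree at most `P ^ (δ / 4)`, all
nontrivial combinations of which have a monomial with at least two variables, on products of ARBITRARY sets of at least
`P ^ (1 / 2 + δ)` residues, plus arbitrary functions of the single variables; (4) polynomials in one variable of degree at most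
`P ^ (δ / 4)`, no nontrivial combination of which is constant, on subgroups of the multiplicative group modulo `P` with at
least `P ^ (1 / 2 + δ)` elements. -/
def ExamplesR (R : ℕ) : Prop := ∀ δ : ℝ, 0 < δ → δ ≤ 1 → ∃ P₀ : ℕ, ∀ P : ℕ, P.Prime → ∀ [NeZero P], P₀ ≤ P →
  (∀ (a b ρ : ℕ) (M : Fin R → Matrix (Fin a) (Fin b) (ZMod P)) (E : Finset (Fin a → ZMod P)) (F : Finset (Fin b → ZMod P))
    (u : (Fin a → ZMod P) → Fin R → ZMod P) (w : (Fin b → ZMod P) → Fin R → ZMod P),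
    (∀ α : Fin R → ZMod P, α ≠ 0 → ρ ≤ (∑ l, α l • M l).rank) →
    (P : ℝ) ^ (((a + b : ℕ) : ℝ) + δ) ≤ E.card * F.card * (P : ℝ) ^ ρ →
    FlatRes (δ / 8) P (E ×ˢ F) (fun z l => z.1 ⬝ᵥ Matrix.mulVec (M l) z.2 + u z.1 l + w z.2 l)) ∧
  (∀ (K : Type) [Field K] [Algebra (ZMod P) K] (b : Module.Basis (Fin R) (ZMod P) K) (E F : Finset K)
    (u w : K → Fin R → ZMod P), (P : ℝ) ^ ((R : ℝ) + δ) ≤ E.card * F.card →
    FlatRes (δ / 8) P (E ×ˢ F) (fun z l => b.repr (z.1 * z.2) l + u z.1 l + w z.2 l)) ∧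
  (∀ (k : ℕ) (F : Fin R → MvPolynomial (Fin k) (ZMod P)) (A : Fin k → Finset (ZMod P))
    (u : Fin k → ZMod P → Fin R → ZMod P), (∀ l, ((F l).totalDegree : ℝ) ≤ (P : ℝ) ^ (δ / 4)) →
    (∀ α : Fin R → ZMod P, α ≠ 0 → Mixed (∑ l, MvPolynomial.C (α l) * F l)) →
    (∀ i, (P : ℝ) ^ (1 / 2 + δ) ≤ (A i).card) →
    FlatRes (δ / 8) P (Fintype.piFinset A) (fun x l => MvPolynomial.eval x (F l) + ∑ i, u i (x i) l)) ∧
  (∀ (H : Subgroup (ZMod P)ˣ) (s : Finset (ZMod P)ˣ) (F : Fin R → Polynomial (ZMod P)), (∀ x, x ∈ s ↔ x ∈ H) →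
    (∀ l, ((F l).natDegree : ℝ) ≤ (P : ℝ) ^ (δ / 4)) →
    (∀ α : Fin R → ZMod P, α ≠ 0 → 0 < (∑ l, Polynomial.C (α l) * F l).natDegree) →
    (P : ℝ) ^ (1 / 2 + δ) ≤ s.card →
    FlatRes (δ / 8) P s (fun h l => (F l).eval (h : ZMod P)))

lemma flatRes_of_vfam {R q : ℕ} [NeZero q] {τ : Type} {s : Finset τ} {y : τ → Fin R → ZMod q} {κ : ℝ}
    (h : VFam q s y ((q : ℝ) ^ κ)) : FlatRes κ q s y := by
  intro g hg
  refine (h.2 g hg).trans ?_
  have hq1 : (1 : ℝ) ≤ q := by exact_mod_cast NeZero.one_le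
  have hlog : 0 ≤ Real.log q := Real.log_nonneg hq1
  have hq0 : (0 : ℝ) < q := by linarith
  refine mul_le_mul_of_nonneg_right ?_ (Nat.cast_nonneg _)
  rw [Real.rpow_neg hq0.le, ← one_div]
  have h1 : (1 : ℝ) ≤ (42 + 3 * Real.log q) ^ Fintype.card (Fin R) := one_le_pow₀ (by linarith)
  have h2 : (0 : ℝ) < (q : ℝ) ^ κ := by positivity
  exact one_div_le_one_div_of_le h2 (le_mul_of_one_le_right h2.le h1)

theorem examplesR (R : ℕ) : ExamplesR R := by
  classical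
  intro δ hδ hδ1
  obtain ⟨p₁, h1⟩ := vfam_bil R δ hδ hδ1 1
  obtain ⟨p₂, h2⟩ := vfam_field R δ hδ hδ1 1
  obtain ⟨p₃, h3⟩ := vfam_prod R δ hδ hδ1 1
  obtain ⟨p₄, h4⟩ := vfam_grp R δ hδ hδ1 1
  refine ⟨p₁ + p₂ + p₃ + p₄, fun P hP _ hPP => ⟨?_, ?_, ?_, ?_⟩⟩
  · intro a b ρ M E F u w hM hE
    exact flatRes_of_vfam ((h1 P hP (by omega)).2 a b ρ M E F u w hM hE)
  · intro K _ _ b E F u w hE
    exact flatRes_of_vfam ((h2 P hP (by omega)).2 K b E F u w hE)
  · intro k F A u hF hF' hA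
    exact flatRes_of_vfam ((h3 P hP (by omega)).2 k F A u hF hF' hA)
  · intro H s F hs hF hF' hc
    have hs' : s = univ.filter (· ∈ H) := by
      ext x
      rw [hs, mem_filter]
      exact ⟨fun h => ⟨mem_univ _, h⟩, fun h => h.2⟩
    have hcard : ((s).card : ℝ) = Nat.card H := by
      rw [hs', Nat.card_eq_fintype_card, ← Fintype.card_subtype]
    rw [hcard] at hc
    rw [hs']
    exact flatRes_of_vfam ((h4 P hP (by omega)).2 H F hF hF' hc)

end Pool.Agent.U569.APL
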