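import Pool.Agent.U569.APL.Fam

set_option autoImplicit false

/-! # Frequencies of residue classes in flat families; sets whose images modulo some numbers have small density -/

namespace Pool.Agent.U569.APL

open Finset hiding dens
open Filter
open Pool.Agent.N384.VF (VFam transfer)
open Pool.Agent.N666.TM (Well dens SA SA_ind dens_nonneg ind)
open Pool.Agent.Y722.HS (red)
open Pool.Agent.N24.RW (ProNull)

section
variable {ι : Type} [Fintype ι] [DecidableEq ι]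

/-- frequencies of the residue classes in well distributed sequences -/
theorem freq_well {S : ℕ → Finset ℕ} {x : ℕ → ι → ℤ} {κ : ℝ} (hκ : 0 < κ)
    (hw : ∃ N₀ : ℕ, ∀ N : ℕ, N₀ ≤ N → ∀ H : ℕ, (H : ℝ) ≤ (N : ℝ) ^ κ → Well (S N) x H)
    (q : ℕ) (hq : 1 ≤ q) (Ω : Set (ι → ZMod q)) (δ : ℝ) (hδ : 0 < δ) :
    ∃ N₀ : ℕ, ∀ N : ℕ, N₀ ≤ N →
      ({n : ℕ | n ∈ S N ∧ red q (x n) ∈ Ω}.ncard : ℝ) ≤ (dens Ω + δ) * (S N).card := by
  classical
  obtain ⟨N₁, hN₁⟩ := hw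
  obtain ⟨H, hH⟩ := exists_nat_ge (max (q : ℝ) (dens Ω / δ))
  have hev : ∀ᶠ N : ℕ in atTop, (H : ℝ) ≤ (N : ℝ) ^ κ := by
    have h1 : Tendsto (fun N : ℕ => (N : ℝ) ^ κ) atTop atTop :=
      (tendsto_rpow_atTop hκ).comp tendsto_natCast_atTop_atTop
    exact h1.eventually_ge_atTop _
  obtain ⟨N₂, hN₂⟩ := eventually_atTop.mp hev
  refine ⟨max N₁ N₂, fun N hN => ?_⟩
  have hws := hN₁ N ((le_max_left _ _).trans hN) H (hN₂ N ((le_max_right _ _).trans hN))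
  have hqH : q ≤ H := by
    have : (q : ℝ) ≤ H := (le_max_left _ _).trans hH
    exact_mod_cast this
  have h1 := SA_ind hws q hq (by omega) Ω
  have hd0 := dens_nonneg Ω
  have hη : (1 : ℝ) / (2 * H + 1) * dens Ω ≤ δ := by
    rw [one_div, inv_mul_le_iff₀ (by positivity)]
    have h3 : dens Ω / δ ≤ H := (le_max_right _ _).trans hH
    rw [div_le_iff₀ hδ] at h3
    have : (0 : ℝ) ≤ H := Nat.cast_nonneg _
    nlinarith
  have h2 : SA (S N) x (fun c => ind Ω (red q c)) ≤ dens Ω + δ := by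
    have := (abs_le.1 h1).2
    linarith
  have hs : (0 : ℝ) < (S N).card := by exact_mod_cast hws.pos
  have h3 : SA (S N) x (fun c => ind Ω (red q c)) =
      (((S N).filter fun n => red q (x n) ∈ Ω).card : ℝ) / (S N).card := by
    unfold SA ind
    rw [Finset.natCast_card_filter]
  rw [h3, div_le_iff₀ hs] at h2
  have h4 : {n : ℕ | n ∈ S N ∧ red q (x n) ∈ Ω} = (((S N).filter fun n => red q (x n) ∈ Ω : Finset ℕ) : Set ℕ) := by
    ext n; simp
  rw [h4, Set.ncard_coe_finset]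
  exact h2

/-- frequencies of the residue classes in families -/
theorem freq_fam (q : ℕ) (hq : 1 ≤ q) (Ω : Set (ι → ZMod q)) (δ : ℝ) (hδ : 0 < δ) :
    ∃ Z₀ : ℕ, ∀ (τ : Type) (m : ℕ) [NeZero m] (s : Finset τ) (y : τ → ι → ZMod m) (Z : ℝ), Z₀ ≤ Z → VFam m s y Z →
      ∀ c₀ : ι → ℤ, ({i : τ | i ∈ s ∧ red q (fun j => c₀ j + ((y i j).val : ℕ) : ι → ℤ) ∈ Ω}.ncard : ℝ) ≤
        (dens Ω + δ) * s.card := by
  have hd0 := dens_nonneg Ω
  obtain ⟨Z₀, h1⟩ := transfer (ι := ι) (fun _ v => red q v ∉ Ω) (dens Ω + δ) (by linarith) fun S x κ hκ hw => by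
    obtain ⟨N₀, h2⟩ := freq_well hκ hw q hq Ω δ hδ
    refine ⟨N₀, fun N hN => ?_⟩
    have h3 := h2 N hN
    simpa only [not_not] using h3
  refine ⟨Z₀, fun τ m _ s y Z hZ hv c₀ => ?_⟩
  have h2 := h1 τ m s y Z hZ hv c₀
  simpa only [not_not] using h2

/-- frequencies of the residue classes in flat families -/
theorem flat_freq {τ : ℕ → Type} {s : ∀ j, Finset (τ j)} {v : ∀ j, τ j → ι → ℤ} (h : FlatFamilies s v)
    (q : ℕ) (hq : 1 ≤ q) (Ω : Set (ι → ZMod q)) (δ : ℝ) (hδ : 0 < δ) :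
    ∀ᶠ j in atTop, ({i : τ j | i ∈ s j ∧ red q (v j i) ∈ Ω}.ncard : ℝ) ≤ (dens Ω + δ) * (s j).card := by
  obtain ⟨Z₀, h1⟩ := freq_fam q hq Ω δ hδ
  filter_upwards [h (Z₀ : ℝ)] with j hj
  obtain ⟨m, hm, y, c₀, Z, g1, g2, g3, g4⟩ := hj
  have h2 := h1 (τ j) m (s j) y Z g1 ⟨g2, g3⟩ c₀
  have h3 : v j = fun i l => c₀ l + ((y i l).val : ℕ) := by
    funext i l
    exact g4 i l
  rw [h3]
  exact h2

/-- The images of `B` modulo suitable numbers have arbitrarily small densities: the closure of `B` in the product of all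
`ℤ_p ^ ι` has Haar measure zero. -/
def Null (B : Set (ι → ℤ)) : Prop :=
  ∀ ε : ℝ, 0 < ε → ∃ q : ℕ, 1 ≤ q ∧ dens ((red q) '' B) ≤ ε

omit [DecidableEq ι] in
lemma null_of_proNull {B : Set (ι → ℤ)} (hB : ProNull B) : Null B := by
  intro ε hε
  obtain ⟨q, hq, _, hb⟩ := hB 1 one_pos ε hε
  have hqr : (0 : ℝ) < q := by exact_mod_cast hq
  refine ⟨q, hq, ?_⟩
  unfold dens
  rw [div_le_iff₀ (by positivity)]
  exact hb

omit [DecidableEq ι] in
lemma null_mono {B B' : Set (ι → ℤ)} (h : B ⊆ B') (hB : Null B') : Null B := by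
  intro ε hε
  obtain ⟨q, hq, hb⟩ := hB ε hε
  refine ⟨q, hq, le_trans ?_ hb⟩
  have : NeZero q := ⟨by omega⟩
  unfold dens
  refine div_le_div_of_nonneg_right ?_ (by positivity)
  exact_mod_cast Set.ncard_le_ncard (Set.image_mono h) (Set.toFinite _)

theorem flat_null {τ : ℕ → Type} {s : ∀ j, Finset (τ j)} {v : ∀ j, τ j → ι → ℤ} (h : FlatFamilies s v)
    {B : Set (ι → ℤ)} (hB : Null B) (ε : ℝ) (hε : 0 < ε) :
    ∀ᶠ j in atTop, ({i : τ j | i ∈ s j ∧ v j i ∈ B}.ncard : ℝ) ≤ ε * (s j).card := by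
  obtain ⟨q, hq, hb⟩ := hB (ε / 2) (by positivity)
  filter_upwards [flat_freq h q hq ((red q) '' B) (ε / 2) (by positivity)] with j hj
  have h1 : {i : τ j | i ∈ s j ∧ v j i ∈ B} ⊆ {i : τ j | i ∈ s j ∧ red q (v j i) ∈ (red q) '' B} :=
    fun i hi => ⟨hi.1, ⟨_, hi.2, rfl⟩⟩
  have h2 : (({i : τ j | i ∈ s j ∧ v j i ∈ B}.ncard : ℕ) : ℝ) ≤
      ({i : τ j | i ∈ s j ∧ red q (v j i) ∈ (red q) '' B}.ncard : ℕ) := by
    exact_mod_cast Set.ncard_le_ncard h1 ((s j).finite_toSet.subset fun i hi => hi.1)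
  refine h2.trans (hj.trans ?_)
  refine mul_le_mul_of_nonneg_right ?_ (Nat.cast_nonneg _)
  linarith

/-- one small set of exceptions for countably many null sets -/
theorem flat_diag_null {Φ : Type} [Countable Φ] {τ : ℕ → Type} {s : ∀ j, Finset (τ j)}
    {v : ∀ j, τ j → ι → ℤ} (h : FlatFamilies s v) (B : Φ → Set (ι → ℤ)) (hB : ∀ φ, Null (B φ)) :
    ∃ E : ∀ j, Finset (τ j), Small s E ∧ ∀ φ, Outside s E v fun c => c ∉ B φ := by
  obtain ⟨E, h1, h2, h3⟩ := diag_fam s (fun φ j i => v j i ∈ B φ) fun φ ε hε => flat_null h (hB φ) ε hε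
  exact ⟨E, ⟨h1, h2⟩, h3⟩

end

end Pool.Agent.U569.APL
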