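import Pool.Agent.N140.RO.Cnt
import Pool.Agent.U569.APL.Null

set_option autoImplicit false

/-!
# One small set of exceptions for all finite extensions of a number field and countably many data over each of them
-/

namespace Pool.Agent.U569.APL

open NumberField Filter
open Pool.Agent.N24.RW (ProNull)

/-- one small set of exceptions for all finite extensions `E` of `K` and all data in `T E` -/
theorem flat_ext {K : Type} [Field K] [NumberField K] {ι : Type} [Fintype ι] [DecidableEq ι] {τ : ℕ → Type}
    {s : ∀ j, Finset (τ j)} {v : ∀ j, τ j → ι → ℤ} (hs : FlatFamilies s v) (T : ∀ (E : Type) [Field E], Type)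
    (hT : ∀ (E : Type) [Field E], Countable E → Countable (T E))
    (G : ∀ (E : Type) [Field E] [Algebra K E], T E → (ι → ℤ) → Prop)
    (hG : ∀ (E : Type) [Field E] [NumberField E] [Algebra K E] (t : T E), ProNull {c | ¬ G E t c}) :
    ∃ B : ∀ j, Finset (τ j), Small s B ∧
      ∀ E : IntermediateField K (AlgebraicClosure K), FiniteDimensional K E →
        ∀ t : T E, Outside s B v fun c => G E t c := by
  classical
  have hcl := Pool.Agent.N140.RO.countable_algClosure K
  let Φ : Type := Σ S : {S : Finset (AlgebraicClosure K) //
    FiniteDimensional K (IntermediateField.adjoin K (S : Set (AlgebraicClosure K)))},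
    T (IntermediateField.adjoin K (S.1 : Set (AlgebraicClosure K)))
  have hΦ : Countable Φ := by
    have : ∀ S : {S : Finset (AlgebraicClosure K) //
        FiniteDimensional K (IntermediateField.adjoin K (S : Set (AlgebraicClosure K)))},
        Countable (T (IntermediateField.adjoin K (S.1 : Set (AlgebraicClosure K)))) :=
      fun S => hT _ inferInstance
    infer_instance
  obtain ⟨B, hB, h⟩ := flat_diag hs (fun x : Φ => {c : ι → ℤ | ¬ G _ x.2 c}) (by
    rintro ⟨⟨S, hS⟩, t⟩
    have hnf : NumberField (IntermediateField.adjoin K (S : Set (AlgebraicClosure K))) := by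
      have : CharZero (IntermediateField.adjoin K (S : Set (AlgebraicClosure K))) :=
        charZero_of_injective_algebraMap (algebraMap K _).injective
      have : FiniteDimensional ℚ (IntermediateField.adjoin K (S : Set (AlgebraicClosure K))) :=
        FiniteDimensional.trans ℚ K _
      exact ⟨⟩
    exact hG _ t)
  refine ⟨B, hB, fun E hE => ?_⟩
  obtain ⟨S, hS⟩ : E.FG := by
    refine IntermediateField.fg_of_fg_toSubalgebra E ?_
    rw [Subalgebra.fg_iff_finiteType]
    have : FiniteDimensional K E.toSubalgebra := hE
    infer_instance
  subst hS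
  intro t
  filter_upwards [h ⟨⟨S, hE⟩, t⟩] with j hj i hi hi2
  exact not_not.mp (hj i hi hi2)

end Pool.Agent.U569.APL
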