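import Pool.Agent.N918.EQ.Sel
import Pool.Agent.U569.APL.Fam

/-!
# The Selmer group conjecture for members of flat families

After `Pool.Agent.N918.EQ.Sel` (helper918, helper323, helper431), with one small set of exceptions.
-/

set_option autoImplicit false
set_option linter.all false

open scoped Classical

namespace Pool.Agent.U569.APL.Sel

open Polynomial NumberField IsDedekindDomain Pool.Agent.Y713 Pool.Agent.R431.SG
open Pool.Agent.N24.RW (ProNull)
open Pool.Agent.N323.TH (cv repr_cv Tab tab exists_iso pf exists_pf pf_map cv_map curves_end monic_end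
  twists_end ObT)
open Pool.Agent.N918.EQ.Sel
open Pool.Agent.U569.APL
open Filter

variable {r : ℕ}

theorem pronull_empty {ι : Type} [Fintype ι] : ProNull (∅ : Set (ι → ℤ)) := by
  intro M hM ε hε
  exact ⟨1, one_pos, Nat.coprime_one_left _, by simpa using hε.le⟩

/-- **One small set of exceptions for all number fields and all integral bases.** -/
theorem diag_one {A : Type} [Countable A] {I : Type} [Fintype I] (r : ℕ)
    (Ob : ∀ (_ : A) (p : ℕ) [Fact p.Prime], (ZMod p)[X] → Set (I → ZMod p))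
    {τ : ℕ → Type} {s : ∀ j, Finset (τ j)} {c : ∀ j, τ j → I × Fin r → ℤ} (hs : FlatFamilies s c) :
    ∃ E : ∀ j, Finset (τ j), Small s E ∧
      ∀ (k : Type) [Field k] [NumberField k] (B : Module.Basis (Fin r) ℤ (𝓞 k))
      (f : (𝓞 k)[X]) (i : A), ProNull (BadV B f (fun p _ => Ob i p)) →
      Outside s E c fun v => v ∉ BadV B f (fun p _ => Ob i p) := by
  let Y : Type := A × Tab r × (Σ d : ℕ, (Fin d → Fin r → ℤ))
  have hY : Countable Y := by
    show Countable (A × Tab r × (Σ d : ℕ, (Fin d → Fin r → ℤ)))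
    infer_instance
  let Pr : Y → Set (I × Fin r → ℤ) → Prop := fun z D => ProNull D ∧ ∃ (k : Type) (_ : Field k)
    (_ : NumberField k) (B : Module.Basis (Fin r) ℤ (𝓞 k)), tab B = z.2.1 ∧
      D = BadV B (pf B z.2.2) (fun p _ => Ob z.1 p)
  let Z : Y → Set (I × Fin r → ℤ) := fun z => if h : ∃ D, Pr z D then h.choose else ∅
  have hZ : ∀ z, ProNull (Z z) := by
    intro z
    by_cases h : ∃ D, Pr z D
    · have h1 : Z z = h.choose := dif_pos h
      rw [h1]
      exact h.choose_spec.1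
    · have h1 : Z z = ∅ := dif_neg h
      rw [h1]
      exact pronull_empty
  obtain ⟨E, hE, h2⟩ := flat_diag hs Z hZ
  refine ⟨E, hE, ?_⟩
  intro k _ _ B f i hpro
  obtain ⟨y, rfl⟩ := exists_pf B f
  let z : Y := ⟨i, tab B, y⟩
  have h : ∃ D, Pr z D := ⟨_, hpro, k, inferInstance, inferInstance, B, rfl, rfl⟩
  have h3 : BadV B (pf B y) (fun p _ => Ob i p) ⊆ Z z := by
    show _ ⊆ (if h : ∃ D, Pr z D then h.choose else ∅)
    rw [dif_pos h]
    obtain ⟨-, k₀, _, _, B₀, ht, hD⟩ := h.choose_spec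
    rw [hD]
    exact badV_sub B B₀ ht.symm y _
  filter_upwards [h2 z] with j hj i' hi hi2 hb
  exact hj i' hi hi2 (h3 hb)

/-- the union of two small sets of exceptions -/
theorem small_union {τ : ℕ → Type} {s E F : ∀ j, Finset (τ j)} (hE : Small s E) (hF : Small s F) :
    Small s fun j => E j ∪ F j := by
  refine ⟨fun j => Finset.union_subset (hE.1 j) (hF.1 j), fun ε hε => ?_⟩
  filter_upwards [hE.2 (ε / 2) (by positivity), hF.2 (ε / 2) (by positivity)] with j h1 h2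
  have h3 : ((E j ∪ F j).card : ℝ) ≤ (E j).card + (F j).card := by
    exact_mod_cast Finset.card_union_le _ _
  linarith

theorem outside_left {ι : Type} {τ : ℕ → Type} {s E F : ∀ j, Finset (τ j)} {v : ∀ j, τ j → ι → ℤ}
    {R : (ι → ℤ) → Prop} (h : Outside s E v R) : Outside s (fun j => E j ∪ F j) v R := by
  filter_upwards [h] with j hj i hi hi2
  exact hj i hi fun h => hi2 (Finset.mem_union_left _ h)

theorem outside_right {ι : Type} {τ : ℕ → Type} {s E F : ∀ j, Finset (τ j)} {v : ∀ j, τ j → ι → ℤ}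
    {R : (ι → ℤ) → Prop} (h : Outside s F v R) : Outside s (fun j => E j ∪ F j) v R := by
  filter_upwards [h] with j hj i hi hi2
  exact hj i hi fun h => hi2 (Finset.mem_union_right _ h)

theorem outside_mono {ι : Type} {τ : ℕ → Type} {s E : ∀ j, Finset (τ j)} {v : ∀ j, τ j → ι → ℤ}
    {R R' : (ι → ℤ) → Prop} (h : Outside s E v R) (hR : ∀ c, R c → R' c) : Outside s E v R' := by
  filter_upwards [h] with j hj i hi hi2
  exact hR _ (hj i hi hi2)

theorem outside_all {ι : Type} {τ : ℕ → Type} {s E : ∀ j, Finset (τ j)} {v : ∀ j, τ j → ι → ℤ}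
    {A : Type} [Finite A] {R : A → (ι → ℤ) → Prop} (h : ∀ a, Outside s E v (R a)) :
    Outside s E v fun c => ∀ a, R a c := by
  have h2 : ∀ᶠ j in atTop, ∀ a, ∀ i ∈ s j, i ∉ E j → R a (v j i) := eventually_all.2 h
  filter_upwards [h2] with j hj i hi hi2 a
  exact hj a i hi hi2

/-- the curves and the monic curves, general form -/
theorem flat_curves (r N n : ℕ) (hn : 4 ≤ n) {τ : ℕ → Type} {s : ∀ j, Finset (τ j)}
    {c : ∀ j, τ j → (Fin (N + 1) × Fin (n + 1)) × Fin r → ℤ} (hs : FlatFamilies s c) :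
    ∃ E : ∀ j, Finset (τ j), Small s E ∧
      ∀ (k : Type) [Field k] [NumberField k] (B : Module.Basis (Fin r) ℤ (𝓞 k))
      (ℓ : ℕ) (_ : ℓ.Prime) (ζ : k) (_ : IsPrimitiveRoot ζ ℓ),
      (¬ ℓ ∣ N → Outside s E c fun v => v ∉ BadC ℓ N n B) ∧
      (2 ≤ N → ¬ ℓ ∣ N + 1 → Outside s E c fun v => v ∉ BadM ℓ N n B) := by
  obtain ⟨m, rfl⟩ : ∃ m, n = m + 2 := ⟨n - 2, by omega⟩
  obtain ⟨E₁, hE₁, hx1⟩ := diag_one (A := Σ (ℓ : ℕ), Option (Option ((Fin N × Fin N) ⊕ (Fin N × Fin N → Fin ℓ))))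
    (I := Fin (N + 1) × Fin (m + 3)) r (fun i p _ _ => ObsL i.1 N m i.2 p) hs
  obtain ⟨E₂, hE₂, hx2⟩ := diag_one (A := Σ (ℓ : ℕ), Fin N × Option (Option ((Fin N × Fin N) ⊕ (Fin N × Fin N → Fin ℓ))))
    (I := Fin (N + 1) × Fin (m + 3)) r (fun i p _ _ => {c | trn i.2.1 c ∈ ObsL i.1 N m i.2.2 p}) hs
  refine ⟨fun j => E₁ j ∪ E₂ j, small_union hE₁ hE₂, fun k _ _ B ℓ hℓ ζ hζ => ?_⟩
  obtain ⟨ζ', hζ'⟩ := exists_root hℓ hζ
  refine ⟨fun hN => outside_left ?_, fun hN2 hN => outside_right ?_⟩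
  · have hS : ∀ T : Option (Option ((Fin N × Fin N) ⊕ (Fin N × Fin N → Fin ℓ))),
        Outside s E₁ c fun v => v ∉ (BadV B 0 (fun p _ _ => ObsL ℓ N m T p)) := by
      intro T
      refine hx1 k B 0 ⟨ℓ, T⟩ ?_
      exact badV_pro' B (δ := 1 / (2048 * ((m + 2 : ℕ) : ℝ) ^ 2)) (by positivity)
        (1600 + (4 * N + 6) + 2 * (N * N) + ℓ + 1) (fun p _ _ => ObsL ℓ N m T p)
        (fun p _ σ hp => card_ObsL hℓ hζ' (by omega) T p σ hp)
    refine outside_mono (outside_all hS) ?_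
    intro v hcon hnot
    apply hnot
    refine curves_end hℓ hζ hN (by omega) _ ?_
    intro T
    by_contra hno
    apply hcon T
    intro p _ σ hmem
    exact hno ⟨p, _, σ, hmem⟩
  · have hS : ∀ T : Fin N × Option (Option ((Fin N × Fin N) ⊕ (Fin N × Fin N → Fin ℓ))),
        Outside s E₂ c fun v => v ∉ (BadV B 0 (fun p _ _ => {c | trn T.1 c ∈ ObsL ℓ N m T.2 p})) := by
      intro T
      refine hx2 k B 0 ⟨ℓ, T⟩ ?_
      refine badV_pro' B (δ := 1 / (2048 * ((m + 2 : ℕ) : ℝ) ^ 2)) (by positivity)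
        (1600 + (4 * N + 6) + 2 * (N * N) + ℓ + 1)
        (fun p _ _ => {c | trn T.1 c ∈ ObsL ℓ N m T.2 p}) ?_
      intro p _ σ hp
      rw [card_trn]
      exact card_ObsL hℓ hζ' (by omega) T.2 p σ hp
    refine outside_mono (outside_all hS) ?_
    intro v hcon hnot
    apply hnot
    refine monic_end hℓ hζ hN2 hN (by omega) _ ?_
    intro i T
    by_contra hno
    apply hcon (i, T)
    intro p _ σ hmem
    exact hno ⟨p, _, σ, hmem⟩

/-- the twists, general form -/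
theorem flat_twists (r n : ℕ) (hn : 2 ≤ n) {τ : ℕ → Type} {s : ∀ j, Finset (τ j)}
    {c : ∀ j, τ j → Fin (n + 1) × Fin r → ℤ} (hs : FlatFamilies s c) :
    ∃ E : ∀ j, Finset (τ j), Small s E ∧
      ∀ (k : Type) [Field k] [NumberField k] (B : Module.Basis (Fin r) ℤ (𝓞 k))
      (ℓ : ℕ) (_ : ℓ.Prime) (ζ : k) (_ : IsPrimitiveRoot ζ ℓ)
      (G : (RatFunc k)[X]) (_ : G.Splits) (_ : G.Separable) (_ : ¬ ℓ ∣ G.natDegree)
      (_ : n = 2 → ℓ ≠ 2), Outside s E c fun v => v ∉ BadT ℓ n B G := by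
  obtain ⟨m, rfl⟩ : ∃ m, n = m + 2 := ⟨n - 2, by omega⟩
  obtain ⟨E, hE, hx⟩ := diag_one (A := ℕ × Fin 3) (I := Fin (m + 3)) r (fun i p _ g => ObT i.1 m i.2 p g) hs
  refine ⟨E, hE, fun k _ _ B ℓ hℓ ζ hζ G hsp hsep hdeg hn3 => ?_⟩
  obtain ⟨ζ', hζ'⟩ := exists_root hℓ hζ
  obtain ⟨t, hs1, hs2⟩ := twists_end hℓ hζ hsp hsep hdeg
  have hδ0 : (0 : ℝ) < 1 / (32 * (m + 2) ^ 2) := by positivity
  have hA : Outside s E c fun v => v ∉ (BadV B 0 (fun p _ g => ObT ℓ m 0 p g)) := by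
    refine hx k B 0 ⟨ℓ, 0⟩ ?_
    refine badV_pro' B hδ0 2 (fun p _ g => ObT ℓ m 0 p g) ?_
    intro p _ σ hp
    rw [Fintype.card_fin]
    have h1 := card_irr2 p (n := m + 2) (by omega)
    refine le_trans ?_ h1
    exact mul_le_mul_of_nonneg_right (d3 m) (by positivity)
  have hB : Outside s E c fun v => v ∉ (if 1 ≤ m then BadV B 0 (fun p _ g => ObT ℓ m 1 p g) else ∅) := by
    split_ifs with hm
    · refine hx k B 0 ⟨ℓ, 1⟩ ?_
      refine badV_pro' B hδ0 2 (fun p _ g => ObT ℓ m 1 p g) ?_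
      intro p _ σ hp
      rw [Fintype.card_fin]
      have h1 := card_fac2 p (m := m + 1) (by omega)
      refine le_trans ?_ h1
      exact mul_le_mul_of_nonneg_right (d2 m) (by positivity)
    · exact Eventually.of_forall fun j i _ _ h => h
  have hC : ∀ f : {f // f ∈ t}, Outside s E c fun v => v ∉ (BadV B f.1 (fun p _ g => ObT ℓ m 2 p g)) := by
    rintro ⟨f, hf⟩
    refine hx k B f ⟨ℓ, 2⟩ ?_
    obtain ⟨k', _, _, ι, p0, hk'⟩ := hs1 f hf
    obtain ⟨P0, hP0⟩ := card_PObs hℓ f.natDegree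
    refine badV_pro B f ι hδ0 (p0 + P0 + ℓ + 1) (fun p _ g => ObT ℓ m 2 p g) ?_
    intro p _ σ hp
    obtain ⟨h1, h2⟩ := hk' p σ (by omega)
    rw [Fintype.card_fin]
    exact hP0 p (by omega) (ell_dvd hℓ hζ' (σ.comp ι) (by omega)) _ h1 natDegree_map_le h2 m
  filter_upwards [hA, hB, outside_all hC] with j gA gB gC i hi hi2
  intro hnot
  apply hnot
  refine hs2 m hn3 _ ?_ ?_ ?_
  · by_contra hno
    apply gA i hi hi2
    intro p _ σ hmem
    exact hno ⟨p, _, σ, hmem⟩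
  · intro hm
    have hB' := gB i hi hi2
    rw [if_pos hm] at hB'
    by_contra hno
    apply hB'
    intro p _ σ hmem
    obtain ⟨r, g, h1⟩ := hmem
    exact hno ⟨p, _, σ, r, g, h1⟩
  · intro f hf
    by_contra hno
    apply gC i hi hi2 ⟨f, hf⟩
    intro p _ σ hmem
    exact hno ⟨p, _, σ, hmem⟩

end Pool.Agent.U569.APL.Sel
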