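import Pool.Agent.Results.MP_5b1cbc_ag.AlmostAllMonomials

set_option autoImplicit false

/-!
# General type and geometric hyperbolicity for typical tuples of monomials

The proof of the starting result `MP_5b1cbc_ag.AlmostAllMonomials`, for one typical tuple.
-/

namespace Pool.Agent.U569.APL

open FF MvPolynomial Pool.Agent.W602.GT Pool.Agent.R869.Wd
open Pool.Agent.W602.RG (PseudoGeomHyp PointedMaps)
open Pool.Agent.Results.MP_5b1cbc_ag.AlmostAllMonomials

theorem good_mono {n s : ℕ} {I : Fin s → Finset (Fin (n + 1))} {d : ℕ} {a : Fin s → (Fin (n + 1) →₀ ℕ)}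
    (hty : TypI I d a) :
  ∀ (k : Type) [Field k] [IsAlgClosed k] [CharZero k],
    (∀ (m : ℕ) (F : Fin m → MvPolynomial (Fin (n + 1)) k), (∀ e, (F e).support ⊆ withPowers d a) → Equivalent F) ∧
    (∀ F : MvPolynomial (Fin (n + 1)) k, F.support ⊆ withPowers d a → LooseCriterion F) ∧
    ∀ (m : ℕ) (F : Fin m → MvPolynomial (Fin (n + 1)) k), (∀ e, (F e).support ⊆ withPowers d a) →
      GenCoeffs F (withPowers d a) → (∀ J, Spread I m J) →
      ∀ (K : Type) [Field K] [Algebra k K] (w : ℕ) (y : Fin (n + 1) → K), 1 ≤ w →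
        SubVar F K w y → GeneralType k K w ∧
        ∀ (L : Type) [Field L] [Algebra k L] [IsFF k L] (c : Place k L), ∀ x ∈ VarPts k y,
          (PointedMaps y c x).Finite := by
  classical
  intro k _ _ _
  obtain ⟨s', N, hg⟩ := hty.good
  obtain ⟨A, hA⟩ := hg.unif
  refine ⟨fun m F hFT K _ _ w y hw hy hcomp =>
    pgh_tfae (hg.sys hFT ∅) (hA k (Fin m) F hFT ∅) hw hy hcomp, fun F hF =>
    ⟨fun J => ?_, (hty.loose_general hF).symm, fun K _ _ w y hy L _ _ _ c x hx hJ => ?_⟩,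
    fun m F hFT hgc hsp K _ _ w y hw hy => ?_⟩
  · rw [hty.critSub hF (U := ∅) (J := J) fun j hj => absurd hj (Set.notMem_empty j)]
    constructor
    · rintro ⟨K, i1, i2, w, y, hw, hy, hyJ, hgt⟩
      exact ⟨K, i1, i2, w, y, hw, subVar_iff.1 hy, hyJ, fun h3 => hgt ((general_iff y).2 h3)⟩
    · rintro ⟨K, i1, i2, w, y, hw, hy, hyJ, hgt⟩
      exact ⟨K, i1, i2, w, y, hw, subVar_iff.2 hy, hyJ, fun h3 => hgt ((general_iff y).1 h3)⟩
  · refine finite_of (hg.sys (F := fun _ : Fin 1 => F) (fun _ => hF) ∅).form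
      (hA k (Fin 1) (fun _ => F) (fun _ => hF) ∅) hy c hx fun L' _ _ f hf => ?_
    rintro ⟨b, i, i', hi, hi', hb, hw⟩
    refine hJ (Finset.univ.filter fun j => f j ≠ 0) (fun j hj => Finset.mem_filter.2
      ⟨Finset.mem_univ _, hf j hj⟩) (hty.loose_of_orbit hF (x := f) (b := b)
      (fun j => by simp) ⟨i, by simpa using hi, i', by simpa using hi', hb⟩ fun v => hw 0 v)
  · exact ⟨hty.all hFT hgc hsp K w y hw hy, fun L _ _ _ c x hx =>
      finite_of (hg.sys hFT ∅).form (hA k (Fin m) F hFT ∅) hy c hx fun L' _ _ f _ =>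
        hty.no_parts hFT hgc (J := Finset.univ.filter fun j => f j ≠ 0) (fun j => by simp) (hsp _)⟩

end Pool.Agent.U569.APL
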