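import Pool.Agent.U569.APL.Fam

set_option autoImplicit false

/-!
# Flat families of integral vectors of polynomial size

`PowerFlat β B s v`: in the sequence (`j = 0, 1, 2, …`) of finite families of integral vectors `v j i`, `i ∈ s j`, the
`j`-th family consists for large `j` of the vectors `c₀ + y_i`, `|c₀| ≤ q ^ B`, where `y_i` are vectors of residues modulo
some `q` (represented by `0, …, q - 1`) whose nontrivial Fourier coefficients are at most `1 / (Z (42 + 3 log q) ^ r)`,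
where `r` is the number of the coordinates, `q ^ β ≤ Z ≤ q` and `q → ∞` with `j`.
-/

namespace Pool.Agent.U569.APL

open Finset Filter
open Pool.Agent.N384.VF (Flat VFam)

section
variable {ι : Type} [Fintype ι]

/-- The `j`-th family `v j i`, `i ∈ s j`, consists for large `j` of an integral vector `c₀` plus vectors of residues
modulo some `q` with nontrivial Fourier coefficients at most `1 / (Z (42 + 3 log q) ^ r)`, where `Z → ∞`,
`q ^ β ≤ Z ≤ q` and `|c₀| ≤ q ^ B`. -/
def PowerFlat (β : ℝ) (B : ℕ) {τ : ℕ → Type} (s : ∀ j, Finset (τ j)) (v : ∀ j, τ j → ι → ℤ) : Prop :=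
  ∀ Z₀ : ℝ, ∀ᶠ j in atTop, ∃ (q : ℕ) (_ : NeZero q) (y : τ j → ι → ZMod q) (c₀ : ι → ℤ) (Z : ℝ), Z₀ ≤ Z ∧ Z ≤ q ∧
    (q : ℝ) ^ β ≤ Z ∧ (∀ l, |(c₀ l : ℝ)| ≤ (q : ℝ) ^ B) ∧
    (∀ h : ι → ZMod q, h ≠ 0 → ‖∑ i ∈ s j, (ZMod.stdAddChar (∑ l, h l * y i l) : ℂ)‖ ≤
      1 / (Z * (42 + 3 * Real.log q) ^ Fintype.card ι) * (s j).card) ∧
    ∀ i l, v j i l = c₀ l + ((y i l).val : ℕ)

end

section
variable (ι : Type) [Fintype ι] (δ : ℝ) (B : ℕ) (P : ℕ → ℕ)

/-- (1) Values of bilinear maps `β j : k ^ a × k ^ b → k ^ ι` at the elements of ARBITRARY sets `E j ⊆ k ^ a` and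
`F j ⊆ k ^ b`, plus arbitrary functions of the one and of the other element, translated by a vector with coordinates
at most `P j ^ B`; `k` is the field of `P j` elements and every nontrivial combination of the coordinates of `β j` has
rank at least `ρ j`, `|E j| |F j| ≥ P j ^ (a + b - ρ + δ)`. -/
def BilinearExamplesP : Prop :=
  ∀ (a b ρ : ℕ → ℕ) (M : ∀ j, ι → Matrix (Fin (a j)) (Fin (b j)) (ZMod (P j)))
    (E : ∀ j, Finset (Fin (a j) → ZMod (P j))) (F : ∀ j, Finset (Fin (b j) → ZMod (P j)))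
    (u : ∀ j, (Fin (a j) → ZMod (P j)) → ι → ZMod (P j)) (w : ∀ j, (Fin (b j) → ZMod (P j)) → ι → ZMod (P j))
    (c₀ : ℕ → ι → ℤ), (∀ j l, |(c₀ j l : ℝ)| ≤ (P j : ℝ) ^ B) →
    (∀ j, ∀ α : ι → ZMod (P j), α ≠ 0 → ρ j ≤ (∑ l, α l • M j l).rank) →
    (∀ j, (P j : ℝ) ^ (((a j + b j : ℕ) : ℝ) + δ) ≤ (E j).card * (F j).card * (P j : ℝ) ^ ρ j) →
    PowerFlat (δ / 8) B (fun j => E j ×ˢ F j) (fun j z l =>
      c₀ j l + ((z.1 ⬝ᵥ Matrix.mulVec (M j l) z.2 + u j z.1 l + w j z.2 l).val : ℕ))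

/-- (2) Products of the elements of two ARBITRARY subsets of the field `K j` of `P j ^ r` elements, with respect to any
basis over the prime field (`r` is the number of the coordinates), plus arbitrary functions of the one and of the other
element, translated by a vector with coordinates at most `P j ^ B`; `|E j| |F j| ≥ P j ^ (r + δ)`. -/
def FieldExamplesP : Prop :=
  ∀ (K : ℕ → Type) [∀ j, Field (K j)] [∀ j, Algebra (ZMod (P j)) (K j)]
    (b : ∀ j, Module.Basis ι (ZMod (P j)) (K j)) (E F : ∀ j, Finset (K j)) (u w : ∀ j, K j → ι → ZMod (P j))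
    (c₀ : ℕ → ι → ℤ), (∀ j l, |(c₀ j l : ℝ)| ≤ (P j : ℝ) ^ B) →
    (∀ j, (P j : ℝ) ^ ((Fintype.card ι : ℝ) + δ) ≤ (E j).card * (F j).card) →
    PowerFlat (δ / 8) B (fun j => E j ×ˢ F j) (fun j z l =>
      c₀ j l + (((b j).repr (z.1 * z.2) l + u j z.1 l + w j z.2 l).val : ℕ))

/-- (3) Values of polynomials `F j l` of degree at most `P j ^ (δ / 4)`, such that every nontrivial combination has a
monomial with at least two variables, on products of ARBITRARY sets of at least `P j ^ (1 / 2 + δ)` residues, plus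
arbitrary functions of the single variables, translated by a vector with coordinates at most `P j ^ B`. -/
def PolynomialExamplesP : Prop :=
  ∀ (k : ℕ → ℕ) (F : ∀ j, ι → MvPolynomial (Fin (k j)) (ZMod (P j)))
    (A : ∀ j, Fin (k j) → Finset (ZMod (P j))) (u : ∀ j, Fin (k j) → ZMod (P j) → ι → ZMod (P j))
    (c₀ : ℕ → ι → ℤ), (∀ j l, |(c₀ j l : ℝ)| ≤ (P j : ℝ) ^ B) →
    (∀ j l, ((F j l).totalDegree : ℝ) ≤ (P j : ℝ) ^ (δ / 4)) →
    (∀ j, ∀ α : ι → ZMod (P j), α ≠ 0 → Mixed (∑ l, MvPolynomial.C (α l) * F j l)) →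
    (∀ j i, (P j : ℝ) ^ (1 / 2 + δ) ≤ (A j i).card) →
    PowerFlat (δ / 8) B (fun j => Fintype.piFinset (A j)) (fun j a l =>
      c₀ j l + ((MvPolynomial.eval a (F j l) + ∑ i, u j i (a i) l).val : ℕ))

/-- (4) Values of polynomials in one variable of degree at most `P j ^ (δ / 4)`, no nontrivial combination of which is
constant, on subgroups `H j` of the multiplicative group modulo `P j` with at least `P j ^ (1 / 2 + δ)` elements,
translated by a vector with coordinates at most `P j ^ B`. -/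
def SubgroupExamplesP : Prop :=
  ∀ (H : ∀ j, Subgroup (ZMod (P j))ˣ) (s : ∀ j, Finset (ZMod (P j))ˣ) (F : ∀ j, ι → Polynomial (ZMod (P j)))
    (c₀ : ℕ → ι → ℤ), (∀ j l, |(c₀ j l : ℝ)| ≤ (P j : ℝ) ^ B) → (∀ j x, x ∈ s j ↔ x ∈ H j) →
    (∀ j l, ((F j l).natDegree : ℝ) ≤ (P j : ℝ) ^ (δ / 4)) →
    (∀ j, ∀ α : ι → ZMod (P j), α ≠ 0 → 0 < (∑ l, Polynomial.C (α l) * F j l).natDegree) →
    (∀ j, (P j : ℝ) ^ (1 / 2 + δ) ≤ (s j).card) →
    PowerFlat (δ / 8) B s (fun j h l => c₀ j l + (((F j l).eval (h : ZMod (P j))).val : ℕ))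

end

/-- The four kinds of examples, for all `0 < δ ≤ 1` and all sequences of primes `P j → ∞`. -/
def ExamplesP (ι : Type) [Fintype ι] (B : ℕ) : Prop :=
  ∀ δ : ℝ, 0 < δ → δ ≤ 1 → ∀ P : ℕ → ℕ, (∀ j, (P j).Prime) → Tendsto P atTop atTop →
    BilinearExamplesP ι δ B P ∧ FieldExamplesP ι δ B P ∧ PolynomialExamplesP ι δ B P ∧ SubgroupExamplesP ι δ B P

theorem examplesP (ι : Type) [Fintype ι] (B : ℕ) : ExamplesP ι B := by
  classical
  intro δ hδ hδ1 P hP hP'
  obtain ⟨e⟩ : Nonempty (ι ≃ Fin (Fintype.card ι)) := ⟨Fintype.equivFin ι⟩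
  refine ⟨?_, ?_, ?_, ?_⟩
  · intro a b ρ M E F u v c₀ hc hM hEF Z₀
    obtain ⟨p₀, h2⟩ := vfam_bil (Fintype.card ι) δ hδ hδ1 Z₀
    filter_upwards [hP'.eventually_ge_atTop p₀] with j hj
    have : NeZero (P j) := ⟨(hP j).ne_zero⟩
    obtain ⟨h3, h4⟩ := h2 (P j) (hP j) hj
    have h5 := vfam_reindex e (h4 (a j) (b j) (ρ j) (fun l => M j (e.symm l)) (E j) (F j)
      (fun x l => u j x (e.symm l)) (fun x l => v j x (e.symm l)) (fun α hα => by
        have h6 := hM j (fun l => α (e l)) (fun h0 => hα (by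
          funext l
          have := congrFun h0 (e.symm l)
          simpa using this))
        convert h6 using 2
        exact Fintype.sum_equiv e.symm _ _ fun l => by simp) (hEF j))
    simp only [Equiv.symm_apply_apply] at h5
    exact ⟨P j, this, _, c₀ j, _, h3, h5.1, le_rfl, hc j, h5.2, fun i l => rfl⟩
  · intro K _ _ b E F u w c₀ hc hEF Z₀
    obtain ⟨p₀, h2⟩ := vfam_field (Fintype.card ι) δ hδ hδ1 Z₀
    filter_upwards [hP'.eventually_ge_atTop p₀] with j hj
    have : NeZero (P j) := ⟨(hP j).ne_zero⟩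
    obtain ⟨h3, h4⟩ := h2 (P j) (hP j) hj
    have h5 := vfam_reindex e (h4 (K j) ((b j).reindex e) (E j) (F j) (fun x l => u j x (e.symm l))
      (fun x l => w j x (e.symm l)) (hEF j))
    simp only [Equiv.symm_apply_apply, Module.Basis.repr_reindex_apply] at h5
    exact ⟨P j, this, _, c₀ j, _, h3, h5.1, le_rfl, hc j, h5.2, fun i l => rfl⟩
  · intro k F A u c₀ hc hF hF' hA Z₀
    obtain ⟨p₀, h2⟩ := vfam_prod (Fintype.card ι) δ hδ hδ1 Z₀
    filter_upwards [hP'.eventually_ge_atTop p₀] with j hj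
    have : NeZero (P j) := ⟨(hP j).ne_zero⟩
    obtain ⟨h3, h4⟩ := h2 (P j) (hP j) hj
    have h5 := vfam_reindex e (h4 (k j) (fun l => F j (e.symm l)) (A j) (fun i x l => u j i x (e.symm l))
      (fun l => hF j _) (fun α hα => by
        have h6 := hF' j (fun l => α (e l)) (fun h0 => hα (by
          funext l
          have := congrFun h0 (e.symm l)
          simpa using this))
        convert h6 using 1
        exact Fintype.sum_equiv e.symm _ _ fun l => by simp) (hA j))
    simp only [Equiv.symm_apply_apply] at h5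
    exact ⟨P j, this, _, c₀ j, _, h3, h5.1, le_rfl, hc j, h5.2, fun i l => rfl⟩
  · intro H s F c₀ hc hs hF hF' hH Z₀
    obtain ⟨p₀, h2⟩ := vfam_grp (Fintype.card ι) δ hδ hδ1 Z₀
    filter_upwards [hP'.eventually_ge_atTop p₀] with j hj
    have : NeZero (P j) := ⟨(hP j).ne_zero⟩
    obtain ⟨h3, h4⟩ := h2 (P j) (hP j) hj
    have hs' : s j = univ.filter (· ∈ H j) := by
      ext x
      rw [hs, mem_filter]
      exact ⟨fun h => ⟨mem_univ _, h⟩, fun h => h.2⟩
    have hcard : ((s j).card : ℝ) = Nat.card (H j) := by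
      rw [hs', Nat.card_eq_fintype_card, ← Fintype.card_subtype]
    have h5 := vfam_reindex e (h4 (H j) (fun l => F j (e.symm l)) (fun l => hF j _) (fun α hα => by
        have h6 := hF' j (fun l => α (e l)) (fun h0 => hα (by
          funext l
          have := congrFun h0 (e.symm l)
          simpa using this))
        convert h6 using 2
        exact Fintype.sum_equiv e.symm _ _ fun l => by simp) (by rw [← hcard]; exact hH j))
    simp only [Equiv.symm_apply_apply] at h5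
    rw [← hs'] at h5
    exact ⟨P j, this, _, c₀ j, _, h3, h5.1, le_rfl, hc j, h5.2, fun i l => rfl⟩

end Pool.Agent.U569.APL
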