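import Pool.Agent.U569.APL.Kron
import Pool.Agent.N141.SG.One

set_option autoImplicit false

/-!
# Fat points with multiplicities in flat families
-/

namespace Pool.Agent.U569.APL

open Finset Filter
open Pool.Agent.N141.SG (Ex badU three_lt open_of win_nonneg)

/-- **one number of points, all degrees** -/
theorem flat_ex {ι : Type} [Fintype ι] [DecidableEq ι] {τ : ℕ → Type} {s : ∀ j, Finset (τ j)} {v : ∀ j, τ j → ι → ℤ}
    (h : FlatFamilies s v) (l : ι) {n : ℕ} (hn : 10 ≤ n) {δ : ℝ} (hδ : 0 < δ) : ∀ᶠ j in atTop,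
      ({i : τ j | i ∈ s j ∧ 1 ≤ v j i l ∧ ¬ Ex n (v j i l).toNat}.ncard : ℝ) ≤ (badU n + δ) * (s j).card := by
  classical
  have hs3 := three_lt hn
  by_cases hC : 37 ≤ n ∨ n = 13 ∨ n = 21 ∨ IsSquare n
  · have e : badU n = 0 := by
      unfold badU
      rw [if_pos hC]
    rw [e, zero_add]
    refine flat_none l (bad := fun m => ¬ Ex n m) (fun m hm hbad => ?_) hδ.le
    obtain ⟨d, hd⟩ := open_of hn hm hbad
    exact hd.1 hC
  · have hsq : ¬ IsSquare n := fun h0 => hC (Or.inr (Or.inr (Or.inr h0)))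
    have hirr : Irrational √(n : ℝ) := irrational_sqrt_natCast_iff.2 hsq
    by_cases h11 : n = 11 ∨ n = 15
    · have e : badU n = 0 - (-((√(n : ℝ) - 3) / 6)) := by
        unfold badU
        rw [if_neg hC, if_pos h11]
        ring
      rw [e]
      have hirr3 : Irrational (√(n : ℝ) / 3) := by
        have := hirr.div_natCast (m := 3) (by norm_num)
        simpa using this
      refine flat_count h l hirr3 0 (by linarith) (bad := fun m => ¬ Ex n m) (fun m hm hbad => ?_) hδ
      obtain ⟨d, -, h1, h2, h3⟩ := open_of hn hm hbad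
      obtain ⟨⟨z, rfl⟩, h4, h5⟩ := h3 h11
      push_cast at h4 h5
      refine ⟨z, ?_, ?_⟩
      · push_cast
        linarith
      · push_cast
        linarith
    · obtain ⟨g1, g2⟩ := win_nonneg hn
      have e : badU n = min (√(n : ℝ) - 3) (2 / 3 + 9 / (4 * √(n : ℝ))) / 2 -
          (-(min (√(n : ℝ) - 3) (2 / 3 + 1 / (4 * √(n : ℝ))) / 2)) := by
        unfold badU
        rw [if_neg hC, if_neg h11]
        ring
      rw [e]
      refine flat_count h l hirr ((√(n : ℝ) - 3) / 2) (by linarith) (bad := fun m => ¬ Ex n m) (fun m hm hbad => ?_) hδ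
      obtain ⟨d, -, h1, h2, -⟩ := open_of hn hm hbad
      refine ⟨d, ?_, ?_⟩
      · push_cast
        linarith
      · push_cast
        linarith

end Pool.Agent.U569.APL
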