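import Pool.Agent.U569.APL.Fam
import Pool.Agent.N455.PR.Null

set_option autoImplicit false

/-!
# Hilbert's irreducibility theorem for flat families: one small set of exceptions for all thin sets of all number fields
-/

namespace Pool.Agent.U569.APL

open Polynomial Filter
open Pool.Agent.N666.TM (NullIn Well)
open Pool.Agent.N455.HT
open Pool.Agent.N384.VF (transfer)
open Pool.Agent.TH783.CE (Thin)

section
variable {ι : Type} [Fintype ι] [DecidableEq ι]

/-- the polynomials in the variable number `l` -/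
noncomputable def el (l : ι) : ℤ[X] →+* MvPolynomial ι ℤ := Polynomial.eval₂RingHom (Int.castRingHom _) (MvPolynomial.X l)

/-- the other variables are put to `0` -/
noncomputable def pl (l : ι) : MvPolynomial ι ℤ →+* ℤ[X] :=
  MvPolynomial.eval₂Hom (Int.castRingHom _) (fun i => if i = l then X else 0)

omit [Fintype ι] in
theorem pl_el (l : ι) : (pl l).comp (el l) = RingHom.id _ := by
  refine Polynomial.ringHom_ext (fun n => ?_) ?_
  · have : ((pl l).comp (el l)).comp C = (RingHom.id ℤ[X]).comp C := RingHom.ext_int _ _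
    exact RingHom.congr_fun this n
  · rw [RingHom.comp_apply, el, Polynomial.coe_eval₂RingHom, Polynomial.eval₂_X, pl, MvPolynomial.eval₂Hom_X', if_pos rfl,
      RingHom.id_apply]

omit [Fintype ι] [DecidableEq ι] in
theorem ev_el (l : ι) (c : ι → ℤ) : (ev c).comp (el l) = evalRingHom (c l) := by
  refine Polynomial.ringHom_ext (fun n => ?_) ?_
  · have : ((ev c).comp (el l)).comp C = (evalRingHom (c l)).comp C := RingHom.ext_int _ _
    exact RingHom.congr_fun this n
  · rw [RingHom.comp_apply, el, Polynomial.coe_eval₂RingHom, Polynomial.eval₂_X, ev_X]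
    simp

theorem hit_coord {S : ℕ → Finset ℕ} {x : ℕ → ι → ℤ} (hw : WS S x) (l : ι)
    (F : ℤ[X][X]) (hF : F.Monic) (hroot : ∀ g, F.eval g ≠ 0) :
    NullIn S {n | ∃ a : ℤ, (F.map (evalRingHom (x n l))).eval a = 0} := by
  have h := hit_monic hw _ (F.map (el l)) rfl (hF.map _) (by
    intro a ha
    refine hroot (pl l a) ?_
    have h1 := congrArg (pl l) ha
    rw [eval_map, hom_eval₂, pl_el, map_zero] at h1
    exact h1)
  refine NullIn.mono' h ?_
  rintro n ⟨a, ha⟩
  refine ⟨a, ?_⟩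
  unfold IsRt
  rw [Polynomial.map_map, ev_el]
  exact ha

theorem rat_coord {S : ℕ → Finset ℕ} {x : ℕ → ι → ℤ} (hw : WS S x) (l : ι)
    (f : ℚ[X][X]) (hf : f.Monic) (hroot : ∀ g, f.eval g ≠ 0) :
    NullIn S {n | ∃ y : ℚ, f.evalEval ((x n l : ℤ) : ℚ) y = 0} := by
  obtain ⟨F, hF, hFr, h⟩ := Pool.Agent.N455.PR.rat_to_int f hf hroot
  refine NullIn.mono' (hit_coord hw l F hF hFr) ?_
  rintro n ⟨y, hy⟩
  exact h (x n l) y hy

theorem val_coord {S : ℕ → Finset ℕ} {x : ℕ → ι → ℤ} (hw : WS S x) (l : ι) (m : ℤ) :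
    NullIn S {n | x n l = m} := by
  have h := zero_null hw (t := (MvPolynomial.X l - MvPolynomial.C m : MvPolynomial ι ℤ)) (by
    intro h0
    have := congrArg (MvPolynomial.eval fun _ => m + 1) h0
    simp at this)
  refine NullIn.mono' h ?_
  intro n hn
  have hn' : x n l = m := hn
  show ev (x n) (MvPolynomial.X l - MvPolynomial.C m) = 0
  rw [map_sub, ev_X, hn']
  unfold ev
  simp

/-- a property which almost never holds in well distributed sequences almost never holds in flat families -/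
theorem flat_of_ws {τ : ℕ → Type} {s : ∀ j, Finset (τ j)} {v : ∀ j, τ j → ι → ℤ} (hs : FlatFamilies s v)
    (R : (ι → ℤ) → Prop) (h : ∀ (S : ℕ → Finset ℕ) (x : ℕ → ι → ℤ), WS S x → NullIn S {n | R (x n)})
    (ε : ℝ) (hε : 0 < ε) :
    ∀ᶠ j in atTop, ({i : τ j | i ∈ s j ∧ R (v j i)}.ncard : ℝ) ≤ ε * (s j).card := by
  obtain ⟨Z₀, h1⟩ := transfer (ι := ι) (fun _ v => ¬ R v) ε hε fun S x κ hκ hw => by
    obtain ⟨N₀, h2⟩ := h S x (WS.of_power ⟨κ, hκ, hw⟩) ε hε
    refine ⟨N₀, fun N hN => ?_⟩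
    have h3 := h2 N hN
    simp only [not_not]
    exact h3
  filter_upwards [hs (Z₀ : ℝ)] with j hj
  obtain ⟨m, hm, y, c₀, Z, g1, g2, g3, g4⟩ := hj
  have h2 := h1 (τ j) m (s j) y Z g1 ⟨g2, g3⟩ c₀
  have h3 : v j = fun i l => c₀ l + ((y i l).val : ℕ) := by
    funext i l
    exact g4 i l
  rw [h3]
  simpa only [not_not] using h2

/-- **One small set of exceptions for all thin sets of all number fields.** -/
theorem flat_thin {τ : ℕ → Type} {s : ∀ j, Finset (τ j)} {v : ∀ j, τ j → ι → ℤ} (hs : FlatFamilies s v) :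
    ∃ E : ∀ j, Finset (τ j), Small s E ∧ ∀ (l : ι) (K : Type) [Field K] [NumberField K] (D : Set K), Thin D →
      Outside s E v fun c => ((c l : ℤ) : K) ∉ D := by
  classical
  let bad : ι × (ℚ[X][X] ⊕ ℤ) → (ι → ℤ) → Prop := fun q c => Sum.elim
    (fun f : ℚ[X][X] => (f.Monic ∧ ∀ g, f.eval g ≠ 0) ∧ ∃ x : ℚ, f.evalEval ((c q.1 : ℤ) : ℚ) x = 0)
    (fun m : ℤ => c q.1 = m) q.2
  have hc1 : Countable ℚ[X] := by
    rw [← Cardinal.mk_le_aleph0_iff]
    exact Polynomial.cardinalMk_le_max.trans (by simp)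
  have hc2 : Countable ℚ[X][X] := by
    rw [← Cardinal.mk_le_aleph0_iff]
    exact Polynomial.cardinalMk_le_max.trans (by simp)
  obtain ⟨E, h1, h2, h3⟩ := diag_fam s (fun φ j i => bad φ (v j i)) fun φ ε hε => by
    refine flat_of_ws hs (bad φ) (fun S x hw => ?_) ε hε
    obtain ⟨l, f | m⟩ := φ
    · by_cases hf : f.Monic ∧ ∀ g, f.eval g ≠ 0
      · exact NullIn.mono' (rat_coord hw l f hf.1 hf.2) fun n hn => hn.2
      · exact NullIn.mono' NullIn.empty' fun n hn => absurd hn.1 hf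
    · exact val_coord hw l m
  refine ⟨E, ⟨h1, h2⟩, fun l K _ _ D hD => ?_⟩
  obtain ⟨A, hA, G, hG, hroot, hcov⟩ := hD
  obtain ⟨H, hH, hHr, F, hF, hF'⟩ := Pool.Agent.N455.PR.nf_to_rat K G hG hroot
  have hA' : {m : ℤ | (m : K) ∈ A}.Finite := hA.preimage Int.cast_injective.injOn
  have hfin : ∀ᶠ j in atTop, ∀ m ∈ {m : ℤ | (m : K) ∈ A} ∪ F, ∀ i ∈ s j, i ∉ E j → ¬ bad (l, Sum.inr m) (v j i) :=
    (Filter.eventually_all_finite (hA'.union hF)).2 fun m _ => h3 (l, Sum.inr m)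
  filter_upwards [hfin, h3 (l, Sum.inl H)] with j k1 k2 i hi hi2 hD'
  rcases hcov _ hD' with h | ⟨x, hx⟩
  · exact k1 (v j i l) (Or.inl h) i hi hi2 rfl
  · rcases hF' (v j i l) x hx with h | ⟨y, hy⟩
    · exact k1 (v j i l) (Or.inr h) i hi hi2 rfl
    · exact k2 i hi hi2 ⟨⟨hH, hHr⟩, y, hy⟩

end

end Pool.Agent.U569.APL
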