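import Pool.Agent.U569.APL.Null

set_option autoImplicit false

/-! # Residue classes are visited with positive frequency by flat families -/

namespace Pool.Agent.U569.APL

open Filter
open Pool.Agent.N666.TM (dens)
open Pool.Agent.Y722.HS (red)

/-- every residue class modulo `q` contains at least the fraction `1 / (2 q ^ R)` of the members -/
theorem flat_class {ι : Type} [Fintype ι] [DecidableEq ι] {τ : ℕ → Type} {s : ∀ j, Finset (τ j)}
    {v : ∀ j, τ j → ι → ℤ} (hs : FlatFamilies s v) (q : ℕ) (hq : 1 ≤ q) (g : ι → ℤ) :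
    ∀ᶠ j in atTop, 1 / (2 * (q : ℝ) ^ Fintype.card ι) * (s j).card ≤
      ({i : τ j | i ∈ s j ∧ ∀ l, (q : ℤ) ∣ v j i l - g l}.ncard : ℝ) := by
  classical
  have : NeZero q := ⟨by omega⟩
  have hq0 : (0 : ℝ) < (q : ℝ) ^ Fintype.card ι := by positivity
  have hd : dens ({red q g}ᶜ : Set (ι → ZMod q)) = 1 - 1 / (q : ℝ) ^ Fintype.card ι := by
    have h1 := Set.ncard_add_ncard_compl ({red q g} : Set (ι → ZMod q))
    rw [Set.ncard_singleton, Nat.card_eq_fintype_card, Fintype.card_fun, ZMod.card] at h1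
    unfold dens
    rw [eq_sub_iff_add_eq, ← add_div, div_eq_one_iff_eq hq0.ne']
    have h2 : ((1 + ({red q g}ᶜ : Set (ι → ZMod q)).ncard : ℕ) : ℝ) = ((q ^ Fintype.card ι : ℕ) : ℝ) := by rw [h1]
    push_cast at h2
    linarith
  filter_upwards [flat_freq hs q hq ({red q g}ᶜ) (1 / (2 * (q : ℝ) ^ Fintype.card ι)) (by positivity)] with j hj
  rw [hd] at hj
  have e1 : {i : τ j | i ∈ s j ∧ red q (v j i) ∈ ({red q g}ᶜ : Set (ι → ZMod q))} =
      ((s j).filter fun i => red q (v j i) ≠ red q g : Finset (τ j)) := by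
    ext i; simp
  have e2 : {i : τ j | i ∈ s j ∧ ∀ l, (q : ℤ) ∣ v j i l - g l} =
      ((s j).filter fun i => red q (v j i) = red q g : Finset (τ j)) := by
    ext i
    simp only [Set.mem_ofPred_eq, Finset.coe_filter]
    refine and_congr_right fun _ => ?_
    rw [funext_iff]
    refine forall_congr' fun l => ?_
    unfold red
    rw [eq_comm, ZMod.intCast_eq_intCast_iff_dvd_sub]
  rw [e1, Set.ncard_coe_finset] at hj
  rw [e2, Set.ncard_coe_finset]
  have h3 : (((s j).filter fun i => red q (v j i) = red q g).card : ℝ) +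
      ((s j).filter fun i => red q (v j i) ≠ red q g).card = (s j).card := by
    exact_mod_cast Finset.card_filter_add_card_filter_not (s := s j) (fun i => red q (v j i) = red q g)
  have h4 : 1 / (q : ℝ) ^ Fintype.card ι = 2 * (1 / (2 * (q : ℝ) ^ Fintype.card ι)) := by field_simp
  rw [h4] at hj
  nlinarith [(Nat.cast_nonneg (s j).card : (0 : ℝ) ≤ (s j).card)]

end Pool.Agent.U569.APL
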