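import Pool.Agent.U569.APL.Sum

set_option autoImplicit false

/-! # Exponential sums over polynomials in several variables modulo `p` on product sets

The same as `Pool.Agent.U569.APS.Bias`, with fewer imports. -/

namespace Pool.Agent.U569.APL

open Finset

variable {p : ℕ} [Fact p.Prime] {k : ℕ}

/-- `G` as a polynomial in the variable `j`, the other variables having the values `x i` -/
noncomputable def sl (j : Fin k) (x : Fin k → ZMod p) (G : MvPolynomial (Fin k) (ZMod p)) :
    Polynomial (ZMod p) :=
  MvPolynomial.aeval (fun i => if i = j then Polynomial.X else Polynomial.C (x i)) G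

lemma sl_eval (j : Fin k) (x : Fin k → ZMod p) (G : MvPolynomial (Fin k) (ZMod p)) (y : ZMod p) :
    (sl j x G).eval y = MvPolynomial.eval (Function.update x j y) G := by
  unfold sl
  induction G using MvPolynomial.induction_on with
  | C a => simp
  | add f g hf hg => simp only [map_add, Polynomial.eval_add, hf, hg]
  | mul_X f i hf =>
    rw [map_mul, Polynomial.eval_mul, hf, map_mul, MvPolynomial.aeval_X, MvPolynomial.eval_X]
    congr 1
    by_cases h : i = j
    · subst h; simp
    · simp [h, Function.update_of_ne h]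

lemma sl_deg (j : Fin k) (x : Fin k → ZMod p) (G : MvPolynomial (Fin k) (ZMod p)) :
    (sl j x G).natDegree ≤ G.totalDegree := by
  unfold sl
  have h := MvPolynomial.aeval_natDegree_le G (m := G.totalDegree) le_rfl
    (fun i => if i = j then (Polynomial.X : Polynomial (ZMod p)) else Polynomial.C (x i)) (n := 1)
    (fun i => by
      by_cases h : i = j
      · simp [h]
      · simp [h])
  rwa [mul_one] at h

/-- the coefficient of the power `e` of the variable `j`, as a polynomial -/
noncomputable def Q (j : Fin k) (e : ℕ) (G : MvPolynomial (Fin k) (ZMod p)) :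
    MvPolynomial (Fin k) (ZMod p) :=
  ∑ s ∈ G.support.filter (fun s => s j = e), MvPolynomial.monomial (s.erase j) (G.coeff s)

lemma sl_coeff (j : Fin k) (x : Fin k → ZMod p) (G : MvPolynomial (Fin k) (ZMod p)) (e : ℕ) :
    (sl j x G).coeff e = MvPolynomial.eval x (Q j e G) := by
  classical
  unfold sl Q
  rw [MvPolynomial.aeval_def, MvPolynomial.eval₂_eq', Polynomial.finsetSum_coeff, map_sum, sum_filter]
  refine sum_congr rfl fun s _ => ?_
  have h1 : ∏ i, (if i = j then (Polynomial.X : Polynomial (ZMod p)) else Polynomial.C (x i)) ^ s i =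
      Polynomial.C (∏ i ∈ univ.erase j, x i ^ s i) * Polynomial.X ^ s j := by
    rw [← mul_prod_erase univ _ (mem_univ j), if_pos rfl, mul_comm]
    congr 1
    rw [map_prod]
    refine prod_congr rfl fun i hi => ?_
    rw [if_neg (ne_of_mem_erase hi), map_pow]
  have h2 : MvPolynomial.eval x (MvPolynomial.monomial (s.erase j) (G.coeff s)) =
      G.coeff s * ∏ i ∈ univ.erase j, x i ^ s i := by
    rw [MvPolynomial.eval_monomial, Finsupp.prod_fintype _ _ (fun i => pow_zero _),
      ← mul_prod_erase univ _ (mem_univ j), Finsupp.erase_same, pow_zero, one_mul]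
    congr 1
    refine prod_congr rfl fun i hi => ?_
    rw [Finsupp.erase_ne (ne_of_mem_erase hi)]
  rw [h1, h2, ← mul_assoc, Polynomial.algebraMap_eq, ← Polynomial.C_mul, Polynomial.coeff_C_mul_X_pow]
  by_cases h : s j = e
  · simp [h]
  · simp [h, Ne.symm h]

lemma Q_coeff (j : Fin k) (G : MvPolynomial (Fin k) (ZMod p)) (m : Fin k →₀ ℕ) (hm : m ∈ G.support) :
    (Q j (m j) G).coeff (m.erase j) = G.coeff m := by
  classical
  unfold Q
  rw [MvPolynomial.coeff_sum, sum_eq_single m]
  · rw [MvPolynomial.coeff_monomial, if_pos rfl]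
  · intro s hs hsm
    rw [MvPolynomial.coeff_monomial, if_neg]
    intro h
    apply hsm
    ext i
    by_cases hi : i = j
    · rw [hi]; exact (mem_filter.1 hs).2
    · have := DFunLike.congr_fun h i
      rwa [Finsupp.erase_ne hi, Finsupp.erase_ne hi] at this
  · intro h
    exact (h (by rw [mem_filter]; exact ⟨hm, rfl⟩)).elim

lemma Q_supp (j : Fin k) (e : ℕ) (G : MvPolynomial (Fin k) (ZMod p)) (s : Fin k →₀ ℕ)
    (hs : s ∈ (Q j e G).support) : s j = 0 ∧ ∑ i, s i ≤ G.totalDegree := by
  classical
  unfold Q at hs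
  have h1 := MvPolynomial.support_sum hs
  rw [mem_biUnion] at h1
  obtain ⟨t, ht, hst⟩ := h1
  have h2 := MvPolynomial.support_monomial_subset hst
  rw [mem_singleton] at h2
  subst h2
  refine ⟨Finsupp.erase_same, ?_⟩
  have h3 := MvPolynomial.le_totalDegree (mem_filter.1 ht).1
  rw [Finsupp.sum_fintype _ _ (fun _ => rfl)] at h3
  refine le_trans (sum_le_sum fun i _ => ?_) h3
  by_cases hi : i = j
  · rw [hi, Finsupp.erase_same]; exact Nat.zero_le _
  · rw [Finsupp.erase_ne hi]

/-- few points of a product set have a given value of a nonconstant coefficient -/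
lemma few (j : Fin k) (G : MvPolynomial (Fin k) (ZMod p)) (m : Fin k →₀ ℕ) (hm : m ∈ G.support)
    (i : Fin k) (hij : i ≠ j) (hmi : m i ≠ 0) (B : Fin k → Finset (ZMod p)) (D : ℕ)
    (hD : G.totalDegree ≤ D) (m0 : ℝ) (hm0 : 0 < m0) (hB : ∀ i, i ≠ j → m0 ≤ (B i).card)
    (hBj : (B j).Nonempty) (c : ZMod p) :
    (((Fintype.piFinset B).filter (fun x => MvPolynomial.eval x (Q j (m j) G) = c)).card : ℝ) ≤
      D / m0 * ∏ i, ((B i).card : ℝ) := by
  classical
  have hBne : ∀ l, (0 : ℝ) < (B l).card := by
    intro l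
    by_cases h : l = j
    · rw [h]; exact_mod_cast hBj.card_pos
    · exact lt_of_lt_of_le hm0 (hB l h)
  set R : MvPolynomial (Fin k) (ZMod p) := Q j (m j) G - MvPolynomial.C c with hR
  have hne0 : m.erase j ≠ 0 := by
    intro h
    have := DFunLike.congr_fun h i
    rw [Finsupp.erase_ne hij] at this
    exact hmi this
  have hRne : R ≠ 0 := by
    intro h
    have h1 : R.coeff (m.erase j) = 0 := by rw [h]; simp
    rw [hR, MvPolynomial.coeff_sub, Q_coeff j G m hm, MvPolynomial.coeff_C, if_neg (Ne.symm hne0),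
      sub_zero] at h1
    exact (MvPolynomial.mem_support_iff.1 hm) h1
  have hsz := MvPolynomial.schwartz_zippel_sup_sum hRne B
  have hfil : (Fintype.piFinset B).filter (fun x => MvPolynomial.eval x R = 0) =
      (Fintype.piFinset B).filter (fun x => MvPolynomial.eval x (Q j (m j) G) = c) := by
    apply filter_congr
    intro x _
    rw [hR, map_sub, MvPolynomial.eval_C, sub_eq_zero]
  rw [hfil] at hsz
  set n0 : ℕ := ((Fintype.piFinset B).filter (fun x => MvPolynomial.eval x (Q j (m j) G) = c)).card
  have hsup : (R.support.sup fun s ↦ ∑ i, (s i / (B i).card : ℚ≥0) : ℚ≥0) ≤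
      (R.support.sup fun s ↦ ∑ i, (s i / (B i).card : ℚ≥0) : ℚ≥0) := le_rfl
  have key : ∀ s ∈ R.support, ((∑ i, (s i / (B i).card : ℚ≥0) : ℚ≥0) : ℝ) ≤ D / m0 := by
    intro s hs
    push_cast
    have hs' : s j = 0 ∧ ∑ i, s i ≤ G.totalDegree := by
      by_cases h0 : s = 0
      · subst h0; simp
      · apply Q_supp j (m j) G s
        rw [MvPolynomial.mem_support_iff] at hs ⊢
        rwa [hR, MvPolynomial.coeff_sub, MvPolynomial.coeff_C, if_neg (Ne.symm h0), sub_zero] at hs
    calc ∑ i, ((s i : ℝ) / ((B i).card : ℝ)) ≤ ∑ i, (s i : ℝ) / m0 := by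
          refine sum_le_sum fun l _ => ?_
          by_cases h : l = j
          · rw [h, hs'.1]; simp
          · exact div_le_div_of_nonneg_left (Nat.cast_nonneg _) hm0 (hB l h)
      _ = (∑ i, (s i : ℝ)) / m0 := by rw [sum_div]
      _ ≤ D / m0 := by
          apply div_le_div_of_nonneg_right _ hm0.le
          exact_mod_cast hs'.2.trans hD
  have hsup2 : (((R.support.sup fun s ↦ ∑ i, (s i / (B i).card : ℚ≥0)) : ℚ≥0) : ℝ) ≤ D / m0 := by
    have hsn : R.support.Nonempty := by
      rw [MvPolynomial.support_nonempty]; exact hRne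
    obtain ⟨s, hs, hse⟩ := exists_mem_eq_sup R.support hsn
      (fun s ↦ ∑ i, (s i / (B i).card : ℚ≥0))
    rw [hse]
    exact key s hs
  have h5 : ((n0 : ℝ)) / ∏ i, ((B i).card : ℝ) ≤ D / m0 := by
    refine le_trans ?_ hsup2
    have : ((n0 / ∏ i, ((B i).card : ℚ≥0) : ℚ≥0) : ℝ) ≤
        (((R.support.sup fun s ↦ ∑ i, (s i / (B i).card : ℚ≥0)) : ℚ≥0) : ℝ) := by
      exact_mod_cast hsz
    refine le_trans (le_of_eq ?_) this
    push_cast
    rfl
  rwa [div_le_iff₀ (prod_pos fun l _ => hBne l)] at h5

/-- the exponential sums of a polynomial on a product set, up to functions of one variable -/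
theorem bias_prod {r : ℕ} (A : Fin k → Finset (ZMod p)) (F : Fin r → MvPolynomial (Fin k) (ZMod p))
    (D : ℕ) (hD : ∀ l, (F l).totalDegree ≤ D) (hDp : D < p) (u : Fin k → ZMod p → Fin r → ZMod p)
    (α : Fin r → ZMod p)
    (h : ∃ m ∈ (∑ l, MvPolynomial.C (α l) * F l).support, ∃ i j, i ≠ j ∧ m i ≠ 0 ∧ m j ≠ 0)
    (m0 : ℝ) (hm0 : 0 < m0) (hA : ∀ i, m0 ≤ (A i).card) :
    ‖∑ a ∈ Fintype.piFinset A, (ZMod.stdAddChar
        (∑ l, α l * (MvPolynomial.eval a (F l) + ∑ i, u i (a i) l)) : ℂ)‖ ^ 2 ≤
      ((Fintype.piFinset A).card : ℝ) ^ 2 * (D * (p / m0 + Real.sqrt p) / m0) := by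
  classical
  obtain ⟨m, hm, i, j, hij, hmi, hmj⟩ := h
  set G : MvPolynomial (Fin k) (ZMod p) := ∑ l, MvPolynomial.C (α l) * F l with hG
  set B : Fin k → Finset (ZMod p) := Function.update A j {0} with hB
  have hBj : B j = {0} := by rw [hB, Function.update_self]
  have hBi : ∀ l, l ≠ j → B l = A l := fun l hl => by rw [hB, Function.update_of_ne hl]
  set X := Fintype.piFinset B with hX
  set Y := A j with hY
  have hGD : G.totalDegree ≤ D := by
    rw [hG]
    refine MvPolynomial.totalDegree_finsetSum_le fun l _ => ?_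
    refine (MvPolynomial.totalDegree_mul _ _).trans ?_
    rw [MvPolynomial.totalDegree_C, zero_add]
    exact hD l
  -- the sum in the form of two blocks
  have hsum : ∑ a ∈ Fintype.piFinset A, (ZMod.stdAddChar
        (∑ l, α l * (MvPolynomial.eval a (F l) + ∑ i, u i (a i) l)) : ℂ) =
      ∑ z ∈ X ×ˢ Y, (ZMod.stdAddChar
        (∑ l, α l * ((sl j z.1 (F l)).eval z.2 +
          (∑ i ∈ univ.erase j, u i (z.1 i) l) + u j z.2 l)) : ℂ) := by
    symm
    refine sum_bij' (fun z _ => Function.update z.1 j z.2) (fun a _ => (Function.update a j 0, a j))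
      ?_ ?_ ?_ ?_ ?_
    · intro z hz
      rw [mem_product, hX, Fintype.mem_piFinset] at hz
      rw [Fintype.mem_piFinset]
      intro l
      by_cases hl : l = j
      · rw [hl, Function.update_self]; exact hz.2
      · rw [Function.update_of_ne hl, ← hBi l hl]; exact hz.1 l
    · intro a ha
      rw [Fintype.mem_piFinset] at ha
      rw [mem_product, hX, Fintype.mem_piFinset]
      refine ⟨fun l => ?_, ha j⟩
      by_cases hl : l = j
      · rw [hl, hBj]; simp
      · simp only [Function.update_of_ne hl]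
        rw [hBi l hl]; exact ha l
    · intro z hz
      rw [mem_product, hX, Fintype.mem_piFinset] at hz
      have h0 : z.1 j = 0 := by
        have := hz.1 j
        rwa [hBj, mem_singleton] at this
      ext1
      · simp only [Function.update_idem]
        rw [← h0, Function.update_eq_self]
      · simp
    · intro a ha
      simp
    · intro z hz
      congr 1
      refine sum_congr rfl fun l _ => ?_
      rw [sl_eval, ← add_sum_erase univ _ (mem_univ j), Function.update_self]
      congr 1
      have : ∑ i ∈ univ.erase j, u i (Function.update z.1 j z.2 i) l =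
          ∑ i ∈ univ.erase j, u i (z.1 i) l :=
        sum_congr rfl fun i hi => by rw [Function.update_of_ne (ne_of_mem_erase hi)]
      rw [this]
      ring
  have hb := bias_poly_sq X r D (fun x l => sl j x (F l))
    (fun x _ l => (sl_deg j x (F l)).trans (hD l)) hDp
    (fun x l => ∑ i ∈ univ.erase j, u i (x i) l) Y (fun y l => u j y l) α
  rw [hsum]
  refine hb.trans ?_
  -- degenerate pairs
  have hXc : (X.card : ℝ) * Y.card = ((Fintype.piFinset A).card : ℝ) := by
    rw [hX, Fintype.card_piFinset, Fintype.card_piFinset, ← mul_prod_erase univ _ (mem_univ j),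
      ← mul_prod_erase univ (fun l => (A l).card) (mem_univ j), hBj, card_singleton, one_mul,
      prod_congr rfl fun l hl => by rw [hBi l (ne_of_mem_erase hl)]]
    push_cast
    ring
  have hXp : (X.card : ℝ) = ∏ i, ((B i).card : ℝ) := by
    rw [hX, Fintype.card_piFinset]; push_cast; rfl
  have hN : (((X ×ˢ X).filter (fun q => (∑ l, Polynomial.C (α l) *
      ((fun x l => sl j x (F l)) q.1 l - (fun x l => sl j x (F l)) q.2 l)).natDegree = 0)).card : ℝ) ≤
      (X.card : ℝ) * (D / m0 * X.card) := by
    have h1 : (X ×ˢ X).filter (fun q => (∑ l, Polynomial.C (α l) *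
        ((fun x l => sl j x (F l)) q.1 l - (fun x l => sl j x (F l)) q.2 l)).natDegree = 0) ⊆
        (X ×ˢ X).filter (fun q => MvPolynomial.eval q.1 (Q j (m j) G) =
          MvPolynomial.eval q.2 (Q j (m j) G)) := by
      intro q hq
      rw [mem_filter] at hq ⊢
      refine ⟨hq.1, ?_⟩
      rw [← sl_coeff, ← sl_coeff, ← sub_eq_zero, ← Polynomial.coeff_sub]
      have h2 : sl j q.1 G - sl j q.2 G = ∑ l, Polynomial.C (α l) *
          (sl j q.1 (F l) - sl j q.2 (F l)) := by
        rw [hG]
        unfold sl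
        rw [map_sum, map_sum, ← sum_sub_distrib]
        refine sum_congr rfl fun l _ => ?_
        rw [map_mul, map_mul, MvPolynomial.aeval_C, mul_sub]
        simp
      rw [h2]
      exact Polynomial.coeff_eq_zero_of_natDegree_lt (by rw [hq.2]; omega)
    have h3 : (((X ×ˢ X).filter (fun q => MvPolynomial.eval q.1 (Q j (m j) G) =
          MvPolynomial.eval q.2 (Q j (m j) G))).card : ℝ) =
        ∑ x' ∈ X, ((X.filter (fun x => MvPolynomial.eval x (Q j (m j) G) =
          MvPolynomial.eval x' (Q j (m j) G))).card : ℝ) := by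
      rw [card_filter, sum_product_right]
      push_cast
      refine sum_congr rfl fun x' _ => ?_
      rw [card_filter]
      push_cast
      rfl
    calc _ ≤ (((X ×ˢ X).filter (fun q => MvPolynomial.eval q.1 (Q j (m j) G) =
          MvPolynomial.eval q.2 (Q j (m j) G))).card : ℝ) := by
          exact_mod_cast card_le_card h1
      _ = _ := h3
      _ ≤ ∑ x' ∈ X, (D / m0 * X.card) := by
          refine sum_le_sum fun x' _ => ?_
          rw [hXp]
          exact few j G m hm i hij hmi B D hGD m0 hm0
            (fun l hl => by rw [hBi l hl]; exact hA l) (by rw [hBj]; simp) _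
      _ = _ := by rw [sum_const, nsmul_eq_mul]
  have hYm : m0 ≤ Y.card := hA j
  have hYp : (0 : ℝ) < Y.card := lt_of_lt_of_le hm0 hYm
  rw [← hXc]
  calc (Y.card : ℝ) * (_ * p + (X.card : ℝ) ^ 2 * (D * Real.sqrt p)) ≤
      Y.card * ((X.card : ℝ) * (D / m0 * X.card) * p + (X.card : ℝ) ^ 2 * (D * Real.sqrt p)) := by
        apply mul_le_mul_of_nonneg_left _ hYp.le
        gcongr
    _ = (X.card : ℝ) ^ 2 * Y.card * (D * (p / m0 + Real.sqrt p)) := by
        field_simp
    _ ≤ (X.card : ℝ) ^ 2 * Y.card * (D * (p / m0 + Real.sqrt p)) * (Y.card / m0) := by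
        have h1 : 1 ≤ (Y.card : ℝ) / m0 := by rw [le_div_iff₀ hm0]; linarith
        exact le_mul_of_one_le_right (by positivity) h1
    _ = _ := by
        field_simp

end Pool.Agent.U569.APL
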