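import Pool.Agent.N384.VF.Big5
import Pool.Agent.U569.APL.FamP

set_option autoImplicit false

/-! # One large prime divisor of the values of a polynomial at flat families of vectors of polynomial size -/

namespace Pool.Agent.U569.APL

open Finset Filter MvPolynomial
open Pool.Agent.N384.VF (big0 val_le ncard_mono VFam)
open Pool.Agent.N141.TS (MeanSet MeanPoles ZP Big5 eval_red)

/-- as `Pool.Agent.N384.VF.big5`, with the size of the prime divisor and of the values in terms of `q` -/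
theorem big_q {r : ℕ} {A D : MvPolynomial (Fin r) ℤ} (hD : D ≠ 0) (hM : MeanPoles A D) (ε β : ℝ) (B : ℕ) (hε : 0 < ε)
    (hβ : 0 < β) : ∃ (θ : ℝ) (m : ℕ), 0 < θ ∧ ∃ Z₀ : ℕ, ∀ (τ : Type) (q : ℕ) [NeZero q] (s : Finset τ)
      (y : τ → Fin r → ZMod q) (Z : ℝ), Z₀ ≤ Z → (q : ℝ) ^ β ≤ Z → VFam q s y Z → ∀ c₀ : Fin r → ℤ,
      (∀ j, |(c₀ j : ℝ)| ≤ (q : ℝ) ^ B) →
      ({i : τ | i ∈ s ∧ ¬ (eval (fun j => c₀ j + ((y i j).val : ℕ)) D ≠ 0 ∧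
        (∃ p : ℕ, p.Prime ∧ 5 ≤ p ∧ (q : ℝ) ^ θ ≤ p ∧ (p : ℤ) ∣ eval (fun j => c₀ j + ((y i j).val : ℕ)) D ∧
          ¬ (p : ℤ) ∣ eval (fun j => c₀ j + ((y i j).val : ℕ)) A) ∧
        |((eval (fun j => c₀ j + ((y i j).val : ℕ)) A : ℤ) : ℝ)| ≤ (q : ℝ) ^ (m + 1) ∧
        |((eval (fun j => c₀ j + ((y i j).val : ℕ)) D : ℤ) : ℝ)| ≤ (q : ℝ) ^ (m + 1))}.ncard : ℝ) ≤ ε * s.card := by
  classical
  obtain ⟨θ, hθ, Z₁, h1⟩ := big0 hD (Ω := ZP A D) hM ε hε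
  obtain ⟨CA, mA, hCA, hA⟩ := val_le A B
  obtain ⟨CD, mD, hCD, hDg⟩ := val_le D B
  obtain ⟨C, hC⟩ : ∃ C, C = max CA CD := ⟨_, rfl⟩
  obtain ⟨m, hm⟩ : ∃ m, m = max mA mD := ⟨_, rfl⟩
  obtain ⟨A₁, hA₁⟩ := exists_nat_ge ((5 : ℝ) ^ (1 / θ))
  obtain ⟨A₂, hA₂⟩ := exists_nat_ge C
  refine ⟨θ * β, m, by positivity, Z₁ + A₁ + A₂ + 1, fun τ q _ s y Z hZ hqZ hv c₀ hc₀ => ?_⟩
  have hZ' : (Z₁ : ℝ) + A₁ + A₂ + 1 ≤ Z := by exact_mod_cast hZ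
  have hn1 : (0 : ℝ) ≤ Z₁ := Nat.cast_nonneg _
  have hn2 : (0 : ℝ) ≤ A₁ := Nat.cast_nonneg _
  have hn3 : (0 : ℝ) ≤ A₂ := Nat.cast_nonneg _
  have hZ1 : 1 ≤ Z := by linarith
  have hq1 : (1 : ℝ) ≤ q := by linarith [hv.le]
  have hq0 : (0 : ℝ) < q := by linarith
  have h5Z : (5 : ℝ) ≤ Z ^ θ := by
    calc (5 : ℝ) = ((5 : ℝ) ^ (1 / θ)) ^ θ := by
          rw [← Real.rpow_mul (by norm_num), one_div_mul_cancel hθ.ne', Real.rpow_one]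
      _ ≤ Z ^ θ := Real.rpow_le_rpow (by positivity) (by linarith) hθ.le
  have hCq : C ≤ q := by linarith [hv.le]
  refine le_trans (ncard_mono fun i _ hbad => ?_) (h1 τ q s y Z (by linarith) hv c₀)
  rintro ⟨hc2, p, hp3, hpN, hpZ⟩
  have h5p : 5 ≤ p := by exact_mod_cast h5Z.trans hpN
  have hpZ' : aeval (fun j => ((c₀ j + ((y i j).val : ℕ) : ℤ) : ZMod p)) D = 0 ∧
      aeval (fun j => ((c₀ j + ((y i j).val : ℕ) : ℤ) : ZMod p)) A ≠ 0 := hpZ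
  rw [eval_red, eval_red, ZMod.intCast_zmod_eq_zero_iff_dvd, Ne, ZMod.intCast_zmod_eq_zero_iff_dvd] at hpZ'
  apply hbad
  have hC1 : 1 ≤ C := by rw [hC]; exact hCA.trans (le_max_left _ _)
  have hsz : ∀ (C' : ℝ) (m' : ℕ) (x : ℝ), C' ≤ C → m' ≤ m → 1 ≤ C' → x ≤ C' * (q : ℝ) ^ m' → x ≤ (q : ℝ) ^ (m + 1) := by
    intro C' m' x h1 h2 h3 h4
    calc x ≤ C' * (q : ℝ) ^ m' := h4
      _ ≤ q * (q : ℝ) ^ m := mul_le_mul (h1.trans hCq) (pow_le_pow_right₀ hq1 h2) (by positivity) hq0.le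
      _ = _ := by ring
  refine ⟨hc2, ⟨p, hp3, h5p, ?_, hpZ'.1, hpZ'.2⟩, ?_, ?_⟩
  · refine le_trans ?_ hpN
    rw [mul_comm θ β, Real.rpow_mul hq0.le]
    exact Real.rpow_le_rpow (by positivity) hqZ hθ.le
  · exact hsz CA mA _ (by rw [hC]; exact le_max_left _ _) (by rw [hm]; exact le_max_left _ _) hCA (hA q (y i) c₀ hc₀)
  · exact hsz CD mD _ (by rw [hC]; exact le_max_right _ _) (by rw [hm]; exact le_max_right _ _) hCD (hDg q (y i) c₀ hc₀)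

/-- `big_q` for sequences of families -/
theorem power_big {r : ℕ} {A D : MvPolynomial (Fin r) ℤ} (hD : D ≠ 0) (hM : MeanPoles A D) (ε β : ℝ) (B : ℕ)
    (hε : 0 < ε) (hβ : 0 < β) : ∃ (θ : ℝ) (m : ℕ), 0 < θ ∧ ∀ n₀ : ℕ, ∀ (τ : ℕ → Type) (s : ∀ j, Finset (τ j))
      (v : ∀ j, τ j → Fin r → ℤ), PowerFlat β B s v → ∀ P : (Fin r → ℤ) → Prop,
      (∀ (n : ℕ) (w : Fin r → ℤ), n₀ ≤ n → 1 ≤ n → eval w D ≠ 0 →
        (∃ p : ℕ, p.Prime ∧ 5 ≤ p ∧ (n : ℝ) ^ θ ≤ p ∧ (p : ℤ) ∣ eval w D ∧ ¬ (p : ℤ) ∣ eval w A) →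
        |((eval w A : ℤ) : ℝ)| ≤ (n : ℝ) ^ (m + 1) → |((eval w D : ℤ) : ℝ)| ≤ (n : ℝ) ^ (m + 1) → P w) →
      ∀ᶠ j in atTop, ({i : τ j | i ∈ s j ∧ ¬ P (v j i)}.ncard : ℝ) ≤ ε * (s j).card := by
  obtain ⟨θ, m, hθ, Z₀, h⟩ := big_q hD hM ε β B hε hβ
  refine ⟨θ, m, hθ, fun n₀ τ s v hs P hP => ?_⟩
  filter_upwards [hs (max (Z₀ : ℝ) (n₀ + 1))] with j hj
  obtain ⟨q, _, y, c₀, Z, h1, h2, h3, h4, h5, h6⟩ := hj
  have h7 : v j = fun i l => c₀ l + ((y i l).val : ℕ) := by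
    funext i l
    exact h6 i l
  rw [h7]
  have hq : (n₀ : ℝ) + 1 ≤ q := ((le_max_right _ _).trans h1).trans h2
  have hq' : n₀ + 1 ≤ q := by exact_mod_cast hq
  have h8 := h (τ j) q (s j) y Z ((le_max_left _ _).trans h1) h3 ⟨h2, h5⟩ c₀ h4
  refine le_trans (ncard_mono ?_) h8
  intro i _ hn hb
  apply hn
  obtain ⟨g1, g2, g3, g4⟩ := hb
  exact hP q (fun l => c₀ l + ((y i l).val : ℕ)) (by omega) (by omega) g1 g2 g3 g4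

end Pool.Agent.U569.APL
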