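import Pool.Agent.U569.APL.Ext

set_option autoImplicit false

/-! # The values of bilinear maps over the field of `p` elements at the elements of two arbitrary sets, as families of
vectors of residues with small Fourier coefficients -/

namespace Pool.Agent.U569.APL

open Finset Filter
open Pool.Agent.N384.VF (Flat VFam)

section
variable {p : ℕ} [Fact p.Prime] {m n : ℕ}

lemma sum_psi_lin (w : Fin n → ZMod p) :
    ∑ y : Fin n → ZMod p, (ZMod.stdAddChar (∑ j, w j * y j) : ℂ) = if w = 0 then (p : ℂ) ^ n else 0 := by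
  classical
  have h1 : ∀ y : Fin n → ZMod p, (ZMod.stdAddChar (∑ j, w j * y j) : ℂ) =
      ∏ j, (ZMod.stdAddChar (w j * y j) : ℂ) := by
    intro y
    induction (univ : Finset (Fin n)) using Finset.induction_on with
    | empty => simp
    | insert a s ha ih => rw [sum_insert ha, psi_add, prod_insert ha, ih]
  rw [sum_congr rfl fun y _ => h1 y]
  have h2 : ∑ y : Fin n → ZMod p, ∏ j, (ZMod.stdAddChar (w j * y j) : ℂ) =
      ∏ j, ∑ t : ZMod p, (ZMod.stdAddChar (w j * t) : ℂ) := by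
    rw [Finset.prod_univ_sum, Fintype.piFinset_univ]
  rw [h2]
  have h3 : ∀ j, ∑ t : ZMod p, (ZMod.stdAddChar (w j * t) : ℂ) = if w j = 0 then (p : ℂ) else 0 := by
    intro j
    have := AddChar.sum_mulShift (ψ := (ZMod.stdAddChar : AddChar (ZMod p) ℂ)) (w j)
      (ZMod.isPrimitive_stdAddChar p)
    rw [ZMod.card, Nat.cast_ite, Nat.cast_zero] at this
    rw [← this]
    exact sum_congr rfl fun t _ => by rw [mul_comm]
  rw [prod_congr rfl fun j _ => h3 j]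
  by_cases hw : w = 0
  · subst hw
    simp
  · rw [if_neg hw]
    obtain ⟨j, hj⟩ : ∃ j, w j ≠ 0 := by
      by_contra h
      push Not at h
      exact hw (funext h)
    exact prod_eq_zero (mem_univ j) (by rw [if_neg hj])

/-- the number of the vectors in the left kernel of a matrix -/
lemma card_left_ker (A : Matrix (Fin m) (Fin n) (ZMod p)) {ρ : ℕ} (hρ : ρ ≤ A.rank) :
    ((univ.filter fun x : Fin m → ZMod p => Matrix.vecMul x A = 0).card : ℝ) * (p : ℝ) ^ ρ ≤ (p : ℝ) ^ m := by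
  classical
  have h1 : (univ.filter fun x : Fin m → ZMod p => Matrix.vecMul x A = 0).card =
      Nat.card (LinearMap.ker (Matrix.transpose A).mulVecLin) := by
    rw [Nat.card_eq_fintype_card, ← Fintype.card_subtype]
    refine Fintype.card_congr (Equiv.subtypeEquivRight fun x => ?_)
    rw [LinearMap.mem_ker, Matrix.mulVecLin_apply, Matrix.mulVec_transpose]
  have h2 : Nat.card (LinearMap.ker (Matrix.transpose A).mulVecLin) =
      p ^ Module.finrank (ZMod p) (LinearMap.ker (Matrix.transpose A).mulVecLin) := by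
    rw [Nat.card_eq_fintype_card, Module.card_eq_pow_finrank (K := ZMod p), ZMod.card]
  have h3 := LinearMap.finrank_range_add_finrank_ker (Matrix.transpose A).mulVecLin
  have h4 : Module.finrank (ZMod p) (LinearMap.range (Matrix.transpose A).mulVecLin) = A.rank := by
    rw [← Matrix.rank_transpose A]
    rfl
  rw [h4, Module.finrank_fin_fun] at h3
  rw [h1, h2]
  push_cast
  have hp1 : (1 : ℝ) ≤ p := by exact_mod_cast (Fact.out : p.Prime).one_lt.le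
  rw [← pow_add]
  exact pow_le_pow_right₀ hp1 (by omega)

/-- the exponential sums of a bilinear form of large rank over two arbitrary sets -/
theorem bias_bil (A : Matrix (Fin m) (Fin n) (ZMod p)) {ρ : ℕ} (hρ : ρ ≤ A.rank) (E : Finset (Fin m → ZMod p))
    (F : Finset (Fin n → ZMod p)) (f : (Fin m → ZMod p) → ℂ) (g : (Fin n → ZMod p) → ℂ) (hf : ∀ x, ‖f x‖ = 1)
    (hg : ∀ x, ‖g x‖ = 1) :
    ‖∑ z ∈ E ×ˢ F, f z.1 * g z.2 * ZMod.stdAddChar (z.1 ⬝ᵥ Matrix.mulVec A z.2)‖ ^ 2 * (p : ℝ) ^ ρ ≤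
      (E.card : ℝ) * F.card * (p : ℝ) ^ (m + n) := by
  classical
  have h1 : ∑ z ∈ E ×ˢ F, f z.1 * g z.2 * ZMod.stdAddChar (z.1 ⬝ᵥ Matrix.mulVec A z.2) =
      ∑ y ∈ F, g y * ∑ x ∈ E, f x * ZMod.stdAddChar (x ⬝ᵥ Matrix.mulVec A y) := by
    rw [sum_product_right]
    refine sum_congr rfl fun y _ => ?_
    rw [mul_sum]
    exact sum_congr rfl fun x _ => by ring
  have h2 : ‖∑ y ∈ F, g y * ∑ x ∈ E, f x * ZMod.stdAddChar (x ⬝ᵥ Matrix.mulVec A y)‖ ≤
      ∑ y ∈ F, ‖∑ x ∈ E, f x * ZMod.stdAddChar (x ⬝ᵥ Matrix.mulVec A y)‖ := by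
    refine (norm_sum_le _ _).trans (le_of_eq (sum_congr rfl fun y _ => ?_))
    rw [norm_mul, hg, one_mul]
  have h3 : (∑ y ∈ F, ‖∑ x ∈ E, f x * ZMod.stdAddChar (x ⬝ᵥ Matrix.mulVec A y)‖) ^ 2 ≤
      F.card * ∑ y ∈ F, ‖∑ x ∈ E, f x * ZMod.stdAddChar (x ⬝ᵥ Matrix.mulVec A y)‖ ^ 2 :=
    sq_sum_le_card_mul_sum_sq
  have h4 : ∑ y ∈ F, ‖∑ x ∈ E, f x * ZMod.stdAddChar (x ⬝ᵥ Matrix.mulVec A y)‖ ^ 2 ≤
      ∑ y : Fin n → ZMod p, ‖∑ x ∈ E, f x * ZMod.stdAddChar (x ⬝ᵥ Matrix.mulVec A y)‖ ^ 2 :=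
    sum_le_sum_of_subset_of_nonneg (subset_univ _) fun _ _ _ => by positivity
  set S : ℝ := ∑ y : Fin n → ZMod p, ‖∑ x ∈ E, f x * ZMod.stdAddChar (x ⬝ᵥ Matrix.mulVec A y)‖ ^ 2 with hS
  have h5 : (S : ℂ) = ∑ x ∈ E, ∑ x' ∈ E, f x * (starRingEnd ℂ) (f x') *
      (if Matrix.vecMul (x - x') A = 0 then (p : ℂ) ^ n else 0) := by
    rw [hS]
    push_cast
    have h6 : ∀ y : Fin n → ZMod p, ((‖∑ x ∈ E, f x * ZMod.stdAddChar (x ⬝ᵥ Matrix.mulVec A y)‖ : ℂ)) ^ 2 =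
        ∑ x ∈ E, ∑ x' ∈ E, f x * (starRingEnd ℂ) (f x') *
          ZMod.stdAddChar (∑ j, Matrix.vecMul (x - x') A j * y j) := by
      intro y
      rw [← Complex.mul_conj', map_sum, sum_mul_sum]
      refine sum_congr rfl fun x _ => sum_congr rfl fun x' _ => ?_
      have e0 : ∑ j, Matrix.vecMul (x - x') A j * y j = x ⬝ᵥ Matrix.mulVec A y - x' ⬝ᵥ Matrix.mulVec A y := by
        rw [Matrix.dotProduct_mulVec, Matrix.dotProduct_mulVec, Matrix.sub_vecMul]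
        simp [dotProduct, sub_mul, sum_sub_distrib]
      have e1 : (ZMod.stdAddChar (∑ j, Matrix.vecMul (x - x') A j * y j) : ℂ) =
          ZMod.stdAddChar (x ⬝ᵥ Matrix.mulVec A y) *
            (starRingEnd ℂ) (ZMod.stdAddChar (x' ⬝ᵥ Matrix.mulVec A y)) := by
        rw [e0, psi_conj, ← psi_add, sub_eq_add_neg]
      have e2 : (starRingEnd ℂ) (f x' * ZMod.stdAddChar (x' ⬝ᵥ Matrix.mulVec A y)) =
        (starRingEnd ℂ) (f x') * (starRingEnd ℂ) (ZMod.stdAddChar (x' ⬝ᵥ Matrix.mulVec A y)) := map_mul _ _ _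
      rw [e1, e2]
      ring
    rw [sum_congr rfl fun y _ => h6 y, sum_comm]
    refine sum_congr rfl fun x _ => ?_
    rw [sum_comm]
    refine sum_congr rfl fun x' _ => ?_
    rw [← mul_sum, sum_psi_lin]
  have h6 : S ≤ ∑ x ∈ E, ∑ x' ∈ E, (if Matrix.vecMul (x - x') A = 0 then (p : ℝ) ^ n else 0) := by
    have h7 : ‖(S : ℂ)‖ = S := by
      rw [Complex.norm_real, Real.norm_of_nonneg (by rw [hS]; exact sum_nonneg fun _ _ => by positivity)]
    rw [← h7, h5]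
    refine (norm_sum_le _ _).trans (sum_le_sum fun x _ => (norm_sum_le _ _).trans (sum_le_sum fun x' _ => ?_))
    rw [norm_mul, norm_mul, hf, RCLike.norm_conj, hf, one_mul, one_mul]
    split_ifs
    · rw [norm_pow, Complex.norm_natCast]
    · rw [norm_zero]
  have h7 : ∀ x ∈ E, (∑ x' ∈ E, (if Matrix.vecMul (x - x') A = 0 then (p : ℝ) ^ n else 0)) * (p : ℝ) ^ ρ ≤
      (p : ℝ) ^ (m + n) := by
    intro x _
    rw [← sum_filter, sum_const, nsmul_eq_mul]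
    have h8 : (E.filter fun x' => Matrix.vecMul (x - x') A = 0).card ≤
        (univ.filter fun x : Fin m → ZMod p => Matrix.vecMul x A = 0).card := by
      refine card_le_card_of_injOn (fun x' => x - x') ?_ ?_
      · intro x' hx'
        rw [mem_coe, mem_filter] at hx'
        rw [mem_coe, mem_filter]
        exact ⟨mem_univ _, hx'.2⟩
      · intro a _ b _ hab
        exact sub_right_injective hab
    have h9 := card_left_ker A hρ
    calc ((E.filter fun x' => Matrix.vecMul (x - x') A = 0).card : ℝ) * (p : ℝ) ^ n * (p : ℝ) ^ ρ =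
          (((E.filter fun x' => Matrix.vecMul (x - x') A = 0).card : ℝ) * (p : ℝ) ^ ρ) * (p : ℝ) ^ n := by ring
      _ ≤ (((univ.filter fun x : Fin m → ZMod p => Matrix.vecMul x A = 0).card : ℝ) * (p : ℝ) ^ ρ) *
          (p : ℝ) ^ n := by gcongr
      _ ≤ (p : ℝ) ^ m * (p : ℝ) ^ n := by gcongr
      _ = _ := by rw [pow_add]
  have h8 : S * (p : ℝ) ^ ρ ≤ E.card * (p : ℝ) ^ (m + n) := by
    calc S * (p : ℝ) ^ ρ ≤ (∑ x ∈ E, ∑ x' ∈ E, (if Matrix.vecMul (x - x') A = 0 then (p : ℝ) ^ n else 0)) *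
          (p : ℝ) ^ ρ := by gcongr
      _ = ∑ x ∈ E, (∑ x' ∈ E, (if Matrix.vecMul (x - x') A = 0 then (p : ℝ) ^ n else 0)) * (p : ℝ) ^ ρ := by
          rw [sum_mul]
      _ ≤ ∑ _x ∈ E, (p : ℝ) ^ (m + n) := sum_le_sum h7
      _ = _ := by rw [sum_const, nsmul_eq_mul]
  rw [h1]
  calc _ ≤ (∑ y ∈ F, ‖∑ x ∈ E, f x * ZMod.stdAddChar (x ⬝ᵥ Matrix.mulVec A y)‖) ^ 2 * (p : ℝ) ^ ρ := by
        gcongr
    _ ≤ (F.card * S) * (p : ℝ) ^ ρ := by
        gcongr
        exact h3.trans (mul_le_mul_of_nonneg_left h4 (Nat.cast_nonneg _))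
    _ = F.card * (S * (p : ℝ) ^ ρ) := by ring
    _ ≤ F.card * (E.card * (p : ℝ) ^ (m + n)) := by gcongr
    _ = _ := by ring

end

/-- the values of a bilinear map at the elements of two arbitrary sets -/
theorem vfam_bil (r : ℕ) (δ : ℝ) (hδ : 0 < δ) (hδ1 : δ ≤ 1) (Z₀ : ℝ) :
    ∃ p₀ : ℕ, ∀ (p : ℕ) (_ : p.Prime) [NeZero p], p₀ ≤ p → Z₀ ≤ (p : ℝ) ^ (δ / 8) ∧
    ∀ (m n ρ : ℕ) (M : Fin r → Matrix (Fin m) (Fin n) (ZMod p)) (E : Finset (Fin m → ZMod p))
      (F : Finset (Fin n → ZMod p)) (u : (Fin m → ZMod p) → Fin r → ZMod p) (v : (Fin n → ZMod p) → Fin r → ZMod p),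
    (∀ α : Fin r → ZMod p, α ≠ 0 → ρ ≤ (∑ l, α l • M l).rank) →
    (p : ℝ) ^ (((m + n : ℕ) : ℝ) + δ) ≤ E.card * F.card * (p : ℝ) ^ ρ →
    VFam p (E ×ˢ F) (fun z l => z.1 ⬝ᵥ Matrix.mulVec (M l) z.2 + u z.1 l + v z.2 l) ((p : ℝ) ^ (δ / 8)) := by
  have E1 : ∀ᶠ x : ℝ in atTop, Z₀ ≤ x ^ (δ / 8) :=
    (tendsto_rpow_atTop (by positivity)).eventually_ge_atTop _
  have E3 : ∀ᶠ x : ℝ in atTop, (42 + 3 * Real.log x) ^ r ≤ x ^ (δ / 8) := by
    by_cases hL : r = 0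
    · subst hL
      filter_upwards [(tendsto_rpow_atTop (show 0 < δ / 8 by positivity)).eventually_ge_atTop (1 : ℝ)] with x hx
      simpa using hx
    have hL0 : (0 : ℝ) < r := by exact_mod_cast Nat.pos_of_ne_zero hL
    have h1 := (isLittleO_log_rpow_atTop (show 0 < δ / 8 / r by positivity)).def
      (show (0 : ℝ) < 1 / 6 by norm_num)
    filter_upwards [h1, (tendsto_rpow_atTop (show 0 < δ / 8 / r by positivity)).eventually_ge_atTop (84 : ℝ),
      eventually_ge_atTop (1 : ℝ)] with x hx hx2 hx1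
    have hx0 : (0 : ℝ) < x := by linarith
    have hlog : 0 ≤ Real.log x := Real.log_nonneg hx1
    rw [Real.norm_of_nonneg hlog, Real.norm_of_nonneg (by positivity)] at hx
    calc (42 + 3 * Real.log x) ^ r ≤ (x ^ (δ / 8 / r)) ^ r := by
          apply pow_le_pow_left₀ (by positivity)
          linarith
      _ = x ^ (δ / 8) := by
          rw [← Real.rpow_natCast, ← Real.rpow_mul hx0.le]
          congr 1
          field_simp
  obtain ⟨x₀, hx₀⟩ := eventually_atTop.mp (E1.and E3)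
  obtain ⟨p₂, hp₂⟩ := exists_nat_ge x₀
  refine ⟨p₂, fun p hp _ hpp => ?_⟩
  obtain ⟨g1, g3⟩ := hx₀ p (hp₂.trans (by exact_mod_cast hpp))
  refine ⟨g1, fun m n ρ M E F u v hM hEF => ?_⟩
  classical
  have : Fact p.Prime := ⟨hp⟩
  have hp1 : (1 : ℝ) < p := by exact_mod_cast hp.one_lt
  have hp0 : (0 : ℝ) < p := by linarith
  refine ⟨?_, fun α hα => ?_⟩
  · calc (p : ℝ) ^ (δ / 8) ≤ (p : ℝ) ^ (1 : ℝ) := Real.rpow_le_rpow_of_exponent_le hp1.le (by linarith)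
      _ = p := Real.rpow_one _
  set A : Matrix (Fin m) (Fin n) (ZMod p) := ∑ l, α l • M l with hA
  have key := bias_bil A (hM α hα) E F (fun x => ZMod.stdAddChar (∑ l, α l * u x l))
    (fun y => ZMod.stdAddChar (∑ l, α l * v y l)) (fun x => psi_norm _) (fun x => psi_norm _)
  have hlin : ∀ (x : Fin m → ZMod p) (y : Fin n → ZMod p), x ⬝ᵥ Matrix.mulVec A y =
      ∑ l, α l * (x ⬝ᵥ Matrix.mulVec (M l) y) := by
    intro x y
    rw [hA, Matrix.sum_mulVec, dotProduct_sum]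
    refine sum_congr rfl fun l _ => ?_
    rw [Matrix.smul_mulVec, dotProduct_smul, smul_eq_mul]
  have hsum : ∑ z ∈ E ×ˢ F, (ZMod.stdAddChar
      (∑ j, α j * (z.1 ⬝ᵥ Matrix.mulVec (M j) z.2 + u z.1 j + v z.2 j)) : ℂ) =
      ∑ z ∈ E ×ˢ F, (ZMod.stdAddChar (∑ l, α l * u z.1 l) : ℂ) * ZMod.stdAddChar (∑ l, α l * v z.2 l) *
        ZMod.stdAddChar (z.1 ⬝ᵥ Matrix.mulVec A z.2) := by
    refine sum_congr rfl fun z _ => ?_
    rw [hlin, ← psi_add, ← psi_add]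
    congr 1
    rw [← sum_add_distrib, ← sum_add_distrib]
    refine sum_congr rfl fun j _ => ?_
    ring
  rw [hsum]
  have hlog : 0 ≤ Real.log (p : ℝ) := Real.log_nonneg hp1.le
  have hbase : (0 : ℝ) < 42 + 3 * Real.log p := by linarith
  have hpρ : (0 : ℝ) < (p : ℝ) ^ ρ := by positivity
  have hEF0 : (0 : ℝ) < (E.card : ℝ) * F.card := by
    have h1 : (0 : ℝ) < E.card * F.card * (p : ℝ) ^ ρ := lt_of_lt_of_le (Real.rpow_pos_of_pos hp0 _) hEF
    exact (mul_pos_iff_of_pos_right hpρ).1 h1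
  apply le_of_sq_le_sq _ (by positivity)
  rw [← mul_le_mul_iff_left₀ hpρ]
  refine key.trans ?_
  rw [card_product, mul_pow]
  push_cast
  have h9 : ((p : ℝ) ^ (δ / 8) * (42 + 3 * Real.log p) ^ Fintype.card (Fin r)) ^ 2 ≤ (p : ℝ) ^ δ := by
    rw [Fintype.card_fin]
    calc ((p : ℝ) ^ (δ / 8) * (42 + 3 * Real.log p) ^ r) ^ 2 ≤ ((p : ℝ) ^ (δ / 8) * (p : ℝ) ^ (δ / 8)) ^ 2 := by
          gcongr
      _ = (p : ℝ) ^ (δ / 2) := by
          rw [← Real.rpow_add hp0, ← Real.rpow_natCast, ← Real.rpow_mul hp0.le]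
          congr 1
          push_cast
          ring
      _ ≤ (p : ℝ) ^ δ := Real.rpow_le_rpow_of_exponent_le hp1.le (by linarith)
  have h10 : 1 / (p : ℝ) ^ δ ≤ (1 / ((p : ℝ) ^ (δ / 8) * (42 + 3 * Real.log p) ^ Fintype.card (Fin r))) ^ 2 := by
    rw [div_pow, one_pow]
    exact one_div_le_one_div_of_le (by positivity) h9
  have h11 : (p : ℝ) ^ (m + n) ≤ 1 / (p : ℝ) ^ δ * ((E.card : ℝ) * F.card * (p : ℝ) ^ ρ) := by
    rw [one_div, ← Real.rpow_neg hp0.le]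
    calc (p : ℝ) ^ (m + n) = (p : ℝ) ^ (-δ) * (p : ℝ) ^ (((m + n : ℕ) : ℝ) + δ) := by
          rw [← Real.rpow_add hp0, ← Real.rpow_natCast]
          congr 1
          ring
      _ ≤ _ := mul_le_mul_of_nonneg_left hEF (by positivity)
  calc (E.card : ℝ) * F.card * (p : ℝ) ^ (m + n) ≤
        (E.card : ℝ) * F.card * (1 / (p : ℝ) ^ δ * ((E.card : ℝ) * F.card * (p : ℝ) ^ ρ)) :=
        mul_le_mul_of_nonneg_left h11 hEF0.le
    _ = (1 / (p : ℝ) ^ δ) * ((E.card : ℝ) * F.card) ^ 2 * (p : ℝ) ^ ρ := by ring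
    _ ≤ _ := by gcongr

end Pool.Agent.U569.APL
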