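import Mathlib

set_option autoImplicit false

/-!
# The number of the members of a family of vectors of residues in a small box
-/

namespace Pool.Agent.U569.APL

open Finset

/-- the exponential function with period one -/
noncomputable def ex (x : ℝ) : ℂ := Complex.exp ((2 * Real.pi * x : ℝ) * Complex.I)

lemma ex_add (x y : ℝ) : ex (x + y) = ex x * ex y := by
  unfold ex
  rw [← Complex.exp_add]
  congr 1
  push_cast
  ring

lemma ex_re (x : ℝ) : (ex x).re = Real.cos (2 * Real.pi * x) := by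
  unfold ex
  rw [Complex.exp_ofReal_mul_I_re]

lemma norm_ex (x : ℝ) : ‖ex x‖ = 1 := Complex.norm_exp_ofReal_mul_I _

lemma conj_ex (x : ℝ) : (starRingEnd ℂ) (ex x) = ex (-x) := by
  unfold ex
  rw [← Complex.exp_conj, map_mul, Complex.conj_ofReal, Complex.conj_I]
  congr 1
  push_cast
  ring

lemma ex_zero : ex 0 = 1 := by
  unfold ex
  simp

lemma prod_ex {κ : Type} (s : Finset κ) (f : κ → ℝ) : ∏ j ∈ s, ex (f j) = ex (∑ j ∈ s, f j) := by
  classical
  induction s using Finset.induction_on with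
  | empty => simp [ex_zero]
  | insert a s ha ih => rw [prod_insert ha, sum_insert ha, ih, ex_add]

lemma kernel_ge {L : ℕ} (hL : 1 ≤ L) {t : ℝ} (ht : |t| ≤ 1 / (8 * L)) : (L : ℝ) / 2 ≤ ‖∑ a : Fin L, ex ((a : ℕ) * t)‖ := by
  have hL0 : (0 : ℝ) < L := by exact_mod_cast hL
  refine le_trans ?_ (Complex.re_le_norm _)
  rw [Complex.re_sum]
  have h1 : ∀ a : Fin L, (1 : ℝ) / 2 ≤ (ex ((a : ℕ) * t)).re := by
    intro a
    rw [ex_re]
    refine le_trans ?_ (Real.one_sub_sq_div_two_le_cos)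
    have h2 : |2 * Real.pi * ((a : ℕ) * t)| ≤ 1 := by
      rw [abs_mul, abs_of_pos (show (0 : ℝ) < 2 * Real.pi by positivity), abs_mul, abs_of_nonneg (Nat.cast_nonneg _)]
      have h3 : ((a : ℕ) : ℝ) ≤ L := by exact_mod_cast a.2.le
      have h4 : ((a : ℕ) : ℝ) * |t| ≤ L * (1 / (8 * L)) := by gcongr
      have h5 : (L : ℝ) * (1 / (8 * L)) = 1 / 8 := by field_simp
      rw [h5] at h4
      have h6 := Real.pi_lt_d2
      have h7 : 0 ≤ ((a : ℕ) : ℝ) * |t| := by positivity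
      nlinarith [Real.pi_pos]
    have h8 : (2 * Real.pi * ((a : ℕ) * t)) ^ 2 ≤ 1 := by
      rw [← sq_abs]
      have := abs_nonneg (2 * Real.pi * ((a : ℕ) * t))
      nlinarith
    linarith
  calc (L : ℝ) / 2 = ∑ _a : Fin L, (1 : ℝ) / 2 := by
        rw [sum_const, card_univ, Fintype.card_fin, nsmul_eq_mul]
        ring
    _ ≤ _ := sum_le_sum fun a _ => h1 a

/-- **The number of the members in a small box.** -/
theorem box_le {k q : ℕ} [NeZero q] {τ : Type} (s : Finset τ) (y : τ → Fin k → ZMod q) (L : ℕ) (hL : 1 ≤ L) (η : ℝ) (hη : 0 ≤ η)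
    (hy : ∀ h : Fin k → ℤ, h ≠ 0 → (∀ l, |h l| < L) →
      ‖∑ i ∈ s, (ZMod.stdAddChar (∑ l, (h l : ZMod q) * y i l) : ℂ)‖ ≤ η * s.card)
    (c : Fin k → ℝ) (S : Finset τ) (hS : S ⊆ s)
    (hc : ∀ i ∈ S, ∀ l, |((y i l).val : ℝ) / q - c l| ≤ 1 / (8 * L)) :
    (S.card : ℝ) * (L : ℝ) ^ k ≤ 4 ^ k * ((1 + (L : ℝ) ^ k * η) * s.card) := by
  have hL0 : (0 : ℝ) < L := by exact_mod_cast hL
  have hq0 : (0 : ℝ) < q := by exact_mod_cast Nat.pos_of_ne_zero (NeZero.ne q)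
  set u : τ → Fin k → ℝ := fun i l => ((y i l).val : ℝ) / q with hu
  set G : τ → ℂ := fun i => ∏ l, ∑ a : Fin L, ex ((a : ℕ) * (u i l - c l)) with hG
  have hG1 : ∀ i, G i = ∑ a : Fin k → Fin L, ex (∑ l, ((a l : ℕ) : ℝ) * (u i l - c l)) := by
    intro i
    simp only [hG]
    rw [prod_univ_sum, Fintype.piFinset_univ]
    exact sum_congr rfl fun a _ => prod_ex _ _
  have hGS : ∀ i ∈ S, ((L : ℝ) / 2) ^ (2 * k) ≤ ‖G i‖ ^ 2 := by
    intro i hi
    have h1 : ((L : ℝ) / 2) ^ k ≤ ‖G i‖ := by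
      simp only [hG]
      rw [norm_prod]
      calc ((L : ℝ) / 2) ^ k = ∏ _l : Fin k, (L : ℝ) / 2 := by rw [prod_const, card_univ, Fintype.card_fin]
        _ ≤ _ := prod_le_prod (fun _ _ => by positivity) fun l _ => kernel_ge hL (hc i hi l)
    calc ((L : ℝ) / 2) ^ (2 * k) = (((L : ℝ) / 2) ^ k) ^ 2 := by rw [← pow_mul, mul_comm]
      _ ≤ ‖G i‖ ^ 2 := pow_le_pow_left₀ (by positivity) h1 2
  have hsum : ∑ i ∈ s, ‖G i‖ ^ 2 ≤ ((L : ℝ) ^ k + (L : ℝ) ^ k * (L : ℝ) ^ k * η) * s.card := by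
    have h2 : ∀ i, ((‖G i‖ ^ 2 : ℝ) : ℂ) = ∑ a : Fin k → Fin L, ∑ b : Fin k → Fin L,
        ex (-(∑ l, (((a l : ℕ) : ℝ) - ((b l : ℕ) : ℝ)) * c l)) *
          (ZMod.stdAddChar (∑ l, ((((a l : ℕ) : ℤ) - ((b l : ℕ) : ℤ) : ℤ) : ZMod q) * y i l) : ℂ) := by
      intro i
      have h3 : ((‖G i‖ ^ 2 : ℝ) : ℂ) = G i * (starRingEnd ℂ) (G i) := by
        rw [Complex.mul_conj, Complex.normSq_eq_norm_sq]
      rw [h3, hG1, map_sum, sum_mul_sum]
      refine sum_congr rfl fun a _ => sum_congr rfl fun b _ => ?_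
      rw [conj_ex, ← ex_add]
      have h4 : (ZMod.stdAddChar (∑ l, ((((a l : ℕ) : ℤ) - ((b l : ℕ) : ℤ) : ℤ) : ZMod q) * y i l) : ℂ) =
          ex (∑ l, (((a l : ℕ) : ℝ) - ((b l : ℕ) : ℝ)) * u i l) := by
        have h5 : (∑ l, ((((a l : ℕ) : ℤ) - ((b l : ℕ) : ℤ) : ℤ) : ZMod q) * y i l) =
            ((∑ l, (((a l : ℕ) : ℤ) - ((b l : ℕ) : ℤ)) * ((y i l).val : ℤ) : ℤ) : ZMod q) := by
          push_cast
          refine sum_congr rfl fun l _ => ?_
          rw [ZMod.natCast_zmod_val]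
        rw [h5, ZMod.stdAddChar_coe]
        unfold ex
        congr 1
        have h6 : ∑ l, (((a l : ℕ) : ℝ) - ((b l : ℕ) : ℝ)) * u i l =
            (∑ l, (((a l : ℕ) : ℝ) - ((b l : ℕ) : ℝ)) * ((y i l).val : ℝ)) / q := by
          rw [sum_div]
          refine sum_congr rfl fun l _ => ?_
          simp only [hu]
          ring
        rw [h6]
        push_cast
        ring
      rw [h4, ← ex_add]
      congr 1
      rw [← sum_neg_distrib, ← sum_add_distrib, ← sum_neg_distrib, ← sum_add_distrib]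
      refine sum_congr rfl fun l _ => ?_
      ring
    have h7 : ((∑ i ∈ s, ‖G i‖ ^ 2 : ℝ) : ℂ) = ∑ a : Fin k → Fin L, ∑ b : Fin k → Fin L,
        ex (-(∑ l, (((a l : ℕ) : ℝ) - ((b l : ℕ) : ℝ)) * c l)) *
          ∑ i ∈ s, (ZMod.stdAddChar (∑ l, ((((a l : ℕ) : ℤ) - ((b l : ℕ) : ℤ) : ℤ) : ZMod q) * y i l) : ℂ) := by
      rw [Complex.ofReal_sum, sum_congr rfl fun i _ => h2 i, sum_comm]
      refine sum_congr rfl fun a _ => ?_
      rw [sum_comm]
      refine sum_congr rfl fun b _ => ?_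
      rw [mul_sum]
    have h8 : (0 : ℝ) ≤ ∑ i ∈ s, ‖G i‖ ^ 2 := sum_nonneg fun _ _ => by positivity
    have h9 : ‖((∑ i ∈ s, ‖G i‖ ^ 2 : ℝ) : ℂ)‖ = ∑ i ∈ s, ‖G i‖ ^ 2 := by
      rw [Complex.norm_real, Real.norm_of_nonneg h8]
    rw [← h9, h7]
    have h10 : ∀ a b : Fin k → Fin L, ‖ex (-(∑ l, (((a l : ℕ) : ℝ) - ((b l : ℕ) : ℝ)) * c l)) *
          ∑ i ∈ s, (ZMod.stdAddChar (∑ l, ((((a l : ℕ) : ℤ) - ((b l : ℕ) : ℤ) : ℤ) : ZMod q) * y i l) : ℂ)‖ ≤
          (if a = b then (s.card : ℝ) else 0) + η * s.card := by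
      intro a b
      rw [norm_mul, norm_ex, one_mul]
      by_cases hab : a = b
      · rw [if_pos hab]
        refine (norm_sum_le _ _).trans ?_
        simp only [AddChar.norm_apply, sum_const, nsmul_eq_mul, mul_one]
        have : 0 ≤ η * s.card := by positivity
        linarith
      · rw [if_neg hab, zero_add]
        refine hy (fun l => ((a l : ℕ) : ℤ) - ((b l : ℕ) : ℤ)) (fun h0 => hab ?_) fun l => ?_
        · funext l
          have h11 := congrFun h0 l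
          simp only [Pi.zero_apply] at h11
          exact Fin.ext (by omega)
        · have h12 := (a l).2
          have h13 := (b l).2
          rw [abs_lt]
          constructor <;> omega
    refine (norm_sum_le _ _).trans ((sum_le_sum fun a _ => (norm_sum_le _ _).trans (sum_le_sum fun b _ => h10 a b)).trans ?_)
    have h14 : ∀ a : Fin k → Fin L, ∑ b : Fin k → Fin L, ((if a = b then (s.card : ℝ) else 0) + η * s.card) =
        s.card + (L : ℝ) ^ k * (η * s.card) := by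
      intro a
      rw [sum_add_distrib, sum_ite_eq, if_pos (mem_univ _), sum_const, card_univ, Fintype.card_fun, Fintype.card_fin,
        Fintype.card_fin, nsmul_eq_mul]
      push_cast
      ring
    rw [sum_congr rfl fun a _ => h14 a, sum_const, card_univ, Fintype.card_fun, Fintype.card_fin, Fintype.card_fin, nsmul_eq_mul]
    push_cast
    exact le_of_eq (by ring)
  have hfin : (S.card : ℝ) * ((L : ℝ) / 2) ^ (2 * k) ≤ ((L : ℝ) ^ k + (L : ℝ) ^ k * (L : ℝ) ^ k * η) * s.card := by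
    calc (S.card : ℝ) * ((L : ℝ) / 2) ^ (2 * k) = ∑ _i ∈ S, ((L : ℝ) / 2) ^ (2 * k) := by rw [sum_const, nsmul_eq_mul]
      _ ≤ ∑ i ∈ S, ‖G i‖ ^ 2 := sum_le_sum hGS
      _ ≤ ∑ i ∈ s, ‖G i‖ ^ 2 := sum_le_sum_of_subset_of_nonneg hS fun _ _ _ => by positivity
      _ ≤ _ := hsum
  have e1 : ((L : ℝ) / 2) ^ (2 * k) = (L : ℝ) ^ k * (L : ℝ) ^ k / 4 ^ k := by
    rw [div_pow, pow_mul, pow_mul]
    norm_num
    rw [← pow_mul, two_mul, pow_add]
  rw [e1] at hfin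
  have hLk : (0 : ℝ) < (L : ℝ) ^ k := by positivity
  have h4k : (0 : ℝ) < (4 : ℝ) ^ k := by positivity
  have e2 : (S.card : ℝ) * ((L : ℝ) ^ k * (L : ℝ) ^ k / 4 ^ k) = (L : ℝ) ^ k * ((S.card : ℝ) * (L : ℝ) ^ k / 4 ^ k) := by ring
  have e3 : ((L : ℝ) ^ k + (L : ℝ) ^ k * (L : ℝ) ^ k * η) * (s.card : ℝ) = (L : ℝ) ^ k * ((1 + (L : ℝ) ^ k * η) * s.card) := by ring
  rw [e2, e3] at hfin
  have h15 := le_of_mul_le_mul_left hfin hLk
  rw [div_le_iff₀ h4k] at h15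
  linarith

end Pool.Agent.U569.APL
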