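import Pool.Agent.U569.APL.Ext

set_option autoImplicit false

/-! # One small set of exceptions for countably many conditions on a sequence of families -/

namespace Pool.Agent.U569.APL

open Finset Filter Topology
open Pool.Agent.N384.VF (Flat VFam)

/-- One small set of exceptions for countably many conditions. -/
theorem diag_fam {Φ : Type} [Countable Φ] {τ : ℕ → Type} (s : ∀ j, Finset (τ j)) (Bad : Φ → ∀ j, τ j → Prop)
    (h : ∀ φ, ∀ ε : ℝ, 0 < ε → ∀ᶠ j in atTop, ({i : τ j | i ∈ s j ∧ Bad φ j i}.ncard : ℝ) ≤ ε * (s j).card) :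
    ∃ B : ∀ j, Finset (τ j), (∀ j, B j ⊆ s j) ∧
      (∀ ε : ℝ, 0 < ε → ∀ᶠ j in atTop, ((B j).card : ℝ) ≤ ε * (s j).card) ∧
      ∀ φ, ∀ᶠ j in atTop, ∀ i ∈ s j, i ∉ B j → ¬ Bad φ j i := by
  classical
  obtain ⟨f, hf⟩ := exists_injective_nat Φ
  set C : ℕ → ∀ j, Finset (τ j) := fun m j => (s j).filter fun i => ∃ φ, f φ < m ∧ Bad φ j i with hC
  have hCs : ∀ m, ∀ ε : ℝ, 0 < ε → ∀ᶠ j in atTop, ((C m j).card : ℝ) ≤ ε * (s j).card := by
    intro m
    induction m with
    | zero =>
      intro ε hε
      refine Eventually.of_forall fun j => ?_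
      have : C 0 j = ∅ := by
        simp only [hC]
        exact filter_eq_empty_iff.2 fun i _ ⟨φ, h1, _⟩ => absurd h1 (Nat.not_lt_zero _)
      rw [this, card_empty, Nat.cast_zero]
      positivity
    | succ m ih =>
      intro ε hε
      by_cases hm : ∃ φ, f φ = m
      · obtain ⟨φ, hφ⟩ := hm
        filter_upwards [ih (ε / 2) (by positivity), h φ (ε / 2) (by positivity)] with j h1 h2
        have h3 : C (m + 1) j ⊆ C m j ∪ (s j).filter fun i => Bad φ j i := by
          intro i hi
          obtain ⟨h4, φ', h5, h6⟩ := mem_filter.1 hi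
          rcases Nat.lt_succ_iff_lt_or_eq.1 h5 with h7 | h7
          · exact mem_union_left _ (mem_filter.2 ⟨h4, φ', h7, h6⟩)
          · have : φ' = φ := hf (h7.trans hφ.symm)
            subst this
            exact mem_union_right _ (mem_filter.2 ⟨h4, h6⟩)
        have h4 : ((C (m + 1) j).card : ℝ) ≤ (C m j).card + ((s j).filter fun i => Bad φ j i).card := by
          exact_mod_cast (card_le_card h3).trans (card_union_le _ _)
        have h5 : {i : τ j | i ∈ s j ∧ Bad φ j i} = ↑((s j).filter fun i => Bad φ j i) := by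
          ext i; simp
        rw [h5, Set.ncard_coe_finset] at h2
        calc _ ≤ _ := h4
          _ ≤ ε / 2 * (s j).card + ε / 2 * (s j).card := add_le_add h1 h2
          _ = _ := by ring
      · filter_upwards [ih ε hε] with j h1
        have h3 : C (m + 1) j ⊆ C m j := by
          intro i hi
          obtain ⟨h4, φ', h5, h6⟩ := mem_filter.1 hi
          rcases Nat.lt_succ_iff_lt_or_eq.1 h5 with h7 | h7
          · exact mem_filter.2 ⟨h4, φ', h7, h6⟩
          · exact absurd ⟨φ', h7⟩ hm
        exact le_trans (by exact_mod_cast card_le_card h3) h1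
  set Q : ℕ → ℕ → Prop := fun j m => ∀ j', j ≤ j' → ((C m j').card : ℝ) ≤ 1 / (m + 1) * (s j').card with hQ
  set M : ℕ → ℕ := fun j => Nat.findGreatest (Q j) j with hM
  have hM1 : ∀ j, Q j (M j) := by
    intro j
    refine Nat.findGreatest_spec (P := Q j) (m := 0) (Nat.zero_le _) ?_
    intro j' _
    have : C 0 j' = ∅ := by
      simp only [hC]
      exact filter_eq_empty_iff.2 fun i _ ⟨φ, h1, _⟩ => absurd h1 (Nat.not_lt_zero _)
    rw [this, card_empty, Nat.cast_zero]
    positivity
  have hM2 : ∀ m, ∀ᶠ j in atTop, m ≤ M j := by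
    intro m
    obtain ⟨j₀, hj₀⟩ := eventually_atTop.1 (hCs m (1 / (m + 1)) (by positivity))
    filter_upwards [eventually_ge_atTop (max j₀ m)] with j hj
    exact Nat.le_findGreatest ((le_max_right _ _).trans hj)
      fun j' hj' => hj₀ j' (((le_max_left _ _).trans hj).trans hj')
  refine ⟨fun j => C (M j) j, fun j => filter_subset _ _, fun ε hε => ?_, fun φ => ?_⟩
  · obtain ⟨m, hm⟩ := exists_nat_ge (1 / ε)
    filter_upwards [hM2 m] with j hj
    refine (hM1 j j le_rfl).trans ?_
    apply mul_le_mul_of_nonneg_right _ (Nat.cast_nonneg _)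
    rw [div_le_iff₀ (by positivity)]
    have h1 : (m : ℝ) ≤ M j := by exact_mod_cast hj
    have h2 : 1 ≤ ε * m := by
      rw [div_le_iff₀ hε] at hm
      linarith
    have h3 : ε * m ≤ ε * M j := mul_le_mul_of_nonneg_left h1 hε.le
    nlinarith
  · filter_upwards [hM2 (f φ + 1)] with j hj i hi hiB hb
    exact hiB (mem_filter.2 ⟨hi, φ, by omega, hb⟩)

end Pool.Agent.U569.APL
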