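import Pool.Agent.U569.APL.Fam

set_option autoImplicit false

/-!
# The additive energy of integers whose digits in base `q` are the coordinates of vectors of residues with small
Fourier coefficients

`FlatRes κ q s y`: the vectors `y i` modulo `q`, `i ∈ s`, have nontrivial Fourier coefficients at most `q ^ (-κ)`.
`num z`: the integer with the digits `z 0, z 1, …` in base `q`.
-/

namespace Pool.Agent.U569.APL

open Finset

/-- The nontrivial Fourier coefficients of the family `y i`, `i ∈ s`, of vectors modulo `q` are at most `q ^ (-κ)`. -/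
def FlatRes (κ : ℝ) (q : ℕ) [NeZero q] {R : ℕ} {τ : Type} (s : Finset τ) (y : τ → Fin R → ZMod q) : Prop :=
  ∀ h : Fin R → ZMod q, h ≠ 0 → ‖∑ i ∈ s, (ZMod.stdAddChar (∑ l, h l * y i l) : ℂ)‖ ≤ (q : ℝ) ^ (-κ) * s.card

/-- The integer with the digits `z 0, …, z (R - 1)` in base `q` (the least residue of `z 0`, if `R = 1`). -/
def num {q R : ℕ} (z : Fin R → ZMod q) : ℕ := ∑ l, (z l).val * q ^ (l : ℕ)

lemma carries (q p : ℕ) (hq : 0 < q) : ∀ (R : ℕ) (e : ℤ) (D : Fin R → ℤ), |e| ≤ p → (∀ l, |D l| ≤ p * (q - 1)) →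
    (q : ℤ) ^ R ∣ e + ∑ l, D l * (q : ℤ) ^ (l : ℕ) → ∃ E : Fin R → ℤ, (∀ l, |E l| ≤ p) ∧ ∀ l, (q : ℤ) ∣ D l + E l := by
  intro R
  induction R with
  | zero => exact fun e D _ _ _ => ⟨Fin.elim0, fun l => l.elim0, fun l => l.elim0⟩
  | succ R ih =>
    intro e D he hD hdvd
    obtain ⟨f, hf⟩ := hdvd
    rw [Fin.sum_univ_succ] at hf
    have h1 : ∑ l : Fin R, D l.succ * (q : ℤ) ^ ((l.succ : Fin (R + 1)) : ℕ) =
        q * ∑ l : Fin R, D l.succ * (q : ℤ) ^ (l : ℕ) := by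
      rw [mul_sum]
      refine sum_congr rfl fun l _ => ?_
      rw [Fin.val_succ, pow_succ]
      ring
    rw [h1] at hf
    simp only [Fin.val_zero, pow_zero, mul_one] at hf
    have h2 : (q : ℤ) ∣ e + D 0 := by
      refine ⟨(q : ℤ) ^ R * f - ∑ l : Fin R, D l.succ * (q : ℤ) ^ (l : ℕ), ?_⟩
      rw [pow_succ] at hf
      linear_combination hf
    obtain ⟨g, hg⟩ := h2
    have hqz : (0 : ℤ) < q := by exact_mod_cast hq
    have hg' : |g| ≤ p := by
      have h3 : |(q : ℤ) * g| ≤ p * q := by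
        rw [← hg]
        calc |e + D 0| ≤ |e| + |D 0| := abs_add_le _ _
          _ ≤ p + p * (q - 1) := add_le_add he (hD 0)
          _ = p * q := by ring
      rw [abs_mul, abs_of_pos hqz, mul_comm] at h3
      exact le_of_mul_le_mul_right h3 hqz
    obtain ⟨E, hE1, hE2⟩ := ih g (fun l => D l.succ) hg' (fun l => hD _) ⟨f, by
      have h4 : (q : ℤ) * (g + ∑ l : Fin R, D l.succ * (q : ℤ) ^ (l : ℕ)) = q * ((q : ℤ) ^ R * f) := by
        rw [pow_succ] at hf
        linear_combination hf - hg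
      exact mul_left_cancel₀ hqz.ne' h4⟩
    refine ⟨Fin.cons e E, fun l => ?_, fun l => ?_⟩
    · refine Fin.cases ?_ (fun l => ?_) l
      · simpa using he
      · simpa using hE1 l
    · refine Fin.cases ?_ (fun l => ?_) l
      · simp only [Fin.cons_zero]
        exact ⟨g, by rw [← hg]; ring⟩
      · simpa using hE2 l

lemma psi_sum {q : ℕ} [NeZero q] {α : Type} (s : Finset α) (f : α → ZMod q) :
    (ZMod.stdAddChar (∑ i ∈ s, f i) : ℂ) = ∏ i ∈ s, (ZMod.stdAddChar (f i) : ℂ) := by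
  classical
  induction s using Finset.induction_on with
  | empty => simp
  | insert a s ha ih => rw [sum_insert ha, prod_insert ha, AddChar.map_add_eq_mul, ih]

lemma orth {q R : ℕ} [NeZero q] (z : Fin R → ZMod q) :
    ∑ h : Fin R → ZMod q, (ZMod.stdAddChar (∑ l, h l * z l) : ℂ) = if z = 0 then (q : ℂ) ^ R else 0 := by
  classical
  have h1 : ∀ h : Fin R → ZMod q, (ZMod.stdAddChar (∑ l, h l * z l) : ℂ) = ∏ l, (ZMod.stdAddChar (h l * z l) : ℂ) :=
    fun h => psi_sum _ _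
  simp only [h1]
  rw [← Fintype.piFinset_univ, ← prod_univ_sum (fun _ => univ) (fun l x => (ZMod.stdAddChar (x * z l) : ℂ))]
  have h2 : ∀ l, ∑ x : ZMod q, (ZMod.stdAddChar (x * z l) : ℂ) = if z l = 0 then (q : ℂ) else 0 := by
    intro l
    rw [AddChar.sum_mulShift _ (ZMod.isPrimitive_stdAddChar q), ZMod.card]
    push_cast
    rfl
  simp only [h2]
  by_cases hz : z = 0
  · subst hz
    simp
  · rw [if_neg hz]
    obtain ⟨l, hl⟩ := Function.ne_iff.1 hz
    exact prod_eq_zero (mem_univ l) (if_neg hl)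

section
variable {ι : Type} [Fintype ι] {q R : ℕ} [NeZero q]

open Classical in
lemma count_le (p : ℕ) (η : ℝ) (hη : 0 ≤ η) (y : ι → Fin R → ZMod q)
    (hy : ∀ h : Fin R → ZMod q, h ≠ 0 → ‖∑ i, (ZMod.stdAddChar (∑ l, h l * y i l) : ℂ)‖ ≤ η * Fintype.card ι)
    (w : Fin R → ZMod q) :
    (((univ : Finset ((Fin p → ι) × (Fin p → ι))).filter fun t => ∑ j, y (t.1 j) - ∑ j, y (t.2 j) = w).card : ℝ) *
      (q : ℝ) ^ R ≤ (1 + (q : ℝ) ^ R * η ^ (2 * p)) * (Fintype.card ι : ℝ) ^ (2 * p) := by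
  set S : (Fin R → ZMod q) → ℂ := fun h => ∑ i, (ZMod.stdAddChar (∑ l, h l * y i l) : ℂ) with hS
  set c : (Fin R → ZMod q) → (Fin R → ZMod q) → ZMod q := fun h z => ∑ l, h l * z l with hc
  have hcadd : ∀ h z z', c h (z + z') = c h z + c h z' := by
    intro h z z'
    simp only [hc, Pi.add_apply, mul_add, sum_add_distrib]
  have hcsub : ∀ h z z', c h (z - z') = c h z - c h z' := by
    intro h z z'
    simp only [hc, Pi.sub_apply, mul_sub, sum_sub_distrib]
  have hcsum : ∀ h (a : Fin p → ι), c h (∑ j, y (a j)) = ∑ j, c h (y (a j)) := by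
    intro h a
    simp only [hc, Finset.sum_apply, mul_sum]
    rw [sum_comm]
  have hA : ∀ h, ∑ a : Fin p → ι, (ZMod.stdAddChar (c h (∑ j, y (a j))) : ℂ) = S h ^ p := by
    intro h
    have e1 : ∀ a : Fin p → ι, (ZMod.stdAddChar (c h (∑ j, y (a j))) : ℂ) =
        ∏ j, (ZMod.stdAddChar (c h (y (a j))) : ℂ) := by
      intro a
      rw [hcsum]
      exact psi_sum _ _
    simp only [e1]
    rw [← Fintype.piFinset_univ, ← prod_univ_sum (fun _ => univ) (fun _ x => (ZMod.stdAddChar (c h (y x)) : ℂ)), prod_const,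
      card_univ, Fintype.card_fin]
  have hB : ∀ h, ∑ a : Fin p → ι, (ZMod.stdAddChar (-(c h (∑ j, y (a j)))) : ℂ) = (starRingEnd ℂ (S h)) ^ p := by
    intro h
    rw [← map_pow, ← hA h, map_sum]
    exact sum_congr rfl fun a _ => AddChar.map_neg_eq_conj _ _
  have hkey : ((((univ : Finset ((Fin p → ι) × (Fin p → ι))).filter fun t => ∑ j, y (t.1 j) - ∑ j, y (t.2 j) = w).card : ℂ)) *
      (q : ℂ) ^ R = ∑ h, (ZMod.stdAddChar (-(c h w)) : ℂ) * (S h ^ p * (starRingEnd ℂ (S h)) ^ p) := by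
    rw [card_filter]
    push_cast
    rw [sum_mul]
    have e2 : ∀ t : (Fin p → ι) × (Fin p → ι), (if ∑ j, y (t.1 j) - ∑ j, y (t.2 j) = w then (1 : ℂ) else 0) * (q : ℂ) ^ R =
        ∑ h, (ZMod.stdAddChar (-(c h w)) : ℂ) * ((ZMod.stdAddChar (c h (∑ j, y (t.1 j))) : ℂ) *
          (ZMod.stdAddChar (-(c h (∑ j, y (t.2 j)))) : ℂ)) := by
      intro t
      have e3 := orth (q := q) (∑ j, y (t.1 j) - ∑ j, y (t.2 j) - w)
      rw [show (if ∑ j, y (t.1 j) - ∑ j, y (t.2 j) = w then (1 : ℂ) else 0) * (q : ℂ) ^ R =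
        if ∑ j, y (t.1 j) - ∑ j, y (t.2 j) - w = 0 then (q : ℂ) ^ R else 0 by
          simp only [sub_eq_zero]
          split_ifs <;> simp, ← e3]
      refine sum_congr rfl fun h _ => ?_
      rw [← AddChar.map_add_eq_mul, ← AddChar.map_add_eq_mul]
      congr 1
      have e4 : ∑ l, h l * (∑ j, y (t.1 j) - ∑ j, y (t.2 j) - w) l = c h (∑ j, y (t.1 j) - ∑ j, y (t.2 j) - w) := rfl
      rw [e4, hcsub, hcsub]
      ring
    simp only [e2]
    rw [sum_comm]
    refine sum_congr rfl fun h _ => ?_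
    rw [← mul_sum, ← hA h, ← hB h, sum_mul_sum, ← univ_product_univ, sum_product]
  have hcard : (0 : ℝ) ≤ Fintype.card ι := Nat.cast_nonneg _
  have h0 : ∀ h, ‖(ZMod.stdAddChar (-(c h w)) : ℂ) * (S h ^ p * (starRingEnd ℂ (S h)) ^ p)‖ = ‖S h‖ ^ (2 * p) := by
    intro h
    rw [norm_mul, norm_mul, norm_pow, norm_pow, RCLike.norm_conj, AddChar.norm_apply, one_mul]
    ring
  have hS0 : ‖S 0‖ ≤ Fintype.card ι := by
    refine (norm_sum_le _ _).trans ?_
    simp
  have hfin : ‖((((univ : Finset ((Fin p → ι) × (Fin p → ι))).filter fun t => ∑ j, y (t.1 j) - ∑ j, y (t.2 j) = w).card : ℂ)) *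
      (q : ℂ) ^ R‖ ≤ (1 + (q : ℝ) ^ R * η ^ (2 * p)) * (Fintype.card ι : ℝ) ^ (2 * p) := by
    rw [hkey]
    refine (norm_sum_le _ _).trans ?_
    simp only [h0]
    rw [← add_sum_erase _ _ (mem_univ (0 : Fin R → ZMod q))]
    have e5 : ∑ h ∈ univ.erase (0 : Fin R → ZMod q), ‖S h‖ ^ (2 * p) ≤
        (q : ℝ) ^ R * (η ^ (2 * p) * (Fintype.card ι : ℝ) ^ (2 * p)) := by
      refine (sum_le_card_nsmul _ _ (η ^ (2 * p) * (Fintype.card ι : ℝ) ^ (2 * p)) fun h hh => ?_).trans ?_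
      · rw [← mul_pow]
        exact pow_le_pow_left₀ (norm_nonneg _) (hy h (ne_of_mem_erase hh)) _
      · rw [nsmul_eq_mul]
        refine mul_le_mul_of_nonneg_right ?_ (by positivity)
        have e6 : (univ.erase (0 : Fin R → ZMod q)).card ≤ q ^ R := by
          refine (card_le_univ _).trans (le_of_eq ?_)
          rw [Fintype.card_fun, ZMod.card, Fintype.card_fin]
        exact_mod_cast e6
    have e7 : ‖S 0‖ ^ (2 * p) ≤ (Fintype.card ι : ℝ) ^ (2 * p) := pow_le_pow_left₀ (norm_nonneg _) hS0 _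
    calc ‖S 0‖ ^ (2 * p) + ∑ h ∈ univ.erase (0 : Fin R → ZMod q), ‖S h‖ ^ (2 * p) ≤
        (Fintype.card ι : ℝ) ^ (2 * p) + (q : ℝ) ^ R * (η ^ (2 * p) * (Fintype.card ι : ℝ) ^ (2 * p)) := add_le_add e7 e5
      _ = _ := by ring
  have h8 : ‖((((univ : Finset ((Fin p → ι) × (Fin p → ι))).filter fun t => ∑ j, y (t.1 j) - ∑ j, y (t.2 j) = w).card : ℂ)) *
      (q : ℂ) ^ R‖ = (((univ : Finset ((Fin p → ι) × (Fin p → ι))).filter fun t =>
        ∑ j, y (t.1 j) - ∑ j, y (t.2 j) = w).card : ℝ) * (q : ℝ) ^ R := by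
    rw [norm_mul, norm_pow, Complex.norm_natCast, Complex.norm_natCast]
  rw [← h8]
  exact hfin

open Classical in
/-- **The energy of the integers with digits `y i`.** -/
theorem energy_le (p : ℕ) (η : ℝ) (hη : 0 ≤ η) (y : ι → Fin R → ZMod q)
    (hy : ∀ h : Fin R → ZMod q, h ≠ 0 → ‖∑ i, (ZMod.stdAddChar (∑ l, h l * y i l) : ℂ)‖ ≤ η * Fintype.card ι) (c : ℤ) :
    (Nat.card {t : (Fin p → ι) × (Fin p → ι) // ∑ j, (c + (num (y (t.1 j)) : ℤ)) = ∑ j, (c + (num (y (t.2 j)) : ℤ))} : ℝ) *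
      (q : ℝ) ^ R ≤ (2 * p + 1 : ℝ) ^ R * ((1 + (q : ℝ) ^ R * η ^ (2 * p)) * (Fintype.card ι : ℝ) ^ (2 * p)) := by
  have hq : 0 < q := Nat.pos_of_ne_zero (NeZero.ne q)
  rw [Nat.card_eq_fintype_card, Fintype.card_subtype]
  set Es : Finset (Fin R → ℤ) := Fintype.piFinset fun _ => Icc (-(p : ℤ)) p with hEs
  have hsub : (univ.filter fun t : (Fin p → ι) × (Fin p → ι) =>
      ∑ j, (c + (num (y (t.1 j)) : ℤ)) = ∑ j, (c + (num (y (t.2 j)) : ℤ))) ⊆
      Es.biUnion fun e => univ.filter fun t : (Fin p → ι) × (Fin p → ι) =>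
        ∑ j, y (t.1 j) - ∑ j, y (t.2 j) = fun l => -((e l : ℤ) : ZMod q) := by
    intro t ht
    rw [mem_filter] at ht
    have h1 := ht.2
    set D : Fin R → ℤ := fun l => ∑ j, (((y (t.1 j) l).val : ℕ) : ℤ) - ∑ j, (((y (t.2 j) l).val : ℕ) : ℤ) with hD
    have hval : ∀ a : Fin p → ι, ∀ l, 0 ≤ ∑ j, (((y (a j) l).val : ℕ) : ℤ) ∧
        ∑ j, (((y (a j) l).val : ℕ) : ℤ) ≤ p * (q - 1) := by
      intro a l
      refine ⟨sum_nonneg fun j _ => by positivity, ?_⟩
      refine (sum_le_card_nsmul _ _ ((q : ℤ) - 1) fun j _ => ?_).trans (le_of_eq ?_)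
      · have := ZMod.val_lt (y (a j) l)
        omega
      · rw [card_univ, Fintype.card_fin, nsmul_eq_mul]
    have hD' : ∀ l, |D l| ≤ p * (q - 1) := by
      intro l
      have h2 := hval t.1 l
      have h3 := hval t.2 l
      rw [abs_le]
      constructor <;> simp only [hD] <;> linarith [h2.1, h2.2, h3.1, h3.2]
    have hsum : ∑ l, D l * (q : ℤ) ^ (l : ℕ) = 0 := by
      have h4 : ∑ j, ((num (y (t.1 j)) : ℕ) : ℤ) = ∑ j, ((num (y (t.2 j)) : ℕ) : ℤ) := by
        rw [sum_add_distrib, sum_add_distrib] at h1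
        linarith
      have h5 : ∀ a : Fin p → ι, ∑ j, ((num (y (a j)) : ℕ) : ℤ) =
          ∑ l, (∑ j, (((y (a j) l).val : ℕ) : ℤ)) * (q : ℤ) ^ (l : ℕ) := by
        intro a
        simp only [num, Nat.cast_sum, Nat.cast_mul, Nat.cast_pow, sum_mul]
        rw [sum_comm]
      simp only [hD, sub_mul, sum_sub_distrib]
      rw [← h5, ← h5, h4, sub_self]
    obtain ⟨E, hE1, hE2⟩ := carries q p hq R 0 D (by simp) hD' (by rw [hsum, add_zero]; exact dvd_zero _)
    rw [mem_biUnion]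
    refine ⟨E, ?_, ?_⟩
    · rw [hEs, Fintype.mem_piFinset]
      intro l
      rw [mem_Icc]
      exact abs_le.1 (hE1 l)
    · rw [mem_filter]
      refine ⟨mem_univ _, ?_⟩
      funext l
      have h6 := (ZMod.intCast_zmod_eq_zero_iff_dvd (D l + E l) q).2 (hE2 l)
      have h7 : ((D l : ℤ) : ZMod q) = ∑ j, y (t.1 j) l - ∑ j, y (t.2 j) l := by
        simp only [hD]
        push_cast
        simp only [ZMod.natCast_val, ZMod.cast_id', id_eq]
      rw [Pi.sub_apply, Finset.sum_apply, Finset.sum_apply, ← h7]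
      push_cast at h6
      exact eq_neg_of_add_eq_zero_left h6
  have hEcard : (Es.card : ℝ) = (2 * p + 1 : ℝ) ^ R := by
    rw [hEs, Fintype.card_piFinset, prod_const, card_univ, Fintype.card_fin, Int.card_Icc]
    push_cast
    congr 1
    have : ((p : ℤ) + 1 - -(p : ℤ)).toNat = 2 * p + 1 := by omega
    rw [this]
    push_cast
    ring
  have hqR : (0 : ℝ) ≤ (q : ℝ) ^ R := by positivity
  calc _ ≤ ((∑ e ∈ Es, (univ.filter fun t : (Fin p → ι) × (Fin p → ι) =>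
        ∑ j, y (t.1 j) - ∑ j, y (t.2 j) = fun l => -((e l : ℤ) : ZMod q)).card : ℕ) : ℝ) * (q : ℝ) ^ R := by
        refine mul_le_mul_of_nonneg_right ?_ hqR
        exact_mod_cast (card_le_card hsub).trans card_biUnion_le
    _ = ∑ e ∈ Es, ((univ.filter fun t : (Fin p → ι) × (Fin p → ι) =>
        ∑ j, y (t.1 j) - ∑ j, y (t.2 j) = fun l => -((e l : ℤ) : ZMod q)).card : ℝ) * (q : ℝ) ^ R := by
        rw [← sum_mul]
        push_cast
        rfl
    _ ≤ ∑ _e ∈ Es, (1 + (q : ℝ) ^ R * η ^ (2 * p)) * (Fintype.card ι : ℝ) ^ (2 * p) :=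
        sum_le_sum fun e _ => count_le p η hη y hy _
    _ = _ := by rw [sum_const, nsmul_eq_mul, hEcard]

end

end Pool.Agent.U569.APL
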