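import Pool.Agent.U569.APL.Gen

set_option autoImplicit false

/-! # The products of the elements of two arbitrary sets in an extension of the field of `p` elements, as families of
vectors of residues with small Fourier coefficients -/

namespace Pool.Agent.U569.APL

open Finset Filter
open Pool.Agent.N384.VF (Flat VFam)

section
variable {K : Type} [Field K] [Fintype K] [DecidableEq K]

omit [DecidableEq K] in
lemma ch_norm (ψ : AddChar K ℂ) (a : K) : ‖ψ a‖ = 1 := AddChar.norm_apply _ _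

/-- the exponential sums of the products of the elements of two sets -/
theorem bias_field (ψ : AddChar K ℂ) (hψ : ψ.IsPrimitive) (E F : Finset K) (f g : K → ℂ) (hf : ∀ x, ‖f x‖ = 1)
    (hg : ∀ x, ‖g x‖ = 1) :
    ‖∑ z ∈ E ×ˢ F, f z.1 * g z.2 * ψ (z.1 * z.2)‖ ^ 2 ≤ (E.card : ℝ) * F.card * Fintype.card K := by
  have h1 : ∑ z ∈ E ×ˢ F, f z.1 * g z.2 * ψ (z.1 * z.2) = ∑ y ∈ F, g y * ∑ x ∈ E, f x * ψ (x * y) := by
    rw [sum_product_right]
    refine sum_congr rfl fun y _ => ?_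
    rw [mul_sum]
    exact sum_congr rfl fun x _ => by ring
  have h2 : ‖∑ y ∈ F, g y * ∑ x ∈ E, f x * ψ (x * y)‖ ≤ ∑ y ∈ F, ‖∑ x ∈ E, f x * ψ (x * y)‖ := by
    refine (norm_sum_le _ _).trans (le_of_eq (sum_congr rfl fun y _ => ?_))
    rw [norm_mul, hg, one_mul]
  have h3 : (∑ y ∈ F, ‖∑ x ∈ E, f x * ψ (x * y)‖) ^ 2 ≤ F.card * ∑ y ∈ F, ‖∑ x ∈ E, f x * ψ (x * y)‖ ^ 2 :=
    sq_sum_le_card_mul_sum_sq
  have h4 : ∑ y ∈ F, ‖∑ x ∈ E, f x * ψ (x * y)‖ ^ 2 ≤ ∑ y : K, ‖∑ x ∈ E, f x * ψ (x * y)‖ ^ 2 :=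
    sum_le_sum_of_subset_of_nonneg (subset_univ _) fun _ _ _ => by positivity
  have h5 : ((∑ y : K, ‖∑ x ∈ E, f x * ψ (x * y)‖ ^ 2 : ℝ) : ℂ) = ((E.card : ℝ) * Fintype.card K : ℝ) := by
    push_cast
    have h6 : ∀ y : K, ((‖∑ x ∈ E, f x * ψ (x * y)‖ : ℂ)) ^ 2 =
        ∑ x ∈ E, ∑ x' ∈ E, f x * (starRingEnd ℂ) (f x') * ψ (y * (x - x')) := by
      intro y
      rw [← Complex.mul_conj', map_sum, sum_mul_sum]
      refine sum_congr rfl fun x _ => sum_congr rfl fun x' _ => ?_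
      have e1 : ψ (y * (x - x')) = ψ (x * y) * (starRingEnd ℂ) (ψ (x' * y)) := by
        rw [← AddChar.map_neg_eq_conj, ← AddChar.map_add_eq_mul]
        congr 1
        ring
      have e2 : (starRingEnd ℂ) (f x' * ψ (x' * y)) = (starRingEnd ℂ) (f x') * (starRingEnd ℂ) (ψ (x' * y)) := map_mul _ _ _
      rw [e1, e2]
      ring
    rw [sum_congr rfl fun y _ => h6 y, sum_comm]
    have h7 : ∀ x ∈ E, ∑ y : K, ∑ x' ∈ E, f x * (starRingEnd ℂ) (f x') * ψ (y * (x - x')) =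
        (Fintype.card K : ℂ) := by
      intro x hx
      rw [sum_comm]
      have h8 : ∀ x' ∈ E, ∑ y : K, f x * (starRingEnd ℂ) (f x') * ψ (y * (x - x')) =
          if x = x' then (Fintype.card K : ℂ) else 0 := by
        intro x' _
        rw [← mul_sum, AddChar.sum_mulShift _ hψ]
        by_cases h : x = x'
        · subst h
          rw [sub_self, if_pos rfl, if_pos rfl, Complex.mul_conj', hf]
          push_cast
          ring
        · rw [if_neg (sub_ne_zero.2 h), if_neg h]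
          simp
      rw [sum_congr rfl h8, sum_ite_eq, if_pos hx]
    rw [sum_congr rfl h7, sum_const, nsmul_eq_mul]
  have h6 : ∑ y : K, ‖∑ x ∈ E, f x * ψ (x * y)‖ ^ 2 = (E.card : ℝ) * Fintype.card K := by exact_mod_cast h5
  rw [h1]
  calc _ ≤ (∑ y ∈ F, ‖∑ x ∈ E, f x * ψ (x * y)‖) ^ 2 := pow_le_pow_left₀ (norm_nonneg _) h2 2
    _ ≤ F.card * ∑ y ∈ F, ‖∑ x ∈ E, f x * ψ (x * y)‖ ^ 2 := h3
    _ ≤ F.card * ((E.card : ℝ) * Fintype.card K) := by
        apply mul_le_mul_of_nonneg_left _ (Nat.cast_nonneg _)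
        exact h4.trans h6.le
    _ = _ := by ring

end

/-- the products of the elements of two sets in the field of `p ^ r` elements -/
theorem vfam_field (r : ℕ) (δ : ℝ) (hδ : 0 < δ) (hδ1 : δ ≤ 1) (Z₀ : ℝ) :
    ∃ p₀ : ℕ, ∀ (p : ℕ) (_ : p.Prime) [NeZero p], p₀ ≤ p → Z₀ ≤ (p : ℝ) ^ (δ / 8) ∧
    ∀ (K : Type) [Field K] [Algebra (ZMod p) K] (b : Module.Basis (Fin r) (ZMod p) K) (E F : Finset K)
      (u v : K → Fin r → ZMod p), (p : ℝ) ^ ((r : ℝ) + δ) ≤ E.card * F.card →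
    VFam p (E ×ˢ F) (fun z l => b.repr (z.1 * z.2) l + u z.1 l + v z.2 l) ((p : ℝ) ^ (δ / 8)) := by
  have E1 : ∀ᶠ x : ℝ in atTop, Z₀ ≤ x ^ (δ / 8) :=
    (tendsto_rpow_atTop (by positivity)).eventually_ge_atTop _
  have E3 : ∀ᶠ x : ℝ in atTop, (42 + 3 * Real.log x) ^ r ≤ x ^ (δ / 8) := by
    by_cases hL : r = 0
    · subst hL
      filter_upwards [(tendsto_rpow_atTop (show 0 < δ / 8 by positivity)).eventually_ge_atTop (1 : ℝ)] with x hx
      simpa using hx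
    have hL0 : (0 : ℝ) < r := by exact_mod_cast Nat.pos_of_ne_zero hL
    have h1 := (isLittleO_log_rpow_atTop (show 0 < δ / 8 / r by positivity)).def
      (show (0 : ℝ) < 1 / 6 by norm_num)
    filter_upwards [h1, (tendsto_rpow_atTop (show 0 < δ / 8 / r by positivity)).eventually_ge_atTop (84 : ℝ),
      eventually_ge_atTop (1 : ℝ)] with x hx hx2 hx1
    have hx0 : (0 : ℝ) < x := by linarith
    have hlog : 0 ≤ Real.log x := Real.log_nonneg hx1
    rw [Real.norm_of_nonneg hlog, Real.norm_of_nonneg (by positivity)] at hx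
    calc (42 + 3 * Real.log x) ^ r ≤ (x ^ (δ / 8 / r)) ^ r := by
          apply pow_le_pow_left₀ (by positivity)
          linarith
      _ = x ^ (δ / 8) := by
          rw [← Real.rpow_natCast, ← Real.rpow_mul hx0.le]
          congr 1
          field_simp
  obtain ⟨x₀, hx₀⟩ := eventually_atTop.mp (E1.and E3)
  obtain ⟨p₂, hp₂⟩ := exists_nat_ge x₀
  refine ⟨p₂, fun p hp _ hpp => ?_⟩
  obtain ⟨g1, g3⟩ := hx₀ p (hp₂.trans (by exact_mod_cast hpp))
  refine ⟨g1, fun K _ _ b E F u v hEF => ?_⟩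
  classical
  have : Fact p.Prime := ⟨hp⟩
  have hp1 : (1 : ℝ) < p := by exact_mod_cast hp.one_lt
  have hp0 : (0 : ℝ) < p := by linarith
  haveI hM : Module.Finite (ZMod p) K := Module.Finite.of_basis b
  haveI : Finite K := Module.finite_of_finite (ZMod p)
  have : Fintype K := Fintype.ofFinite K
  have hcard : Fintype.card K = p ^ r := by
    rw [Module.card_fintype b, ZMod.card, Fintype.card_fin]
  refine ⟨?_, fun α hα => ?_⟩
  · calc (p : ℝ) ^ (δ / 8) ≤ (p : ℝ) ^ (1 : ℝ) := Real.rpow_le_rpow_of_exponent_le hp1.le (by linarith)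
      _ = p := Real.rpow_one _
  -- the linear functional
  set lam : K →ₗ[ZMod p] ZMod p := ∑ l, α l • b.coord l with hlam
  have hlx : ∀ x, lam x = ∑ l, α l * b.repr x l := by
    intro x
    rw [hlam]
    simp [LinearMap.sum_apply]
  set ψ : AddChar K ℂ := (ZMod.stdAddChar (N := p)).compAddMonoidHom lam.toAddMonoidHom with hψ
  have hψx : ∀ x, ψ x = ZMod.stdAddChar (∑ l, α l * b.repr x l) := by
    intro x
    rw [← hlx]
    rfl
  have hψ1 : ψ ≠ 1 := by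
    intro h
    obtain ⟨l, hl⟩ : ∃ l, α l ≠ 0 := by
      by_contra h
      push Not at h
      exact hα (funext h)
    have hpr := ZMod.isPrimitive_stdAddChar p
    have h2 : ∀ t : ZMod p, (ZMod.stdAddChar (α l * t) : ℂ) = 1 := by
      intro t
      have h3 : ψ (t • b l) = 1 := by rw [h]; rfl
      rw [hψx] at h3
      have h4 : ∑ l', α l' * b.repr (t • b l) l' = α l * t := by
        rw [sum_eq_single l]
        · simp
        · intro l' _ hne
          simp [Ne.symm hne]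
        · intro h
          exact absurd (mem_univ l) h
      rwa [h4] at h3
    have h5 := hpr hl
    apply h5
    ext t
    rw [AddChar.mulShift_apply, h2]
    rfl
  have hprim : ψ.IsPrimitive := AddChar.IsPrimitive.of_ne_one hψ1
  have key := bias_field ψ hprim E F (fun x => ZMod.stdAddChar (∑ l, α l * u x l))
    (fun y => ZMod.stdAddChar (∑ l, α l * v y l)) (fun x => psi_norm _) (fun x => psi_norm _)
  have hsum : ∑ z ∈ E ×ˢ F, (ZMod.stdAddChar (∑ j, α j * (b.repr (z.1 * z.2) j + u z.1 j + v z.2 j)) : ℂ) =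
      ∑ z ∈ E ×ˢ F, (ZMod.stdAddChar (∑ l, α l * u z.1 l) : ℂ) * ZMod.stdAddChar (∑ l, α l * v z.2 l) *
        ψ (z.1 * z.2) := by
    refine sum_congr rfl fun z _ => ?_
    rw [hψx, ← psi_add, ← psi_add]
    congr 1
    rw [← sum_add_distrib, ← sum_add_distrib]
    refine sum_congr rfl fun j _ => ?_
    ring
  rw [hsum]
  have hlog : 0 ≤ Real.log (p : ℝ) := Real.log_nonneg hp1.le
  have hbase : (0 : ℝ) < 42 + 3 * Real.log p := by linarith
  have hEF0 : (0 : ℝ) < (E.card : ℝ) * F.card := lt_of_lt_of_le (Real.rpow_pos_of_pos hp0 _) hEF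
  apply le_of_sq_le_sq _ (by positivity)
  refine key.trans ?_
  rw [hcard, card_product, mul_pow]
  push_cast
  have h9 : ((p : ℝ) ^ (δ / 8) * (42 + 3 * Real.log p) ^ Fintype.card (Fin r)) ^ 2 ≤ (p : ℝ) ^ δ := by
    rw [Fintype.card_fin]
    calc ((p : ℝ) ^ (δ / 8) * (42 + 3 * Real.log p) ^ r) ^ 2 ≤ ((p : ℝ) ^ (δ / 8) * (p : ℝ) ^ (δ / 8)) ^ 2 := by
          gcongr
      _ = (p : ℝ) ^ (δ / 2) := by
          rw [← Real.rpow_add hp0, ← Real.rpow_natCast, ← Real.rpow_mul hp0.le]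
          congr 1
          push_cast
          ring
      _ ≤ (p : ℝ) ^ δ := Real.rpow_le_rpow_of_exponent_le hp1.le (by linarith)
  have h10 : 1 / (p : ℝ) ^ δ ≤ (1 / ((p : ℝ) ^ (δ / 8) * (42 + 3 * Real.log p) ^ Fintype.card (Fin r))) ^ 2 := by
    rw [div_pow, one_pow]
    exact one_div_le_one_div_of_le (by positivity) h9
  have h11 : (p : ℝ) ^ r ≤ 1 / (p : ℝ) ^ δ * ((E.card : ℝ) * F.card) := by
    rw [one_div, ← Real.rpow_neg hp0.le]
    calc (p : ℝ) ^ r = (p : ℝ) ^ (-δ) * (p : ℝ) ^ ((r : ℝ) + δ) := by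
          rw [← Real.rpow_add hp0, ← Real.rpow_natCast]
          congr 1
          ring
      _ ≤ _ := mul_le_mul_of_nonneg_left hEF (by positivity)
  calc (E.card : ℝ) * F.card * (p : ℝ) ^ r ≤ (E.card : ℝ) * F.card * (1 / (p : ℝ) ^ δ * ((E.card : ℝ) * F.card)) :=
        mul_le_mul_of_nonneg_left h11 hEF0.le
    _ = 1 / (p : ℝ) ^ δ * ((E.card : ℝ) * F.card) ^ 2 := by ring
    _ ≤ _ := mul_le_mul_of_nonneg_right h10 (by positivity)

/-- An assertion on almost all members of all families of vectors of residues with small Fourier coefficients holds for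
the products of the elements of two arbitrary sets in the field of `p ^ r` elements. -/
theorem field_of_fam (r : ℕ) (P : ℕ → (Fin r → ℤ) → Prop) (ε : ℝ)
    (h : ∃ Z₀ : ℕ, ∀ (τ : Type) (q : ℕ) [NeZero q] (s : Finset τ) (y : τ → Fin r → ZMod q) (Z : ℝ), Z₀ ≤ Z →
      VFam q s y Z → ∀ c₀ : Fin r → ℤ,
      ({i : τ | i ∈ s ∧ ¬ P ⌊Z⌋₊ (fun j => c₀ j + ((y i j).val : ℕ))}.ncard : ℝ) ≤ ε * s.card)
    (δ : ℝ) (hδ : 0 < δ) (hδ1 : δ ≤ 1) :
    ∃ p₀ : ℕ, ∀ p : ℕ, p.Prime → p₀ ≤ p →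
    ∀ (K : Type) [Field K] [Algebra (ZMod p) K] (b : Module.Basis (Fin r) (ZMod p) K) (E F : Finset K)
      (u v : K → Fin r → ZMod p), (p : ℝ) ^ ((r : ℝ) + δ) ≤ E.card * F.card → ∀ c₀ : Fin r → ℤ,
    ({z : K × K | (z.1 ∈ E ∧ z.2 ∈ F) ∧ ¬ P ⌊(p : ℝ) ^ (δ / 8)⌋₊
        (fun j => c₀ j + ((b.repr (z.1 * z.2) j + u z.1 j + v z.2 j).val : ℕ))}.ncard : ℝ) ≤
      ε * (E.card * F.card) := by
  obtain ⟨Z₀, h1⟩ := h
  obtain ⟨p₀, h2⟩ := vfam_field r δ hδ hδ1 Z₀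
  refine ⟨p₀, fun p hp hpp K _ _ b E F u v hEF c₀ => ?_⟩
  have : NeZero p := ⟨hp.ne_zero⟩
  obtain ⟨h3, h4⟩ := h2 p hp hpp
  have h5 := h1 (K × K) p (E ×ˢ F) _ _ h3 (h4 K b E F u v hEF) c₀
  rw [card_product] at h5
  push_cast at h5
  simp only [mem_product] at h5
  exact h5

/-- the same with bounded translations -/
theorem field_of_famB (r : ℕ) (P : (Fin r → ℤ) → Prop) (ε : ℝ) (B : ℕ) (δ : ℝ) (hδ : 0 < δ) (hδ1 : δ ≤ 1)
    (h : ∃ Z₀ : ℕ, ∀ (τ : Type) (q : ℕ) [NeZero q] (s : Finset τ) (y : τ → Fin r → ZMod q) (Z : ℝ), Z₀ ≤ Z →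
      (q : ℝ) ^ (δ / 8) ≤ Z → VFam q s y Z → ∀ c₀ : Fin r → ℤ, (∀ j, |(c₀ j : ℝ)| ≤ (q : ℝ) ^ B) →
      ({i : τ | i ∈ s ∧ ¬ P (fun j => c₀ j + ((y i j).val : ℕ))}.ncard : ℝ) ≤ ε * s.card) :
    ∃ p₀ : ℕ, ∀ p : ℕ, p.Prime → p₀ ≤ p →
    ∀ (K : Type) [Field K] [Algebra (ZMod p) K] (b : Module.Basis (Fin r) (ZMod p) K) (E F : Finset K)
      (u v : K → Fin r → ZMod p), (p : ℝ) ^ ((r : ℝ) + δ) ≤ E.card * F.card →
    ∀ c₀ : Fin r → ℤ, (∀ j, |(c₀ j : ℝ)| ≤ (p : ℝ) ^ B) →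
    ({z : K × K | (z.1 ∈ E ∧ z.2 ∈ F) ∧ ¬ P
        (fun j => c₀ j + ((b.repr (z.1 * z.2) j + u z.1 j + v z.2 j).val : ℕ))}.ncard : ℝ) ≤
      ε * (E.card * F.card) := by
  obtain ⟨Z₀, h1⟩ := h
  obtain ⟨p₀, h2⟩ := vfam_field r δ hδ hδ1 Z₀
  refine ⟨p₀, fun p hp hpp K _ _ b E F u v hEF c₀ hc₀ => ?_⟩
  have : NeZero p := ⟨hp.ne_zero⟩
  obtain ⟨h3, h4⟩ := h2 p hp hpp
  have h5 := h1 (K × K) p (E ×ˢ F) _ _ h3 le_rfl (h4 K b E F u v hEF) c₀ hc₀
  rw [card_product] at h5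
  push_cast at h5
  simp only [mem_product] at h5
  exact h5

end Pool.Agent.U569.APL
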