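import Pool.Agent.U569.APL.Bias
import Pool.Agent.N384.VF.Seq
import Pool.Agent.N666.TM.Exact

set_option autoImplicit false

/-! # The values of polynomials in several variables on product sets, as families of vectors of residues with small
Fourier coefficients -/

namespace Pool.Agent.U569.APL

open Finset Filter
open Pool.Agent.N384.VF (Flat VFam transfer)
open Pool.Agent.N666.TM (Ex ex_dens)

/-- `F` has a monomial which contains at least two different variables. -/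
def Mixed {p k : ℕ} (F : MvPolynomial (Fin k) (ZMod p)) : Prop :=
  ∃ m ∈ F.support, ∃ i j : Fin k, i ≠ j ∧ m i ≠ 0 ∧ m j ≠ 0

/-- polynomials on product sets of `p ^ (1/2 + δ)` residues have small Fourier coefficients -/
theorem vfam_prod (L : ℕ) (δ : ℝ) (hδ : 0 < δ) (hδ1 : δ ≤ 1) (Z₀ : ℝ) :
    ∃ p₀ : ℕ, ∀ (p : ℕ) (_ : p.Prime) [NeZero p], p₀ ≤ p → Z₀ ≤ (p : ℝ) ^ (δ / 8) ∧
    ∀ (k : ℕ) (F : Fin L → MvPolynomial (Fin k) (ZMod p)) (A : Fin k → Finset (ZMod p))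
      (u : Fin k → ZMod p → Fin L → ZMod p),
    (∀ l, ((F l).totalDegree : ℝ) ≤ (p : ℝ) ^ (δ / 4)) →
    (∀ α : Fin L → ZMod p, α ≠ 0 → Mixed (∑ l, MvPolynomial.C (α l) * F l)) →
    (∀ i, (p : ℝ) ^ (1 / 2 + δ) ≤ (A i).card) →
    VFam p (Fintype.piFinset A) (fun a l => MvPolynomial.eval a (F l) + ∑ i, u i (a i) l)
      ((p : ℝ) ^ (δ / 8)) := by
  have E1 : ∀ᶠ x : ℝ in atTop, Z₀ ≤ x ^ (δ / 8) :=
    (tendsto_rpow_atTop (by positivity)).eventually_ge_atTop _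
  have E2 : ∀ᶠ x : ℝ in atTop, 2 ≤ x ^ (δ / 4) :=
    (tendsto_rpow_atTop (by positivity)).eventually_ge_atTop _
  have E3 : ∀ᶠ x : ℝ in atTop, (42 + 3 * Real.log x) ^ L ≤ x ^ (δ / 8) := by
    by_cases hL : L = 0
    · subst hL
      filter_upwards [(tendsto_rpow_atTop (show 0 < δ / 8 by positivity)).eventually_ge_atTop (1 : ℝ)] with x hx
      simpa using hx
    have hL0 : (0 : ℝ) < L := by exact_mod_cast Nat.pos_of_ne_zero hL
    have h1 := (isLittleO_log_rpow_atTop (show 0 < δ / 8 / L by positivity)).def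
      (show (0 : ℝ) < 1 / 6 by norm_num)
    filter_upwards [h1, (tendsto_rpow_atTop (show 0 < δ / 8 / L by positivity)).eventually_ge_atTop (84 : ℝ),
      eventually_ge_atTop (1 : ℝ)] with x hx hx2 hx1
    have hx0 : (0 : ℝ) < x := by linarith
    have hlog : 0 ≤ Real.log x := Real.log_nonneg hx1
    rw [Real.norm_of_nonneg hlog, Real.norm_of_nonneg (by positivity)] at hx
    calc (42 + 3 * Real.log x) ^ L ≤ (x ^ (δ / 8 / L)) ^ L := by
          apply pow_le_pow_left₀ (by positivity)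
          linarith
      _ = x ^ (δ / 8) := by
          rw [← Real.rpow_natCast, ← Real.rpow_mul hx0.le]
          congr 1
          field_simp
  obtain ⟨x₀, hx₀⟩ := eventually_atTop.mp (E1.and (E2.and E3))
  obtain ⟨p₂, hp₂⟩ := exists_nat_ge x₀
  refine ⟨p₂, fun p hp _ hpp => ?_⟩
  obtain ⟨g1, g2, g3⟩ := hx₀ p (hp₂.trans (by exact_mod_cast hpp))
  refine ⟨g1, fun k F A u hD hF hA => ?_⟩
  have : Fact p.Prime := ⟨hp⟩
  have hp1 : (1 : ℝ) < p := by exact_mod_cast hp.one_lt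
  have hp0 : (0 : ℝ) < p := by linarith
  set D := ⌊(p : ℝ) ^ (δ / 4)⌋₊ with hDdef
  have hDle : (D : ℝ) ≤ (p : ℝ) ^ (δ / 4) := Nat.floor_le (by positivity)
  have hDp : D < p := by
    have h1 : (p : ℝ) ^ (δ / 4) < (p : ℝ) ^ (1 : ℝ) :=
      Real.rpow_lt_rpow_of_exponent_lt hp1 (by linarith)
    rw [Real.rpow_one] at h1
    exact_mod_cast hDle.trans_lt h1
  have hDeg : ∀ l, (F l).totalDegree ≤ D := fun l => Nat.le_floor (hD l)
  refine ⟨?_, fun α hα => ?_⟩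
  · calc (p : ℝ) ^ (δ / 8) ≤ (p : ℝ) ^ (1 : ℝ) := Real.rpow_le_rpow_of_exponent_le hp1.le (by linarith)
      _ = p := Real.rpow_one _
  obtain ⟨P, hP⟩ : ∃ P : ℝ, P = (p : ℝ) ^ (1 / 2 + δ) := ⟨_, rfl⟩
  have hP0 : 0 < P := by rw [hP]; exact Real.rpow_pos_of_pos hp0 _
  have h1 := bias_prod A F D hDeg hDp u α (hF α hα) P hP0 (fun i => by rw [hP]; exact hA i)
  have hlog : 0 ≤ Real.log (p : ℝ) := Real.log_nonneg hp1.le
  have hbase : (0 : ℝ) < 42 + 3 * Real.log p := by linarith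
  apply le_of_sq_le_sq _ (by positivity)
  refine h1.trans ?_
  rw [mul_pow, mul_comm (((Fintype.piFinset A).card : ℝ) ^ 2)]
  apply mul_le_mul_of_nonneg_right _ (by positivity)
  obtain ⟨a, ha⟩ : ∃ a : ℝ, a = (p : ℝ) ^ δ := ⟨_, rfl⟩
  have ha0 : 0 < a := by rw [ha]; exact Real.rpow_pos_of_pos hp0 _
  have hPa : P = Real.sqrt p * a := by
    rw [hP, ha, Real.sqrt_eq_rpow, ← Real.rpow_add hp0]
  have hsq : Real.sqrt p * Real.sqrt p = p := Real.mul_self_sqrt hp0.le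
  have hs0 : 0 < Real.sqrt p := Real.sqrt_pos.2 hp0
  have ha1 : 1 ≤ a := by
    rw [ha]; exact Real.one_le_rpow hp1.le (by linarith)
  rw [hPa]
  have e1 : (D : ℝ) * (p / (Real.sqrt p * a) + Real.sqrt p) / (Real.sqrt p * a) =
      D * (1 / a + 1) / a := by
    have : (p : ℝ) / (Real.sqrt p * a) = Real.sqrt p / a := by
      rw [div_eq_div_iff (by positivity) (by positivity)]
      nlinarith [hsq]
    rw [this]
    field_simp
  rw [e1]
  have h7 : 1 / a ≤ 1 := by rw [div_le_one ha0]; exact ha1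
  have h8 : (D : ℝ) * (1 / a + 1) / a ≤ (p : ℝ) ^ (-(δ / 2)) := by
    rw [div_le_iff₀ ha0]
    calc (D : ℝ) * (1 / a + 1) ≤ (p : ℝ) ^ (δ / 4) * (p : ℝ) ^ (δ / 4) := by
          apply mul_le_mul hDle (by linarith) (by positivity) (by positivity)
      _ = (p : ℝ) ^ (-(δ / 2)) * a := by
          rw [ha, ← Real.rpow_add hp0, ← Real.rpow_add hp0]
          congr 1
          ring
  refine h8.trans ?_
  have h9 : ((p : ℝ) ^ (δ / 8) * (42 + 3 * Real.log p) ^ Fintype.card (Fin L)) ^ 2 ≤ (p : ℝ) ^ (δ / 2) := by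
    rw [Fintype.card_fin]
    calc ((p : ℝ) ^ (δ / 8) * (42 + 3 * Real.log p) ^ L) ^ 2 ≤ ((p : ℝ) ^ (δ / 8) * (p : ℝ) ^ (δ / 8)) ^ 2 := by
          gcongr
      _ = (p : ℝ) ^ (δ / 2) := by
          rw [← Real.rpow_add hp0, ← Real.rpow_natCast, ← Real.rpow_mul hp0.le]
          congr 1
          push_cast
          ring
  rw [div_pow, one_pow, Real.rpow_neg hp0.le, ← one_div]
  exact one_div_le_one_div_of_le (by positivity) h9

/-- almost all members of families of vectors of residues have, for every coordinate, an exact prime divisor above `D`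
which does not divide the others -/
theorem ex_fam (L D : ℕ) (ε : ℝ) (hε : 0 < ε) :
    ∃ Z₀ : ℕ, ∀ (τ : Type) (q : ℕ) [NeZero q] (s : Finset τ) (y : τ → Fin L → ZMod q) (Z : ℝ), Z₀ ≤ Z →
      VFam q s y Z → ∀ c₀ : Fin L → ℤ,
      ({i : τ | i ∈ s ∧ ¬ ∀ l : Fin L, ∃ p : ℕ, p.Prime ∧ D < p ∧
        Ex l p (fun j => c₀ j + ((y i j).val : ℕ))}.ncard : ℝ) ≤ ε * s.card :=
  transfer (ι := Fin L) (fun _ v => ∀ l : Fin L, ∃ p : ℕ, p.Prime ∧ D < p ∧ Ex l p v) ε hε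
    fun _ _ _ hκ hw => ex_dens hκ hw D ε hε

/-- the same for polynomials on product sets -/
theorem ex_prod (L D : ℕ) (ε δ : ℝ) (hε : 0 < ε) (hδ : 0 < δ) (hδ1 : δ ≤ 1) :
    ∃ p₀ : ℕ, ∀ (p : ℕ) (_ : p.Prime) [NeZero p], p₀ ≤ p →
    ∀ (k : ℕ) (F : Fin L → MvPolynomial (Fin k) (ZMod p)) (A : Fin k → Finset (ZMod p))
      (u : Fin k → ZMod p → Fin L → ZMod p),
    (∀ l, ((F l).totalDegree : ℝ) ≤ (p : ℝ) ^ (δ / 4)) →
    (∀ α : Fin L → ZMod p, α ≠ 0 → Mixed (∑ l, MvPolynomial.C (α l) * F l)) →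
    (∀ i, (p : ℝ) ^ (1 / 2 + δ) ≤ (A i).card) → ∀ c₀ : Fin L → ℤ,
    ({a : Fin k → ZMod p | a ∈ Fintype.piFinset A ∧ ¬ ∀ l : Fin L, ∃ q : ℕ, q.Prime ∧ D < q ∧
        Ex l q (fun j => c₀ j + ((MvPolynomial.eval a (F j) + ∑ i, u i (a i) j).val : ℕ))}.ncard : ℝ) ≤
      ε * (Fintype.piFinset A).card := by
  obtain ⟨Z₀, h1⟩ := ex_fam L D ε hε
  obtain ⟨p₀, h2⟩ := vfam_prod L δ hδ hδ1 Z₀
  refine ⟨p₀, fun p hp _ hpp k F A u hD hF hA c₀ => ?_⟩
  obtain ⟨h3, h4⟩ := h2 p hp hpp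
  exact h1 (Fin k → ZMod p) p (Fintype.piFinset A) _ _ h3 (h4 k F A u hD hF hA) c₀

end Pool.Agent.U569.APL
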