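import Pool.Agent.U569.APL.Flat

set_option autoImplicit false

/-! # From families of vectors of residues to values of polynomials on product sets -/

namespace Pool.Agent.U569.APL

open Finset Filter
open Pool.Agent.N384.VF (Flat VFam transfer transferK)

/-- An assertion on almost all members of all families of vectors of residues with small Fourier coefficients holds for
the values of polynomials on product sets. -/
theorem prod_of_fam (r : ℕ) (P : ℕ → (Fin r → ℤ) → Prop) (ε : ℝ)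
    (h : ∃ Z₀ : ℕ, ∀ (τ : Type) (q : ℕ) [NeZero q] (s : Finset τ) (y : τ → Fin r → ZMod q) (Z : ℝ), Z₀ ≤ Z →
      VFam q s y Z → ∀ c₀ : Fin r → ℤ,
      ({i : τ | i ∈ s ∧ ¬ P ⌊Z⌋₊ (fun j => c₀ j + ((y i j).val : ℕ))}.ncard : ℝ) ≤ ε * s.card)
    (δ : ℝ) (hδ : 0 < δ) (hδ1 : δ ≤ 1) :
    ∃ p₀ : ℕ, ∀ p : ℕ, p.Prime → p₀ ≤ p →
    ∀ (k : ℕ) (F : Fin r → MvPolynomial (Fin k) (ZMod p)) (A : Fin k → Finset (ZMod p))
      (u : Fin k → ZMod p → Fin r → ZMod p),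
    (∀ l, ((F l).totalDegree : ℝ) ≤ (p : ℝ) ^ (δ / 4)) →
    (∀ α : Fin r → ZMod p, α ≠ 0 → Mixed (∑ l, MvPolynomial.C (α l) * F l)) →
    (∀ i, (p : ℝ) ^ (1 / 2 + δ) ≤ (A i).card) → ∀ c₀ : Fin r → ℤ,
    ({a : Fin k → ZMod p | (∀ i, a i ∈ A i) ∧ ¬ P ⌊(p : ℝ) ^ (δ / 8)⌋₊
        (fun j => c₀ j + ((MvPolynomial.eval a (F j) + ∑ i, u i (a i) j).val : ℕ))}.ncard : ℝ) ≤
      ε * ∏ i, ((A i).card : ℝ) := by
  obtain ⟨Z₀, h1⟩ := h
  obtain ⟨p₀, h2⟩ := vfam_prod r δ hδ hδ1 Z₀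
  refine ⟨p₀, fun p hp hpp k F A u hD hF hA c₀ => ?_⟩
  have : NeZero p := ⟨hp.ne_zero⟩
  obtain ⟨h3, h4⟩ := h2 p hp hpp
  have h5 := h1 (Fin k → ZMod p) p (Fintype.piFinset A) _ _ h3 (h4 k F A u hD hF hA) c₀
  have h6 : ((Fintype.piFinset A).card : ℝ) = ∏ i, ((A i).card : ℝ) := by
    rw [Fintype.card_piFinset]; push_cast; rfl
  rw [h6] at h5
  simp only [Fintype.mem_piFinset] at h5
  exact h5

/-- the product of the variables in a set of indices -/
noncomputable def prd (p k : ℕ) (I : Finset (Fin k)) : MvPolynomial (Fin k) (ZMod p) :=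
  MvPolynomial.monomial (Finsupp.indicator I (fun _ _ => 1)) 1

lemma ind_apply {k : ℕ} (I : Finset (Fin k)) (i : Fin k) :
    (Finsupp.indicator I (fun _ _ => 1) : Fin k →₀ ℕ) i = if i ∈ I then 1 else 0 := by
  classical
  rw [Finsupp.indicator_apply]
  split_ifs <;> rfl

lemma ind_inj {k : ℕ} {I J : Finset (Fin k)}
    (h : (Finsupp.indicator I (fun _ _ => 1) : Fin k →₀ ℕ) = Finsupp.indicator J (fun _ _ => 1)) :
    I = J := by
  classical
  ext i
  have h1 := DFunLike.congr_fun h i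
  rw [ind_apply, ind_apply] at h1
  split_ifs at h1 with h2 h3 h3 <;> tauto

lemma prd_eval {p k : ℕ} [Fact p.Prime] (I : Finset (Fin k)) (a : Fin k → ZMod p) :
    MvPolynomial.eval a (prd p k I) = ∏ i ∈ I, a i := by
  classical
  unfold prd
  rw [MvPolynomial.eval_monomial, one_mul, Finsupp.prod_fintype _ _ (fun i => pow_zero _)]
  rw [← Finset.prod_subset (subset_univ I)]
  · exact prod_congr rfl fun i hi => by rw [ind_apply, if_pos hi, pow_one]
  · intro i _ hi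
    rw [ind_apply, if_neg hi, pow_zero]

lemma prd_deg {p k : ℕ} [Fact p.Prime] (I : Finset (Fin k)) : (prd p k I).totalDegree ≤ k := by
  classical
  unfold prd
  refine (MvPolynomial.totalDegree_monomial_le _ _).trans ?_
  rw [Finsupp.sum_fintype _ _ (fun _ => rfl)]
  calc ∑ i, (Finsupp.indicator I (fun _ _ => 1) : Fin k →₀ ℕ) i ≤ ∑ _i : Fin k, 1 :=
        sum_le_sum fun i _ => by rw [ind_apply]; split_ifs <;> omega
    _ = k := by simp

lemma mixed_prd {p k r : ℕ} [Fact p.Prime] (I : Fin r → Finset (Fin k)) (hI : Function.Injective I)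
    (hI2 : ∀ l, 2 ≤ (I l).card) (α : Fin r → ZMod p) (hα : α ≠ 0) :
    Mixed (∑ l, MvPolynomial.C (α l) * prd p k (I l)) := by
  classical
  obtain ⟨l, hl⟩ : ∃ l, α l ≠ 0 := by
    by_contra h
    push Not at h
    exact hα (funext h)
  obtain ⟨i, hi, j, hj, hij⟩ := Finset.one_lt_card.1 (show 1 < (I l).card from hI2 l)
  refine ⟨Finsupp.indicator (I l) (fun _ _ => 1), ?_, i, j, hij, ?_, ?_⟩
  · rw [MvPolynomial.mem_support_iff, MvPolynomial.coeff_sum, sum_eq_single l]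
    · rw [MvPolynomial.coeff_C_mul]
      unfold prd
      rw [MvPolynomial.coeff_monomial, if_pos rfl, mul_one]
      exact hl
    · intro l' _ hne
      rw [MvPolynomial.coeff_C_mul]
      unfold prd
      rw [MvPolynomial.coeff_monomial, if_neg, mul_zero]
      intro h
      exact hne (hI (ind_inj h))
    · intro h
      exact absurd (mem_univ l) h
  · rw [ind_apply, if_pos hi]; exact one_ne_zero
  · rw [ind_apply, if_pos hj]; exact one_ne_zero

/-- the same for the products of different sets of elements of one set -/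
theorem products_of_fam (r : ℕ) (P : ℕ → (Fin r → ℤ) → Prop) (ε : ℝ)
    (h : ∃ Z₀ : ℕ, ∀ (τ : Type) (q : ℕ) [NeZero q] (s : Finset τ) (y : τ → Fin r → ZMod q) (Z : ℝ), Z₀ ≤ Z →
      VFam q s y Z → ∀ c₀ : Fin r → ℤ,
      ({i : τ | i ∈ s ∧ ¬ P ⌊Z⌋₊ (fun j => c₀ j + ((y i j).val : ℕ))}.ncard : ℝ) ≤ ε * s.card)
    (k : ℕ) (I : Fin r → Finset (Fin k)) (hI : Function.Injective I) (hI2 : ∀ l, 2 ≤ (I l).card)
    (δ : ℝ) (hδ : 0 < δ) (hδ1 : δ ≤ 1) :
    ∃ p₀ : ℕ, ∀ p : ℕ, p.Prime → p₀ ≤ p → ∀ S : Finset (ZMod p), (p : ℝ) ^ (1 / 2 + δ) ≤ S.card →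
    ∀ c₀ : Fin r → ℤ,
    ({a : Fin k → ZMod p | (∀ i, a i ∈ S) ∧ ¬ P ⌊(p : ℝ) ^ (δ / 8)⌋₊
        (fun l => c₀ l + ((∏ j ∈ I l, a j).val : ℕ))}.ncard : ℝ) ≤ ε * (S.card : ℝ) ^ k := by
  obtain ⟨p₁, h1⟩ := prod_of_fam r P ε h δ hδ hδ1
  obtain ⟨x₀, hx₀⟩ := Filter.eventually_atTop.mp
    ((tendsto_rpow_atTop (show 0 < δ / 4 by positivity)).eventually_ge_atTop (k : ℝ))
  obtain ⟨p₂, hp₂⟩ := exists_nat_ge x₀
  refine ⟨max p₁ p₂, fun p hp hpp S hS c₀ => ?_⟩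
  have : Fact p.Prime := ⟨hp⟩
  have g1 : (k : ℝ) ≤ (p : ℝ) ^ (δ / 4) := hx₀ p (hp₂.trans (by exact_mod_cast (le_max_right _ _).trans hpp))
  have h3 := h1 p hp ((le_max_left _ _).trans hpp) k (fun l => prd p k (I l)) (fun _ => S) (fun _ _ _ => 0)
    (fun l => (by exact_mod_cast prd_deg (I l) : ((prd p k (I l)).totalDegree : ℝ) ≤ k).trans g1)
    (fun α hα => mixed_prd I hI hI2 α hα) (fun _ => hS) c₀
  simp only [prod_const, card_univ, Fintype.card_fin, sum_const_zero, add_zero, prd_eval] at h3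
  exact h3

end Pool.Agent.U569.APL
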