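import Pool.Agent.U569.APL.Ext

set_option autoImplicit false

/-! # Polynomials on subgroups of the multiplicative group modulo `p`, as families of vectors of residues with small
Fourier coefficients -/

namespace Pool.Agent.U569.APL

open Finset Filter
open Pool.Agent.N384.VF (Flat VFam)

/-- a sum over a subgroup of a finite cyclic group -/
lemma sum_subgroup {G : Type} [CommGroup G] [Fintype G] [IsCyclic G] (H : Subgroup G) [DecidablePred (· ∈ H)]
    (f : G → ℂ) : ∑ x : G, f (x ^ H.index) = H.index * ∑ h ∈ univ.filter (· ∈ H), f h := by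
  classical
  set φ : G →* G := powMonoidHom H.index with hφ
  have hdvd : H.index ∣ Nat.card G := H.index_dvd_card
  have hcard : Nat.card φ.range = Nat.card H := by
    rw [hφ, IsCyclic.card_powMonoidHom_range, Nat.gcd_eq_right hdvd]
    exact Nat.div_eq_of_eq_mul_left (Nat.pos_of_ne_zero H.index_ne_zero_of_finite) (H.card_mul_index).symm
  have hle : φ.range ≤ H := by
    rintro _ ⟨x, rfl⟩
    exact H.pow_index_mem x
  have heq : φ.range = H := Subgroup.eq_of_le_of_card_ge hle hcard.ge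
  have h1 : ∑ x : G, f (φ x) = ∑ y ∈ univ.filter (· ∈ H), ∑ x ∈ univ.filter (fun x => φ x = y), f (φ x) := by
    refine (sum_fiberwise_of_maps_to (fun x _ => ?_) _).symm
    rw [mem_filter]
    exact ⟨mem_univ _, hle ⟨x, rfl⟩⟩
  have h2 : ∑ x : G, f (x ^ H.index) = ∑ x : G, f (φ x) := rfl
  rw [h2, h1, mul_sum]
  refine sum_congr rfl fun y hy => ?_
  rw [mem_filter] at hy
  have hy' : y ∈ Set.range φ := by
    have : y ∈ φ.range := by rw [heq]; exact hy.2
    exact this
  have h3 : ∀ x ∈ univ.filter (fun x => φ x = y), f (φ x) = f y := fun x hx => by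
    rw [(mem_filter.1 hx).2]
  rw [sum_congr rfl h3, sum_const, nsmul_eq_mul]
  congr 1
  have h4 := MonoidHom.card_fiber_eq_of_mem_range φ hy' (Set.mem_range.2 ⟨1, map_one φ⟩)
  have h5 : (univ.filter (fun x => φ x = y)).card * (univ.filter (· ∈ H)).card = Fintype.card G := by
    have h6 : ∀ z ∈ univ.filter (· ∈ H), (univ.filter (fun x => φ x = z)).card =
        (univ.filter (fun x => φ x = y)).card := by
      intro z hz
      have hz' : z ∈ Set.range φ := by
        have : z ∈ φ.range := by rw [heq]; exact (mem_filter.1 hz).2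
        exact this
      exact MonoidHom.card_fiber_eq_of_mem_range φ hz' hy'
    have h7 := card_eq_sum_card_fiberwise (s := (univ : Finset G)) (t := univ.filter (· ∈ H)) (f := φ)
      (fun x _ => by
        rw [mem_coe, mem_filter]
        exact ⟨mem_univ _, hle ⟨x, rfl⟩⟩)
    rw [sum_congr rfl h6, sum_const, smul_eq_mul, card_univ] at h7
    rw [h7, mul_comm]
  have h8 : (univ.filter (· ∈ H)).card = Nat.card H := by
    rw [Nat.card_eq_fintype_card, ← Fintype.card_subtype]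
  have h9 := H.card_mul_index
  rw [Nat.card_eq_fintype_card (α := G), ← h5, h8, mul_comm] at h9
  have h10 := Nat.eq_of_mul_eq_mul_right (Nat.card_pos (α := H)) h9
  exact_mod_cast h10.symm

variable {p : ℕ} [Fact p.Prime]

/-- exponential sums of polynomials over subgroups -/
theorem bias_grp (H : Subgroup (ZMod p)ˣ) [DecidablePred (· ∈ H)] (G : Polynomial (ZMod p)) (hG : 0 < G.natDegree)
    (hGp : G.natDegree < p) :
    ‖∑ h ∈ univ.filter (· ∈ H), (ZMod.stdAddChar (G.eval (h : ZMod p)) : ℂ)‖ ≤ G.natDegree * Real.sqrt p := by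
  classical
  have hp := (Fact.out : p.Prime)
  set m := H.index with hm
  have hm0 : 0 < m := Nat.pos_of_ne_zero H.index_ne_zero_of_finite
  have hmp : m < p := by
    have h1 : m ∣ Nat.card (ZMod p)ˣ := H.index_dvd_card
    rw [Nat.card_eq_fintype_card, ZMod.card_units_eq_totient, Nat.totient_prime hp] at h1
    have := Nat.le_of_dvd (Nat.sub_pos_of_lt hp.one_lt) h1
    have := hp.one_lt
    omega
  have h1 := sum_subgroup H (fun x => (ZMod.stdAddChar (G.eval (x : ZMod p)) : ℂ))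
  have hev : ∀ x : ZMod p, (Polynomial.expand (ZMod p) m G).eval x = G.eval (x ^ m) := fun x =>
    Polynomial.expand_eval m G x
  have hdeg : (Polynomial.expand (ZMod p) m G).natDegree = G.natDegree * m := Polynomial.natDegree_expand m G
  have hw := Pool.Agent.Y951.WP.weil_le p (Polynomial.expand (ZMod p) m G) (by
      rw [hdeg]
      intro hd
      rcases hp.dvd_mul.1 hd with h | h
      · exact absurd (Nat.le_of_dvd hG h) (by omega)
      · exact absurd (Nat.le_of_dvd hm0 h) (by omega)) (ZMod.isPrimitive_stdAddChar p)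
  rw [hdeg] at hw
  have h2 : ∑ y : ZMod p, (ZMod.stdAddChar ((Polynomial.expand (ZMod p) m G).eval y) : ℂ) =
      ZMod.stdAddChar (G.eval 0) + ∑ x : (ZMod p)ˣ, (ZMod.stdAddChar (G.eval ((x ^ m : (ZMod p)ˣ) : ZMod p)) : ℂ) := by
    rw [← add_sum_erase univ _ (mem_univ (0 : ZMod p)), hev, zero_pow hm0.ne']
    congr 1
    symm
    refine sum_bij (fun (x : (ZMod p)ˣ) _ => (x : ZMod p)) ?_ ?_ ?_ ?_
    · intro x _
      rw [mem_erase]
      exact ⟨x.ne_zero, mem_univ _⟩
    · intro a _ b _ hab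
      exact Units.ext hab
    · intro b hb
      exact ⟨Units.mk0 b (mem_erase.1 hb).1, mem_univ _, rfl⟩
    · intro x _
      rw [hev, Units.val_pow_eq_pow_val]
  have hsq : 1 ≤ Real.sqrt p := by
    rw [Real.one_le_sqrt]
    exact_mod_cast hp.one_lt.le
  have h3 : ‖∑ x : (ZMod p)ˣ, (ZMod.stdAddChar (G.eval ((x ^ m : (ZMod p)ˣ) : ZMod p)) : ℂ)‖ ≤
      m * (G.natDegree * Real.sqrt p) := by
    have h4 : ∑ x : (ZMod p)ˣ, (ZMod.stdAddChar (G.eval ((x ^ m : (ZMod p)ˣ) : ZMod p)) : ℂ) =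
        ∑ y : ZMod p, (ZMod.stdAddChar ((Polynomial.expand (ZMod p) m G).eval y) : ℂ) -
          ZMod.stdAddChar (G.eval 0) := by
      rw [h2]; ring
    rw [h4]
    refine (norm_sub_le _ _).trans ?_
    rw [psi_norm]
    have h5 : ((G.natDegree * m - 1 : ℕ) : ℝ) = G.natDegree * m - 1 := by
      rw [Nat.cast_sub (Nat.mul_pos hG hm0)]
      push_cast
      ring
    calc _ ≤ ((G.natDegree * m - 1 : ℕ) : ℝ) * Real.sqrt p + 1 := by
          have := hw
          linarith
      _ = (G.natDegree * m - 1) * Real.sqrt p + 1 := by rw [h5]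
      _ ≤ m * (G.natDegree * Real.sqrt p) := by nlinarith
  rw [h1, norm_mul, Complex.norm_natCast] at h3
  have hm0' : (0 : ℝ) < m := by exact_mod_cast hm0
  exact le_of_mul_le_mul_left h3 hm0'

omit [Fact p.Prime] in
/-- polynomials on subgroups of order at least `p ^ (1 / 2 + δ)` -/
theorem vfam_grp (r : ℕ) (δ : ℝ) (hδ : 0 < δ) (hδ1 : δ ≤ 1) (Z₀ : ℝ) :
    ∃ p₀ : ℕ, ∀ (p : ℕ) (_ : p.Prime) [NeZero p], p₀ ≤ p → Z₀ ≤ (p : ℝ) ^ (δ / 8) ∧
    ∀ (H : Subgroup (ZMod p)ˣ) [DecidablePred (· ∈ H)] (F : Fin r → Polynomial (ZMod p)),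
    (∀ l, ((F l).natDegree : ℝ) ≤ (p : ℝ) ^ (δ / 4)) →
    (∀ α : Fin r → ZMod p, α ≠ 0 → 0 < (∑ l, Polynomial.C (α l) * F l).natDegree) →
    (p : ℝ) ^ (1 / 2 + δ) ≤ Nat.card H →
    VFam p (univ.filter (· ∈ H)) (fun (h : (ZMod p)ˣ) l => (F l).eval (h : ZMod p)) ((p : ℝ) ^ (δ / 8)) := by
  have E1 : ∀ᶠ x : ℝ in atTop, Z₀ ≤ x ^ (δ / 8) :=
    (tendsto_rpow_atTop (by positivity)).eventually_ge_atTop _
  have E2 : ∀ᶠ x : ℝ in atTop, 2 ≤ x ^ (δ / 4) :=
    (tendsto_rpow_atTop (by positivity)).eventually_ge_atTop _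
  have E3 : ∀ᶠ x : ℝ in atTop, (42 + 3 * Real.log x) ^ r ≤ x ^ (δ / 8) := by
    by_cases hL : r = 0
    · subst hL
      filter_upwards [(tendsto_rpow_atTop (show 0 < δ / 8 by positivity)).eventually_ge_atTop (1 : ℝ)] with x hx
      simpa using hx
    have hL0 : (0 : ℝ) < r := by exact_mod_cast Nat.pos_of_ne_zero hL
    have h1 := (isLittleO_log_rpow_atTop (show 0 < δ / 8 / r by positivity)).def
      (show (0 : ℝ) < 1 / 6 by norm_num)
    filter_upwards [h1, (tendsto_rpow_atTop (show 0 < δ / 8 / r by positivity)).eventually_ge_atTop (84 : ℝ),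
      eventually_ge_atTop (1 : ℝ)] with x hx hx2 hx1
    have hx0 : (0 : ℝ) < x := by linarith
    have hlog : 0 ≤ Real.log x := Real.log_nonneg hx1
    rw [Real.norm_of_nonneg hlog, Real.norm_of_nonneg (by positivity)] at hx
    calc (42 + 3 * Real.log x) ^ r ≤ (x ^ (δ / 8 / r)) ^ r := by
          apply pow_le_pow_left₀ (by positivity)
          linarith
      _ = x ^ (δ / 8) := by
          rw [← Real.rpow_natCast, ← Real.rpow_mul hx0.le]
          congr 1
          field_simp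
  obtain ⟨x₀, hx₀⟩ := eventually_atTop.mp (E1.and (E2.and E3))
  obtain ⟨p₂, hp₂⟩ := exists_nat_ge x₀
  refine ⟨p₂, fun p hp _ hpp => ?_⟩
  obtain ⟨g1, g2, g3⟩ := hx₀ p (hp₂.trans (by exact_mod_cast hpp))
  refine ⟨g1, fun H _ F hD hF hH => ?_⟩
  classical
  have : Fact p.Prime := ⟨hp⟩
  have hp1 : (1 : ℝ) < p := by exact_mod_cast hp.one_lt
  have hp0 : (0 : ℝ) < p := by linarith
  refine ⟨?_, fun α hα => ?_⟩
  · calc (p : ℝ) ^ (δ / 8) ≤ (p : ℝ) ^ (1 : ℝ) := Real.rpow_le_rpow_of_exponent_le hp1.le (by linarith)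
      _ = p := Real.rpow_one _
  set G : Polynomial (ZMod p) := ∑ l, Polynomial.C (α l) * F l with hG
  set D : ℕ := univ.sup (fun l => (F l).natDegree) with hDd
  have hGD : G.natDegree ≤ D := Polynomial.natDegree_sum_le_of_forall_le _ _ fun i _ =>
    (Polynomial.natDegree_C_mul_le _ _).trans (Finset.le_sup (f := fun l => (F l).natDegree) (mem_univ i))
  have hDr : (D : ℝ) ≤ (p : ℝ) ^ (δ / 4) := by
    by_cases hr : (univ : Finset (Fin r)).Nonempty
    · obtain ⟨l, _, hl⟩ := exists_mem_eq_sup univ hr (fun l => (F l).natDegree)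
      rw [hDd, hl]
      exact hD l
    · rw [not_nonempty_iff_eq_empty] at hr
      rw [hDd, hr, sup_empty]
      simp only [Nat.bot_eq_zero, Nat.cast_zero]
      positivity
  have hDp : (D : ℝ) < p := by
    refine lt_of_le_of_lt hDr ?_
    calc (p : ℝ) ^ (δ / 4) < (p : ℝ) ^ (1 : ℝ) := Real.rpow_lt_rpow_of_exponent_lt hp1 (by linarith)
      _ = p := Real.rpow_one _
  have hDp' : D < p := by exact_mod_cast hDp
  have key := bias_grp H G (hF α hα) (lt_of_le_of_lt hGD hDp')
  have hsum : ∀ h : (ZMod p)ˣ, ∑ j, α j * (F j).eval (h : ZMod p) = G.eval (h : ZMod p) := by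
    intro h
    rw [hG]
    simp [Polynomial.eval_finsetSum]
  simp only [hsum]
  refine key.trans ?_
  have hcard : ((univ.filter (· ∈ H) : Finset (ZMod p)ˣ).card : ℝ) = Nat.card H := by
    rw [Nat.card_eq_fintype_card, ← Fintype.card_subtype]
  rw [hcard]
  have hlog : 0 ≤ Real.log (p : ℝ) := Real.log_nonneg hp1.le
  have hbase : (0 : ℝ) < 42 + 3 * Real.log p := by linarith
  have hW : (0 : ℝ) < (p : ℝ) ^ (δ / 8) * (42 + 3 * Real.log p) ^ r := by positivity
  rw [Fintype.card_fin, one_div, ← div_eq_inv_mul, le_div_iff₀ hW]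
  have h1 : (G.natDegree : ℝ) ≤ (p : ℝ) ^ (δ / 4) := (by exact_mod_cast hGD : (G.natDegree : ℝ) ≤ D).trans hDr
  calc (G.natDegree : ℝ) * Real.sqrt p * ((p : ℝ) ^ (δ / 8) * (42 + 3 * Real.log p) ^ r) ≤
        (p : ℝ) ^ (δ / 4) * (p : ℝ) ^ (1 / 2 : ℝ) * ((p : ℝ) ^ (δ / 8) * (p : ℝ) ^ (δ / 8)) := by
        rw [Real.sqrt_eq_rpow]
        gcongr
    _ = (p : ℝ) ^ (1 / 2 + δ / 2) := by
        rw [← Real.rpow_add hp0, ← Real.rpow_add hp0, ← Real.rpow_add hp0]
        congr 1
        ring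
    _ ≤ (p : ℝ) ^ (1 / 2 + δ) := Real.rpow_le_rpow_of_exponent_le hp1.le (by linarith)
    _ ≤ _ := hH

end Pool.Agent.U569.APL
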