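import Pool.Agent.U569.APL.Fam
import Pool.Agent.N141.SG.Joint

set_option autoImplicit false

/-!
# Flat families are uniformly distributed modulo one after multiplication by irrational numbers
-/

namespace Pool.Agent.U569.APL

open Finset Filter
open Pool.Agent.N384.VF (Flat VFam char_le blk seq sum_blk card_blk card_blk_filter)
open Pool.Agent.H807R2.Dav (ee ee_add ee_eq)
open Pool.Agent.H469R2.NK (e norm_e e_add conj_e)
open Pool.Agent.N141.SG (SmallTo boxesR Tgt rad cell of_dvd rad_indep)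

lemma e_eq_ee (x : ℝ) : e x = ee x := by
  rw [ee_eq]
  rfl

lemma prod_ee {κ : Type} (s : Finset κ) (f : κ → ℝ) : ∏ j ∈ s, ee (f j) = ee (∑ j ∈ s, f j) := by
  classical
  induction s using Finset.induction_on with
  | empty => simp [ee]
  | insert a s ha ih => rw [prod_insert ha, sum_insert ha, ih, ee_add]

lemma dist_pos_of {θ : ℝ} (hθ : ∀ m : ℤ, θ ≠ m) : ∃ δ : ℝ, 0 < δ ∧ ∀ m : ℤ, δ ≤ |θ - m| :=
  ⟨|θ - round θ|, abs_pos.2 (sub_ne_zero.2 (hθ _)), fun m => round_le θ m⟩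

section
variable {ι : Type} [Fintype ι] [DecidableEq ι]

/-- **exponential sums over flat families** -/
theorem flat_exp {τ : ℕ → Type} {s : ∀ j, Finset (τ j)} {v : ∀ j, τ j → ι → ℤ} (h : FlatFamilies s v)
    (θ : ι → ℝ) (l₀ : ι) (hθ : ∀ m : ℤ, θ l₀ ≠ m) (ε : ℝ) (hε : 0 < ε) :
    ∀ᶠ j in atTop, ‖∑ i ∈ s j, e (∑ l, θ l * (v j i l : ℝ))‖ ≤ ε * (s j).card := by
  obtain ⟨δ, hδ, hd⟩ := dist_pos_of hθ
  filter_upwards [h (2 / (δ * ε) + 2 / ε)] with j hj
  obtain ⟨q, hq, y, c₀, Z, h1, h2, h3, h4⟩ := hj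
  have a1 : 0 < 2 / (δ * ε) := by positivity
  have a2 : 0 < 2 / ε := by positivity
  have hZ : 0 < Z := by linarith
  have hq0 : (0 : ℝ) < q := by linarith
  have hq1 : 1 ≤ q := Nat.pos_of_ne_zero (NeZero.ne q)
  have hL : 1 ≤ 42 + 3 * Real.log q := by
    have := Real.log_natCast_nonneg q
    linarith
  have hL0 : 0 < (42 + 3 * Real.log q) ^ Fintype.card ι := by positivity
  have key := char_le q (1 / (Z * (42 + 3 * Real.log q) ^ Fintype.card ι)) (by positivity) (s j) y h3 θ l₀ δ hδ hd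
  have e1 : ∑ i ∈ s j, e (∑ l, θ l * (v j i l : ℝ)) =
      e (∑ l, θ l * (c₀ l : ℝ)) * ∑ i ∈ s j, ∏ l, ee (θ l * ((y i l).val : ℕ)) := by
    rw [mul_sum]
    refine sum_congr rfl fun i _ => ?_
    rw [prod_ee, ← e_eq_ee, ← e_add]
    congr 1
    rw [← sum_add_distrib]
    refine sum_congr rfl fun l _ => ?_
    rw [h4 i l]
    push_cast
    ring
  rw [e1, norm_mul, norm_e, one_mul]
  refine key.trans ?_
  rw [mul_comm]
  apply mul_le_mul_of_nonneg_right _ (Nat.cast_nonneg _)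
  have b1 : 1 / (δ * q) ≤ ε / 2 := by
    have : 2 / (δ * ε) ≤ q := by linarith
    rw [div_le_iff₀ (by positivity)] at this ⊢
    nlinarith
  have b2 : 1 / (Z * (42 + 3 * Real.log q) ^ Fintype.card ι) * (42 + 3 * Real.log q) ^ Fintype.card ι ≤ ε / 2 := by
    have e2 : 1 / (Z * (42 + 3 * Real.log q) ^ Fintype.card ι) * (42 + 3 * Real.log q) ^ Fintype.card ι = 1 / Z := by
      field_simp
    rw [e2]
    have : 2 / ε ≤ Z := by linarith
    rw [div_le_iff₀ hε] at this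
    rw [div_le_iff₀ hZ]
    linarith
  linarith

/-- multiples by numbers which are not integers have small exponential sums -/
def Weyl (S : ℕ → Finset ℕ) (x : ℕ → ℤ) : Prop :=
  ∀ θ : ℝ, (∀ m : ℤ, θ ≠ m) → SmallTo S (fun n => θ * (x n : ℝ))

/-- the coordinates of flat families as one sequence -/
theorem flat_weyl {τ : ℕ → Type} {s : ∀ j, Finset (τ j)} {v : ∀ j, τ j → ι → ℤ} (h : FlatFamilies s v) (l : ι) :
    Weyl (blk fun j => (⟨τ j, s j⟩ : Σ τ : Type, Finset τ))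
      (fun n => seq (fun j => (⟨τ j, s j⟩ : Σ τ : Type, Finset τ)) v n l) := by
  intro θ hθ ε hε
  have hs : ∀ x : ι → ℤ, ∑ k, (Pi.single l θ : ι → ℝ) k * (x k : ℝ) = θ * (x l : ℝ) := by
    intro x
    rw [sum_eq_single l]
    · rw [Pi.single_eq_same]
    · intro k _ hk
      rw [Pi.single_eq_of_ne hk, zero_mul]
    · intro hl
      exact absurd (mem_univ l) hl
  filter_upwards [flat_exp h (Pi.single l θ) l (by simpa using hθ) ε hε] with N hN
  have h1 := sum_blk (fun j => (⟨τ j, s j⟩ : Σ τ : Type, Finset τ)) v N (fun x => e (θ * (x l : ℝ)))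
  rw [h1, card_blk]
  simp only [hs] at hN
  exact hN

end

/-- arcs modulo one -/
theorem weyl_arc {S : ℕ → Finset ℕ} {x : ℕ → ℤ} (h : Weyl S x) {α : ℝ} (hα : Irrational α) (β : ℝ) {lo hi : ℝ}
    (hlh : lo ≤ hi) {δ : ℝ} (hδ : 0 < δ) : ∀ᶠ N : ℕ in atTop,
      ({n : ℕ | n ∈ S N ∧ ∃ z : ℤ, lo ≤ α * (x n : ℝ) + β - z ∧ α * (x n : ℝ) + β - z ≤ hi}.ncard : ℝ) ≤
        (hi - lo + δ) * (S N).card := by
  classical
  obtain ⟨q, hq⟩ := exists_nat_gt (4 / δ)
  have hq0 : (0 : ℝ) < q := lt_trans (by positivity) hq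
  have hq1 : 1 ≤ q := by exact_mod_cast hq0
  have hqz : (0 : ℤ) < q := by exact_mod_cast hq1
  have hb := boxesR (r := 1) le_rfl (s := S) (x := fun n _ => α * (x n : ℝ) + β) (by
    intro g hg
    have hg0 : g 0 ≠ 0 := by
      intro h0
      apply hg
      funext k
      rw [Fin.fin_one_eq_zero k, h0]
      rfl
    have h1 : ∀ m : ℤ, (g 0 : ℝ) * α ≠ m := by
      intro m hm
      exact (hα.intCast_mul hg0).ne_int m hm
    have h2 := (h _ h1).add_const ((g 0 : ℝ) * β)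
    have e1 : (fun n => ∑ j : Fin 1, (g j : ℝ) * (α * (x n : ℝ) + β)) =
        fun n => (g 0 : ℝ) * α * (x n : ℝ) + (g 0 : ℝ) * β := by
      funext n
      rw [Fin.sum_univ_one]
      ring
    rw [e1]
    exact h2) hq1 (δ := δ / (2 * q)) (by positivity)
  filter_upwards [hb] with N hN
  obtain ⟨A, hA⟩ : ∃ A : Finset ℕ, A = (S N).filter (fun n => ∃ z : ℤ,
    lo ≤ α * (x n : ℝ) + β - z ∧ α * (x n : ℝ) + β - z ≤ hi) := ⟨_, rfl⟩
  have hA' : {n : ℕ | n ∈ S N ∧ ∃ z : ℤ, lo ≤ α * (x n : ℝ) + β - z ∧ α * (x n : ℝ) + β - z ≤ hi} = (A : Set ℕ) := by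
    ext n
    rw [hA]
    simp
  rw [hA', Set.ncard_coe_finset]
  obtain ⟨f, hf⟩ : ∃ f : ℕ → ℤ, f = fun n => ⌊(q : ℝ) * (α * (x n : ℝ) + β)⌋ := ⟨_, rfl⟩
  obtain ⟨T, hT⟩ : ∃ T : Finset ℤ, T = (Icc ⌊(q : ℝ) * lo⌋ ⌊(q : ℝ) * hi⌋).image (fun a => a % (q : ℤ)) := ⟨_, rfl⟩
  have hTA : ∀ n ∈ A, f n % (q : ℤ) ∈ T := by
    intro n hn
    rw [hA, mem_filter] at hn
    obtain ⟨_, z, h1, h2⟩ := hn
    rw [hT, mem_image]
    refine ⟨f n - q * z, ?_, ?_⟩
    · have e1 : f n - q * z = ⌊(q : ℝ) * (α * (x n : ℝ) + β - z)⌋ := by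
        rw [hf]
        have : (q : ℝ) * (α * (x n : ℝ) + β - z) = (q : ℝ) * (α * (x n : ℝ) + β) - ((q * z : ℤ) : ℝ) := by
          push_cast
          ring
        rw [this, Int.floor_sub_intCast]
      rw [e1, mem_Icc]
      exact ⟨Int.floor_le_floor (mul_le_mul_of_nonneg_left h1 hq0.le),
        Int.floor_le_floor (mul_le_mul_of_nonneg_left h2 hq0.le)⟩
    · rw [Int.sub_mul_emod_self_left]
  have hTc : (T.card : ℝ) ≤ q * (hi - lo) + 2 := by
    have h1 : T.card ≤ (⌊(q : ℝ) * hi⌋ + 1 - ⌊(q : ℝ) * lo⌋).toNat := by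
      rw [hT]
      exact card_image_le.trans (by rw [Int.card_Icc])
    have h2 : ⌊(q : ℝ) * lo⌋ ≤ ⌊(q : ℝ) * hi⌋ := Int.floor_le_floor (mul_le_mul_of_nonneg_left hlh hq0.le)
    have h3 : (((⌊(q : ℝ) * hi⌋ + 1 - ⌊(q : ℝ) * lo⌋).toNat : ℕ) : ℝ) = (⌊(q : ℝ) * hi⌋ + 1 - ⌊(q : ℝ) * lo⌋ : ℤ) := by
      have : (((⌊(q : ℝ) * hi⌋ + 1 - ⌊(q : ℝ) * lo⌋).toNat : ℕ) : ℤ) = ⌊(q : ℝ) * hi⌋ + 1 - ⌊(q : ℝ) * lo⌋ :=
        Int.toNat_of_nonneg (by linarith)
      exact_mod_cast congrArg (fun z : ℤ => (z : ℝ)) this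
    have h4 : (T.card : ℝ) ≤ (((⌊(q : ℝ) * hi⌋ + 1 - ⌊(q : ℝ) * lo⌋).toNat : ℕ) : ℝ) := by exact_mod_cast h1
    rw [h3] at h4
    push_cast at h4
    have h5 := Int.floor_le ((q : ℝ) * hi)
    have h6 := Int.lt_floor_add_one ((q : ℝ) * lo)
    nlinarith
  have hTq : T ⊆ Ico 0 (q : ℤ) := by
    intro a ha
    rw [hT, mem_image] at ha
    obtain ⟨b, _, rfl⟩ := ha
    rw [mem_Ico]
    exact ⟨Int.emod_nonneg _ hqz.ne', Int.emod_lt_of_pos _ hqz⟩
  -- the boxes outside of the arc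
  obtain ⟨U, hU⟩ : ∃ U : Finset ℤ, U = Ico 0 (q : ℤ) \ T := ⟨_, rfl⟩
  have hUc : U.card = q - T.card := by
    rw [hU, card_sdiff_of_subset hTq, Int.card_Ico]
    simp
  have hTle : T.card ≤ q := by
    have := card_le_card hTq
    rw [Int.card_Ico] at this
    simpa using this
  obtain ⟨S', hS'⟩ : ∃ S' : Finset ℕ, S' = (S N).filter (fun n => f n % (q : ℤ) ∈ U) := ⟨_, rfl⟩
  have hS'c : (S'.card : ℝ) ≥ U.card * ((1 / (q : ℝ) - δ / (2 * q)) * (S N).card) := by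
    have h1 : S'.card = ∑ r ∈ U, (S'.filter (fun n => f n % (q : ℤ) = r)).card := by
      refine card_eq_sum_card_fiberwise fun n hn => ?_
      rw [hS', mem_coe, mem_filter] at hn
      exact hn.2
    rw [h1]
    push_cast
    rw [ge_iff_le, ← nsmul_eq_mul]
    refine card_nsmul_le_sum _ _ _ fun r hr => ?_
    have h2 := hN (fun _ => r)
    rw [pow_one] at h2
    refine h2.trans ?_
    have h3 : ((S N).filter (fun n => ∀ _j : Fin 1, (q : ℤ) ∣ ⌊(q : ℝ) * (α * (x n : ℝ) + β)⌋ - r)) ⊆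
        S'.filter (fun n => f n % (q : ℤ) = r) := by
      intro n hn
      rw [mem_filter] at hn
      have hdvd : (q : ℤ) ∣ f n - r := by
        rw [hf]
        exact hn.2 0
      have hr' : r ∈ Ico 0 (q : ℤ) := by
        rw [hU, Finset.mem_sdiff] at hr
        exact hr.1
      rw [mem_Ico] at hr'
      have hmod : f n % (q : ℤ) = r := by
        have h5 : f n % (q : ℤ) = r % (q : ℤ) := (Int.modEq_iff_dvd.2 hdvd).symm
        rw [h5, Int.emod_eq_of_lt hr'.1 hr'.2]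
      rw [mem_filter, hS', mem_filter, hmod]
      exact ⟨⟨hn.1, hr⟩, rfl⟩
    exact_mod_cast card_le_card h3
  have hdis : A.card + S'.card ≤ (S N).card := by
    have h1 : Disjoint A S' := by
      rw [disjoint_left]
      intro n hn hn'
      rw [hS', mem_filter, hU, Finset.mem_sdiff] at hn'
      exact hn'.2.2 (hTA n hn)
    rw [← card_union_of_disjoint h1]
    refine card_le_card (union_subset ?_ ?_)
    · rw [hA]
      exact filter_subset _ _
    · rw [hS']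
      exact filter_subset _ _
  have hdis' : (A.card : ℝ) + S'.card ≤ (S N).card := by exact_mod_cast hdis
  have hUc' : (U.card : ℝ) = q - T.card := by
    rw [hUc, Nat.cast_sub hTle]
  have c1 : (A.card : ℝ) ≤ (S N).card - (q - T.card) * ((1 / (q : ℝ) - δ / (2 * q)) * (S N).card) := by
    rw [hUc'] at hS'c
    linarith
  have hT0 : (0 : ℝ) ≤ T.card := Nat.cast_nonneg _
  have hS0 : (0 : ℝ) ≤ (S N).card := Nat.cast_nonneg _
  have c2 : (q - T.card : ℝ) * ((1 / (q : ℝ) - δ / (2 * q)) * (S N).card) =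
      (1 - T.card / q - δ / 2 + T.card * (δ / (2 * q))) * (S N).card := by
    field_simp
    ring
  have c3 : (T.card : ℝ) / q ≤ hi - lo + δ / 2 := by
    rw [div_le_iff₀ hq0]
    have h5 : 2 ≤ δ / 2 * q := by
      rw [div_lt_iff₀ hδ] at hq
      nlinarith
    nlinarith
  rw [c2] at c1
  have c4 : 0 ≤ (T.card : ℝ) * (δ / (2 * q)) := by positivity
  calc (A.card : ℝ) ≤ (T.card / q + δ / 2 - T.card * (δ / (2 * q))) * (S N).card := by linarith
    _ ≤ (hi - lo + δ) * (S N).card := by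
        apply mul_le_mul_of_nonneg_right _ hS0
        linarith

/-- the good multiplicities for all numbers of points -/
theorem weyl_tgt {S : ℕ → Finset ℕ} {x : ℕ → ℤ} (h : Weyl S x) : ∀ᶠ N : ℕ in atTop,
    1 / 10000 ^ 22 * ((S N).card : ℝ) ≤ ({n : ℕ | n ∈ S N ∧ Tgt (x n)}.ncard : ℝ) := by
  classical
  have h1 := boxesR (r := 20) (by norm_num) (s := S)
    (x := fun n j => √(rad j.succ : ℝ) * (x n : ℝ) + √(rad j.succ : ℝ) / 2)
    (by
      intro g hg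
      have hγ : ∀ k : ℤ, ∑ j : Fin 20, (g j : ℝ) * √(rad j.succ : ℝ) ≠ k := by
        intro k hk
        apply hg
        have h2 := rad_indep (g := Fin.cons (-k) g) (by
          rw [Fin.sum_univ_succ]
          simp only [Fin.cons_zero, Fin.cons_succ]
          rw [hk]
          have : rad 0 = 1 := rfl
          rw [this]
          simp)
        funext j
        have h3 := congrFun h2 j.succ
        simpa using h3
      have h2 := (h _ hγ).add_const (∑ j : Fin 20, (g j : ℝ) * (√(rad j.succ : ℝ) / 2))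
      have e1 : (fun n : ℕ => ∑ j : Fin 20, (g j : ℝ) * (√(rad j.succ : ℝ) * (x n : ℝ) + √(rad j.succ : ℝ) / 2)) =
          fun n : ℕ => (∑ j : Fin 20, (g j : ℝ) * √(rad j.succ : ℝ)) * (x n : ℝ) +
            ∑ j : Fin 20, (g j : ℝ) * (√(rad j.succ : ℝ) / 2) := by
        funext n
        rw [sum_mul, ← sum_add_distrib]
        exact sum_congr rfl fun j _ => by ring
      rw [e1]
      exact h2) (q := 10000) (by norm_num) (δ := 1 / 10000 ^ 20 - 1 / 10000 ^ 22) (by norm_num)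
  filter_upwards [h1] with N hN
  have h2 := hN (fun j => cell j.succ)
  have e1 : (1 / ((10000 : ℕ) : ℝ) ^ 20 - (1 / 10000 ^ 20 - 1 / 10000 ^ 22)) = 1 / 10000 ^ 22 := by
    push_cast
    ring
  rw [e1] at h2
  refine h2.trans ?_
  rw [← Set.ncard_coe_finset]
  have hfin : {m : ℕ | m ∈ S N ∧ Tgt (x m)}.Finite :=
    (Finset.finite_toSet (S N)).subset fun m hm => hm.1
  have hsub : (((S N).filter (fun n : ℕ => ∀ j : Fin 20, ((10000 : ℕ) : ℤ) ∣
      ⌊((10000 : ℕ) : ℝ) * (√(rad j.succ : ℝ) * (x n : ℝ) + √(rad j.succ : ℝ) / 2)⌋ -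
        cell j.succ) : Finset ℕ) : Set ℕ) ⊆ {m : ℕ | m ∈ S N ∧ Tgt (x m)} := by
    intro n hn
    rw [Finset.mem_coe, Finset.mem_filter] at hn
    refine ⟨hn.1, fun j hj => ?_⟩
    have hj0 : j ≠ 0 := fun h0 => hj (by rw [h0]; rfl)
    obtain ⟨i, rfl⟩ := Fin.exists_succ_eq.2 hj0
    obtain ⟨z, h5, h6⟩ := of_dvd (hn.2 i)
    refine ⟨z, ?_, ?_⟩
    · refine le_trans ?_ h5
      have : ((cell i.succ : ℝ) - 6) / 10000 ≤ (cell i.succ : ℝ) / 10000 := by
        apply div_le_div_of_nonneg_right _ (by norm_num)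
        linarith
      exact this
    · exact h6.le
  exact_mod_cast Set.ncard_le_ncard hsub hfin

section
variable {ι : Type} [Fintype ι] [DecidableEq ι]

omit [Fintype ι] [DecidableEq ι] in
lemma count_blk {τ : ℕ → Type} (s : ∀ j, Finset (τ j)) (v : ∀ j, τ j → ι → ℤ) (Q : (ι → ℤ) → Prop) (N : ℕ) :
    ({n : ℕ | n ∈ blk (fun j => (⟨τ j, s j⟩ : Σ τ : Type, Finset τ)) N ∧
      Q (seq (fun j => (⟨τ j, s j⟩ : Σ τ : Type, Finset τ)) v n)}.ncard : ℕ) = {i : τ N | i ∈ s N ∧ Q (v N i)}.ncard := by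
  classical
  have h := card_blk_filter (fun j => (⟨τ j, s j⟩ : Σ τ : Type, Finset τ)) v N Q
  have e1 : {n : ℕ | n ∈ blk (fun j => (⟨τ j, s j⟩ : Σ τ : Type, Finset τ)) N ∧
      Q (seq (fun j => (⟨τ j, s j⟩ : Σ τ : Type, Finset τ)) v n)} =
      ↑((blk (fun j => (⟨τ j, s j⟩ : Σ τ : Type, Finset τ)) N).filter
        (fun n => Q (seq (fun j => (⟨τ j, s j⟩ : Σ τ : Type, Finset τ)) v n))) := by
    ext n
    simp
  have e2 : {i : τ N | i ∈ s N ∧ Q (v N i)} = ↑((s N).filter (fun i => Q (v N i))) := by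
    ext n
    simp
  rw [e1, e2, Set.ncard_coe_finset, Set.ncard_coe_finset]
  exact h

/-- **multiples of the coordinates of flat families in arcs** -/
theorem flat_arc {τ : ℕ → Type} {s : ∀ j, Finset (τ j)} {v : ∀ j, τ j → ι → ℤ} (h : FlatFamilies s v) (l : ι)
    {α : ℝ} (hα : Irrational α) (β : ℝ) {lo hi : ℝ} (hlh : lo ≤ hi) {δ : ℝ} (hδ : 0 < δ) : ∀ᶠ j in atTop,
      ({i : τ j | i ∈ s j ∧ ∃ z : ℤ, lo ≤ α * (v j i l : ℝ) + β - z ∧ α * (v j i l : ℝ) + β - z ≤ hi}.ncard : ℝ) ≤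
        (hi - lo + δ) * (s j).card := by
  filter_upwards [weyl_arc (flat_weyl h l) hα β hlh hδ] with j hj
  rw [count_blk s v (fun c => ∃ z : ℤ, lo ≤ α * (c l : ℝ) + β - z ∧ α * (c l : ℝ) + β - z ≤ hi) j, card_blk] at hj
  exact hj

/-- the good multiplicities for all numbers of points -/
theorem flat_tgt {τ : ℕ → Type} {s : ∀ j, Finset (τ j)} {v : ∀ j, τ j → ι → ℤ} (h : FlatFamilies s v) (l : ι) :
    ∀ᶠ j in atTop, 1 / 10000 ^ 22 * ((s j).card : ℝ) ≤ ({i : τ j | i ∈ s j ∧ Tgt (v j i l)}.ncard : ℝ) := by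
  filter_upwards [weyl_tgt (flat_weyl h l)] with j hj
  rw [count_blk s v (fun c => Tgt (c l)) j, card_blk] at hj
  exact hj

/-- counting the bad members of flat families -/
theorem flat_count {τ : ℕ → Type} {s : ∀ j, Finset (τ j)} {v : ∀ j, τ j → ι → ℤ} (h : FlatFamilies s v) (l : ι)
    {α : ℝ} (hα : Irrational α) (β : ℝ) {lo hi : ℝ} (hlh : lo ≤ hi) {bad : ℕ → Prop}
    (hbad : ∀ m : ℕ, 1 ≤ m → bad m → ∃ z : ℤ, lo ≤ α * m + β - z ∧ α * m + β - z ≤ hi)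
    {δ : ℝ} (hδ : 0 < δ) : ∀ᶠ j in atTop,
      ({i : τ j | i ∈ s j ∧ 1 ≤ v j i l ∧ bad (v j i l).toNat}.ncard : ℝ) ≤ (hi - lo + δ) * (s j).card := by
  filter_upwards [flat_arc h l hα β hlh hδ] with j hj
  refine le_trans ?_ hj
  have hsub : {i : τ j | i ∈ s j ∧ 1 ≤ v j i l ∧ bad (v j i l).toNat} ⊆
      {i : τ j | i ∈ s j ∧ ∃ z : ℤ, lo ≤ α * (v j i l : ℝ) + β - z ∧ α * (v j i l : ℝ) + β - z ≤ hi} := by
    rintro i ⟨hi1, hi2, hi3⟩
    have h0 : (((v j i l).toNat : ℕ) : ℤ) = v j i l := Int.toNat_of_nonneg (by linarith)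
    obtain ⟨z, h5, h6⟩ := hbad _ (by omega) hi3
    have h7 : (((v j i l).toNat : ℕ) : ℝ) = ((v j i l : ℤ) : ℝ) := by
      exact_mod_cast congrArg (fun z : ℤ => (z : ℝ)) h0
    rw [h7] at h5 h6
    exact ⟨hi1, z, h5, h6⟩
  exact_mod_cast Set.ncard_le_ncard hsub ((Finset.finite_toSet (s j)).subset fun n hn => hn.1)

omit [Fintype ι] [DecidableEq ι] in
/-- nothing is bad -/
theorem flat_none {τ : ℕ → Type} {s : ∀ j, Finset (τ j)} {v : ∀ j, τ j → ι → ℤ} (l : ι) {bad : ℕ → Prop}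
    (hbad : ∀ m : ℕ, 1 ≤ m → ¬ bad m) {δ : ℝ} (hδ : 0 ≤ δ) : ∀ᶠ j in atTop,
      ({i : τ j | i ∈ s j ∧ 1 ≤ v j i l ∧ bad (v j i l).toNat}.ncard : ℝ) ≤ δ * (s j).card := by
  refine Eventually.of_forall fun j => ?_
  have : {i : τ j | i ∈ s j ∧ 1 ≤ v j i l ∧ bad (v j i l).toNat} = ∅ := by
    rw [Set.eq_empty_iff_forall_notMem]
    rintro i ⟨_, h1, h2⟩
    exact hbad _ (by omega) h2
  rw [this, Set.ncard_empty, Nat.cast_zero]
  positivity

end

end Pool.Agent.U569.APL
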