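import Pool.Agent.U569.APL.DiagF
import Pool.Agent.U569.APL.Bil
import Pool.Agent.N650.TH.Many

set_option autoImplicit false

/-! # One small set of exceptions for all number fields and all primes: surfaces with a Tate conjecture of exact rank -/

namespace Pool.Agent.U569.APL

open Finset Filter Polynomial
open Pool.Agent.N384.VF (VFam transfer)
open Pool.Agent.N650.TH (Cond exc_thin exc_congr exists_adjoinRoot numberField_adjoinRoot countable_pol)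
open Pool.Agent.Y160.SL (ManyWorks)
open Pool.Agent.Y160.T6 (Exc exc_some works_of)

/-- The conclusion for all primes, all number fields and almost all members of all families. -/
def AllWork (n D r : ℕ) {τ : ℕ → Type} (s B : ∀ j, Finset (τ j))
    (v : ∀ j, τ j → Fin (n + (D + (r + 2))) → ℤ) : Prop :=
  ∀ (p e R : ℕ) (_ : p.Prime) (_ : p ^ (e + 1) * r < n + D) (_ : p.Coprime (n + D)) (_ : Odd R)
    (_ : p.Coprime R) (k : Type) [Field k] [NumberField k] (ζ η : k)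
    (_ : IsPrimitiveRoot ζ (p ^ (e + 1))) (_ : η ^ p = -1),
    ∀ᶠ j in atTop, ∀ i ∈ s j, i ∉ B j → ManyWorks p (p ^ (e + 1)) n D r R k (v j i)

/-- `B` is a small part of `s`. -/
def Small {τ : ℕ → Type} (s B : ∀ j, Finset (τ j)) : Prop :=
  (∀ j, B j ⊆ s j) ∧ ∀ ε : ℝ, 0 < ε → ∀ᶠ j in atTop, ((B j).card : ℝ) ≤ ε * (s j).card

theorem crit {p e n D r R : ℕ} (hc : Cond p e n D r R) (k : Type) [Field k] [NumberField k] (ε : ℝ) (hε : 0 < ε) :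
    ∃ Z₀ : ℕ, ∀ (τ : Type) (q : ℕ) [NeZero q] (s : Finset τ) (y : τ → Fin (n + (D + (r + 2))) → ZMod q) (Z : ℝ),
      Z₀ ≤ Z → VFam q s y Z → ∀ c₀ : Fin (n + (D + (r + 2))) → ℤ,
      ({i : τ | i ∈ s ∧ ¬ (fun j => c₀ j + ((y i j).val : ℕ) : Fin (n + (D + (r + 2))) → ℤ) ∉
        Exc p (p ^ (e + 1)) n D r R k}.ncard : ℝ) ≤ ε * s.card := by
  obtain ⟨hp, hn, hD, hnr, hqr, hcop, hR, hpR⟩ := hc
  have hcop' : (p ^ (e + 1)).Coprime (R * (n + D)) := (hpR.mul_right hcop).pow_left _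
  have hq0 : 0 < p ^ (e + 1) := Nat.pow_pos hp.pos
  refine transfer (fun _ v => v ∉ Exc p (p ^ (e + 1)) n D r R k) ε hε fun S x κ hκ hw => ?_
  obtain ⟨N₀, h1⟩ := exc_thin hκ hw hp hq0 hn hD hnr hqr hR hcop' k ε hε
  refine ⟨N₀, fun N hN => ?_⟩
  have h2 := h1 N hN
  simpa only [not_not, Set.mem_ofPred_eq] using h2

/-- one small set of exceptions for all primes and all number fields -/
theorem all_work (n D r : ℕ) (hn : 0 < n) (hD : 2 ≤ D) (hnr : n ≤ r + 1) {τ : ℕ → Type} (s : ∀ j, Finset (τ j))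
    (v : ∀ j, τ j → Fin (n + (D + (r + 2))) → ℤ)
    (h : ∀ Z₀ : ℕ, ∀ᶠ j in atTop, ∃ (q : ℕ) (_ : NeZero q) (y : τ j → Fin (n + (D + (r + 2))) → ZMod q) (Z : ℝ)
      (c₀ : Fin (n + (D + (r + 2))) → ℤ), (Z₀ : ℝ) ≤ Z ∧ VFam q (s j) y Z ∧
      v j = fun i l => c₀ l + ((y i l).val : ℕ)) :
    ∃ B : ∀ j, Finset (τ j), Small s B ∧ AllWork n D r s B v := by
  classical
  have hcount : Countable ((ℕ × ℕ × ℕ) × ℚ[X]) := by
    have h2 := countable_pol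
    infer_instance
  obtain ⟨B, h1, h2, h3⟩ := diag_fam (Φ := (ℕ × ℕ × ℕ) × ℚ[X]) s (fun φ j i =>
    ∃ _ : Fact (Irreducible φ.2), Cond φ.1.1 φ.1.2.1 n D r φ.1.2.2 ∧
      v j i ∈ Exc φ.1.1 (φ.1.1 ^ (φ.1.2.1 + 1)) n D r φ.1.2.2 (AdjoinRoot φ.2)) (by
    rintro ⟨⟨p, e, R⟩, f⟩ ε hε
    by_cases hyp : Irreducible f ∧ Cond p e n D r R
    · obtain ⟨hf, hc⟩ := hyp
      have hfF : Fact (Irreducible f) := ⟨hf⟩
      have hnf : NumberField (AdjoinRoot f) := numberField_adjoinRoot f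
      obtain ⟨Z₀, g1⟩ := crit hc (AdjoinRoot f) ε hε
      filter_upwards [h Z₀] with j hj
      obtain ⟨q, hq, y, Z, c₀, g2, g3, g4⟩ := hj
      refine le_trans ?_ (g1 (τ j) q (s j) y Z g2 g3 c₀)
      rw [Nat.cast_le]
      refine Set.ncard_le_ncard ?_ ((Finset.finite_toSet (s j)).subset fun a ha => ha.1)
      rintro i ⟨hi, ⟨_, _, hb⟩⟩
      refine ⟨hi, ?_⟩
      rw [not_not]
      rw [g4] at hb
      exact hb
    · refine Eventually.of_forall fun j => ?_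
      have : {i : τ j | i ∈ s j ∧ ∃ _ : Fact (Irreducible f), Cond p e n D r R ∧
          v j i ∈ Exc p (p ^ (e + 1)) n D r R (AdjoinRoot f)} = ∅ := by
        ext i
        simp only [Set.mem_ofPred_eq, Set.mem_empty_iff_false, iff_false]
        rintro ⟨-, ⟨h1⟩, h2, -⟩
        exact hyp ⟨h1, h2⟩
      rw [this, Set.ncard_empty, Nat.cast_zero]
      positivity)
  refine ⟨B, ⟨h1, h2⟩, ?_⟩
  intro p e R hp hqr hcop hR hpR k _ _ ζ η hζ hη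
  obtain ⟨f, hf, ⟨g⟩⟩ := exists_adjoinRoot k
  filter_upwards [h3 ((p, e, R), f)] with j hj i hi hiB
  have hcon : v j i ∉ Exc p (p ^ (e + 1)) n D r R (AdjoinRoot f) := fun hb =>
    hj i hi hiB ⟨hf, ⟨hp, hn, hD, hnr, hqr, hcop, hR, hpR⟩, hb⟩
  rw [exc_congr g p (p ^ (e + 1)) n D r R] at hcon
  obtain ⟨t1, t2, t3, t4, t5, t6⟩ := exc_some hcon
  exact works_of Pool.Agent.Y833.EN.st_cond hp rfl hn hD hqr hcop hR hpR hζ hη t1 t2 t3 t4 t5 t6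

/-- values of polynomials on product sets -/
theorem all_work_prod (n D r : ℕ) (hn : 0 < n) (hD : 2 ≤ D) (hnr : n ≤ r + 1) (δ : ℝ) (hδ : 0 < δ) (hδ1 : δ ≤ 1)
    (P : ℕ → ℕ) (hP : ∀ j, (P j).Prime) (hP' : Tendsto P atTop atTop) (k : ℕ → ℕ)
    (F : ∀ j, Fin (n + (D + (r + 2))) → MvPolynomial (Fin (k j)) (ZMod (P j)))
    (A : ∀ j, Fin (k j) → Finset (ZMod (P j))) (u : ∀ j, Fin (k j) → ZMod (P j) → Fin (n + (D + (r + 2))) → ZMod (P j))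
    (hF : ∀ j l, ((F j l).totalDegree : ℝ) ≤ (P j : ℝ) ^ (δ / 4))
    (hF' : ∀ j, ∀ α : Fin (n + (D + (r + 2))) → ZMod (P j), α ≠ 0 → Mixed (∑ l, MvPolynomial.C (α l) * F j l))
    (hA : ∀ j i, (P j : ℝ) ^ (1 / 2 + δ) ≤ (A j i).card) (c₀ : ℕ → Fin (n + (D + (r + 2))) → ℤ) :
    ∃ B : ∀ j, Finset (Fin (k j) → ZMod (P j)), Small (fun j => Fintype.piFinset (A j)) B ∧
      AllWork n D r (fun j => Fintype.piFinset (A j)) B (fun j a l =>
        c₀ j l + ((MvPolynomial.eval a (F j l) + ∑ i, u j i (a i) l).val : ℕ)) := by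
  refine all_work n D r hn hD hnr _ _ fun Z₀ => ?_
  obtain ⟨p₀, h2⟩ := vfam_prod (n + (D + (r + 2))) δ hδ hδ1 Z₀
  filter_upwards [hP'.eventually_ge_atTop p₀] with j hj
  have : NeZero (P j) := ⟨(hP j).ne_zero⟩
  obtain ⟨h3, h4⟩ := h2 (P j) (hP j) hj
  exact ⟨P j, this, _, _, c₀ j, h3, h4 (k j) (F j) (A j) (u j) (hF j) (hF' j) (hA j), rfl⟩

/-- products of the elements of two sets in extension fields -/
theorem all_work_field (n D r : ℕ) (hn : 0 < n) (hD : 2 ≤ D) (hnr : n ≤ r + 1) (δ : ℝ) (hδ : 0 < δ) (hδ1 : δ ≤ 1)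
    (P : ℕ → ℕ) (hP : ∀ j, (P j).Prime) (hP' : Tendsto P atTop atTop) (K : ℕ → Type) [∀ j, Field (K j)]
    [∀ j, Algebra (ZMod (P j)) (K j)] (b : ∀ j, Module.Basis (Fin (n + (D + (r + 2)))) (ZMod (P j)) (K j))
    (E F : ∀ j, Finset (K j)) (u v : ∀ j, K j → Fin (n + (D + (r + 2))) → ZMod (P j))
    (hEF : ∀ j, (P j : ℝ) ^ (((n + (D + (r + 2)) : ℕ) : ℝ) + δ) ≤ (E j).card * (F j).card)
    (c₀ : ℕ → Fin (n + (D + (r + 2))) → ℤ) :
    ∃ B : ∀ j, Finset (K j × K j), Small (fun j => E j ×ˢ F j) B ∧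
      AllWork n D r (fun j => E j ×ˢ F j) B (fun j z l =>
        c₀ j l + (((b j).repr (z.1 * z.2) l + u j z.1 l + v j z.2 l).val : ℕ)) := by
  refine all_work n D r hn hD hnr _ _ fun Z₀ => ?_
  obtain ⟨p₀, h2⟩ := vfam_field (n + (D + (r + 2))) δ hδ hδ1 Z₀
  filter_upwards [hP'.eventually_ge_atTop p₀] with j hj
  have : NeZero (P j) := ⟨(hP j).ne_zero⟩
  obtain ⟨h3, h4⟩ := h2 (P j) (hP j) hj
  exact ⟨P j, this, _, _, c₀ j, h3, h4 (K j) (b j) (E j) (F j) (u j) (v j) (hEF j), rfl⟩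

/-- values of bilinear maps -/
theorem all_work_bil (n D r : ℕ) (hn : 0 < n) (hD : 2 ≤ D) (hnr : n ≤ r + 1) (δ : ℝ) (hδ : 0 < δ) (hδ1 : δ ≤ 1)
    (P : ℕ → ℕ) (hP : ∀ j, (P j).Prime) (hP' : Tendsto P atTop atTop) (a b ρ : ℕ → ℕ)
    (M : ∀ j, Fin (n + (D + (r + 2))) → Matrix (Fin (a j)) (Fin (b j)) (ZMod (P j)))
    (E : ∀ j, Finset (Fin (a j) → ZMod (P j))) (F : ∀ j, Finset (Fin (b j) → ZMod (P j)))
    (u : ∀ j, (Fin (a j) → ZMod (P j)) → Fin (n + (D + (r + 2))) → ZMod (P j))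
    (v : ∀ j, (Fin (b j) → ZMod (P j)) → Fin (n + (D + (r + 2))) → ZMod (P j))
    (hM : ∀ j, ∀ α : Fin (n + (D + (r + 2))) → ZMod (P j), α ≠ 0 → ρ j ≤ (∑ l, α l • M j l).rank)
    (hEF : ∀ j, (P j : ℝ) ^ (((a j + b j : ℕ) : ℝ) + δ) ≤ (E j).card * (F j).card * (P j : ℝ) ^ ρ j)
    (c₀ : ℕ → Fin (n + (D + (r + 2))) → ℤ) :
    ∃ B : ∀ j, Finset ((Fin (a j) → ZMod (P j)) × (Fin (b j) → ZMod (P j))),
      Small (fun j => E j ×ˢ F j) B ∧ AllWork n D r (fun j => E j ×ˢ F j) B (fun j z l =>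
        c₀ j l + ((z.1 ⬝ᵥ Matrix.mulVec (M j l) z.2 + u j z.1 l + v j z.2 l).val : ℕ)) := by
  refine all_work n D r hn hD hnr _ _ fun Z₀ => ?_
  obtain ⟨p₀, h2⟩ := vfam_bil (n + (D + (r + 2))) δ hδ hδ1 Z₀
  filter_upwards [hP'.eventually_ge_atTop p₀] with j hj
  have : NeZero (P j) := ⟨(hP j).ne_zero⟩
  obtain ⟨h3, h4⟩ := h2 (P j) (hP j) hj
  exact ⟨P j, this, _, _, c₀ j, h3, h4 (a j) (b j) (ρ j) (M j) (E j) (F j) (u j) (v j) (hM j) (hEF j), rfl⟩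

end Pool.Agent.U569.APL
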