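import Pool.Agent.U569.APL.Box
import Pool.Agent.U449.BV.PW

set_option autoImplicit false

/-!
# Members of families with small Fourier coefficients near the points where functions affine in each variable are small
-/

namespace Pool.Agent.U569.APL

open Finset
open Pool.Agent.R869.Wd (SepAff)

theorem near_count {κ Θ : Type} [Fintype κ] [DecidableEq κ] [Fintype Θ] (f : Θ → (κ → ℝ) → ℝ) (hf : ∀ θ, SepAff (f θ))
    (hc : ∀ θ, Continuous (f θ)) (Bad : ℕ → (κ → ℕ) → Prop)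
    (hB : ∀ η : ℝ, 0 < η → ∃ D : ℕ, ∀ (d : ℕ) (x : κ → ℕ), 1 ≤ d → D ≤ d → (∀ c, x c ≤ d) → Bad d x →
      ∃ θ, (∃ z, f θ z ≠ 0) ∧ |f θ (fun c => (x c : ℝ) / d)| ≤ η)
    {k : ℕ} (e : Option κ ≃ Fin k) (B : ℕ) (ε : ℝ) (hε : 0 < ε) :
    ∃ (κ₀ : ℝ) (L : ℕ) (η₀ : ℝ) (q₀ : ℕ), 0 < κ₀ ∧ 1 ≤ L ∧ 0 < η₀ ∧ ∀ (q : ℕ) [NeZero q], q₀ ≤ q →
      ∀ (τ : Type) (s : Finset τ) (y : τ → Fin k → ZMod q),
      (∀ h : Fin k → ℤ, h ≠ 0 → (∀ l, |h l| < L) →
        ‖∑ i ∈ s, (ZMod.stdAddChar (∑ l, (h l : ZMod q) * y i l) : ℂ)‖ ≤ η₀ * s.card) →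
      ∀ c₀ : Fin k → ℤ, (∀ l, |c₀ l| ≤ (B : ℤ) * q) → ∀ S : Finset τ, S ⊆ s →
        (∀ i ∈ S, ∃ (d : ℕ) (x : κ → ℕ), 1 ≤ d ∧ (∀ c, x c ≤ d) ∧ Bad d x ∧
          |(d : ℝ) - ((c₀ (e none) : ℝ) + (y i (e none)).val)| ≤ κ₀ * |((c₀ (e none) : ℝ) + (y i (e none)).val)| ∧
          ∀ c, |(x c : ℝ) - ((c₀ (e (some c)) : ℝ) + (y i (e (some c))).val)| ≤
            κ₀ * |((c₀ (e none) : ℝ) + (y i (e none)).val)|) →
        (S.card : ℝ) ≤ ε * s.card := by
  classical
  have hk : k = Fintype.card κ + 1 := by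
    have := Fintype.card_congr e
    rw [Fintype.card_option, Fintype.card_fin] at this
    omega
  obtain ⟨C, hC, hcount⟩ := Pool.Agent.U449.BV.pcount_family f hf
  obtain ⟨F, hF⟩ : ∃ F : ℕ, F = Fintype.card κ := ⟨_, rfl⟩
  obtain ⟨σ, hσ⟩ : ∃ σ : ℝ, σ = (1 / 2 : ℝ) ^ F := ⟨_, rfl⟩
  have hσ0 : 0 < σ := hσ ▸ by positivity
  rw [← hF, ← hσ] at hcount
  rw [← hF] at hk
  -- the bound for the functions
  obtain ⟨η, hη0, hη1, hη⟩ : ∃ η : ℝ, 0 < η ∧ η ≤ 1 ∧ 2 * 4 ^ k * (C * (25 * ((B : ℝ) + 1)) ^ k) * η ^ σ ≤ ε / 2 := by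
    obtain ⟨A, hA⟩ : ∃ A : ℝ, A = 2 * 4 ^ k * (C * (25 * ((B : ℝ) + 1)) ^ k) := ⟨_, rfl⟩
    have hA0 : 0 ≤ A := by rw [hA]; positivity
    have hr : 0 < ε / (2 * (A + 1)) := by positivity
    refine ⟨min 1 ((ε / (2 * (A + 1))) ^ (1 / σ)), lt_min one_pos (Real.rpow_pos_of_pos hr _), min_le_left _ _, ?_⟩
    have h1 : (min 1 ((ε / (2 * (A + 1))) ^ (1 / σ))) ^ σ ≤ ε / (2 * (A + 1)) := by
      calc _ ≤ ((ε / (2 * (A + 1))) ^ (1 / σ)) ^ σ :=
            Real.rpow_le_rpow (le_min zero_le_one (Real.rpow_pos_of_pos hr _).le) (min_le_right _ _) hσ0.le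
        _ = ε / (2 * (A + 1)) := by
            rw [← Real.rpow_mul hr.le, one_div_mul_cancel hσ0.ne', Real.rpow_one]
    rw [← hA]
    calc A * _ ≤ A * (ε / (2 * (A + 1))) := mul_le_mul_of_nonneg_left h1 hA0
      _ ≤ (A + 1) * (ε / (2 * (A + 1))) := by gcongr; linarith
      _ = ε / 2 := by field_simp
  -- uniform continuity
  have huc : ∀ θ, ∃ ρ : ℝ, 0 < ρ ∧ ∀ x y : κ → ℝ, x ∈ Set.Icc (0 : κ → ℝ) 1 → y ∈ Set.Icc (0 : κ → ℝ) 1 → dist x y < ρ →
      dist (f θ x) (f θ y) < η / 2 := by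
    intro θ
    have h1 := (isCompact_Icc (a := (0 : κ → ℝ)) (b := 1)).uniformContinuousOn_of_continuous (hc θ).continuousOn
    rw [Metric.uniformContinuousOn_iff] at h1
    obtain ⟨ρ, hρ, h2⟩ := h1 (η / 2) (by positivity)
    exact ⟨ρ, hρ, fun x y hx hy hxy => h2 x hx y hy hxy⟩
  choose ρ hρ huc using huc
  obtain ⟨m₁, hm₁⟩ := exists_nat_gt (∑ θ, 1 / ρ θ)
  have hm₁' : ∀ θ, 1 / ρ θ < m₁ := fun θ =>
    lt_of_le_of_lt (single_le_sum (f := fun θ => 1 / ρ θ) (fun θ _ => (one_div_pos.2 (hρ θ)).le) (mem_univ θ)) hm₁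
  obtain ⟨D, hD⟩ := hB (η / 2) (by positivity)
  obtain ⟨mm, hmm⟩ : ∃ mm : ℕ, mm = m₁ + ⌈1 / η⌉₊ + 1 := ⟨_, rfl⟩
  have hmm1 : 1 ≤ mm := by omega
  obtain ⟨w, hw⟩ : ∃ w : ℕ, w = ⌈4 * 4 ^ k / ε⌉₊ + 1 := ⟨_, rfl⟩
  have hw1 : 1 ≤ w := by omega
  have hwr : 4 * 4 ^ k / ε ≤ w := by
    rw [hw]
    push_cast
    have := Nat.le_ceil (4 * 4 ^ k / ε)
    linarith
  obtain ⟨L, hL⟩ : ∃ L : ℕ, L = mm * w := ⟨_, rfl⟩
  have hL1 : 1 ≤ L := by rw [hL]; exact Nat.mul_pos hmm1 hw1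
  have hLr : (1 : ℝ) ≤ L := by exact_mod_cast hL1
  obtain ⟨M, hM⟩ : ∃ M : ℕ, M = 24 * L := ⟨_, rfl⟩
  have hM1 : 1 ≤ M := by omega
  have hMr : (M : ℝ) = 24 * L := by rw [hM]; push_cast; ring
  have hM0 : (0 : ℝ) < M := by rw [hMr]; linarith
  have hBr : (0 : ℝ) ≤ B := Nat.cast_nonneg B
  refine ⟨1 / (4 * M * (B + 1)), L, 1 / (L : ℝ) ^ k, 2 * M * D + 1, by positivity, hL1, by positivity,
    fun q _ hq τ s y hy c₀ hc₀ S hS hbad => ?_⟩
  have hq0 : (0 : ℝ) < q := by exact_mod_cast Nat.pos_of_ne_zero (NeZero.ne q)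
  obtain ⟨κ₀, hκ₀⟩ : ∃ κ₀ : ℝ, κ₀ = 1 / (4 * M * (B + 1)) := ⟨_, rfl⟩
  rw [← hκ₀] at hbad
  have hκ0 : 0 < κ₀ := by rw [hκ₀]; positivity
  have hκM : κ₀ * (M * (B + 1)) = 1 / 4 := by
    rw [hκ₀]
    field_simp
  have hκh : κ₀ ≤ 1 / 2 := by
    have h1 : (1 : ℝ) ≤ M * (B + 1) := by nlinarith
    nlinarith
  let T : (m : ℕ) → Finset (κ → Fin (m + 1)) := fun m => univ.filter fun x => mm ≤ m → ∃ θ, (∃ z, f θ z ≠ 0) ∧
    |f θ (fun c => ((x c : ℕ) : ℝ) / m)| ≤ η
  let cel : (m : ℕ) → (κ → Fin (m + 1)) → Fin k → ℝ := fun m x l => Option.elim (e.symm l) (m : ℝ) (fun c => ((x c : ℕ) : ℝ))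
  let Sx : (m : ℕ) → (κ → Fin (m + 1)) → Finset τ := fun m x => S.filter fun i =>
    ∀ l, |((y i l).val : ℝ) / q - (cel m x l / M - c₀ l / q)| ≤ 1 / (8 * L)
  obtain ⟨K, hK⟩ : ∃ K : ℕ, K = (B + 1) * M := ⟨_, rfl⟩
  have hone : ∀ m x, ((Sx m x).card : ℝ) ≤ 2 * 4 ^ k * s.card / (L : ℝ) ^ k := by
    intro m x
    have h1 := box_le s y L hL1 (1 / (L : ℝ) ^ k) (by positivity) hy (fun l => cel m x l / M - c₀ l / q) (Sx m x)
      ((filter_subset _ _).trans hS) (fun i hi l => (mem_filter.1 hi).2 l)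
    have hLk : (0 : ℝ) < (L : ℝ) ^ k := by positivity
    rw [mul_one_div_cancel hLk.ne'] at h1
    rw [le_div_iff₀ hLk]
    linarith
  have hcov : S ⊆ (range (K + 1)).biUnion fun m => (T m).biUnion fun x => Sx m x := by
    intro i hi
    obtain ⟨d, x, hd, hx, hbd, h0, hcs⟩ := hbad i hi
    obtain ⟨v, hv⟩ : ∃ v : ℝ, v = (c₀ (e none) : ℝ) + (y i (e none)).val := ⟨_, rfl⟩
    rw [← hv] at h0 hcs
    have hd1 : (1 : ℝ) ≤ d := by exact_mod_cast hd
    have hd0 : (0 : ℝ) < d := by linarith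
    have hv0 : 0 < v := by
      by_contra hcon
      push Not at hcon
      rw [abs_of_nonpos hcon] at h0
      have h1 := (abs_le.1 h0).2
      nlinarith
    rw [abs_of_pos hv0] at h0 hcs
    have hval : ((y i (e none)).val : ℝ) ≤ q := by
      have := (ZMod.val_lt (y i (e none))).le
      exact_mod_cast this
    have hcr : |(c₀ (e none) : ℝ)| ≤ B * q := by exact_mod_cast hc₀ (e none)
    have hvq : v ≤ (B + 1) * q := by
      have := (abs_le.1 hcr).2
      rw [hv]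
      linarith
    obtain ⟨t, ht⟩ : ∃ t : ℝ, t = M * v / q := ⟨_, rfl⟩
    have ht0 : 0 ≤ t := by rw [ht]; positivity
    have htK : t ≤ K := by
      rw [ht, hK, div_le_iff₀ hq0]
      push_cast
      nlinarith
    obtain ⟨m, hm⟩ : ∃ m : ℕ, m = ⌊t⌋₊ := ⟨_, rfl⟩
    have hmt : (m : ℝ) ≤ t := by rw [hm]; exact Nat.floor_le ht0
    have htm : t < m + 1 := by rw [hm]; exact Nat.lt_floor_add_one t
    have hmK : m ≤ K := by exact_mod_cast (hmt.trans htK)
    have hvt : κ₀ * v * (M / q) ≤ 1 / 4 := by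
      rw [← hκM]
      have h2 : v * (M / q) ≤ M * (B + 1) := by
        rw [mul_div_assoc', div_le_iff₀ hq0]
        nlinarith
      calc κ₀ * v * (M / q) = κ₀ * (v * (M / q)) := by ring
        _ ≤ _ := mul_le_mul_of_nonneg_left h2 hκ0.le
    -- the new point
    have hdiv : ∀ c, x c * m / d ≤ m := fun c =>
      Nat.div_le_of_le_mul (Nat.mul_le_mul_right m (hx c))
    let x' : κ → Fin (m + 1) := fun c => ⟨x c * m / d, Nat.lt_succ_of_le (hdiv c)⟩
    have hx'1 : ∀ c, (((x' c : Fin (m + 1)) : ℕ) : ℝ) ≤ (x c : ℝ) * m / d := by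
      intro c
      rw [le_div_iff₀ hd0]
      have h3 := Nat.div_mul_le_self (x c * m) d
      change (((x c * m / d : ℕ)) : ℝ) * d ≤ _
      exact_mod_cast h3
    have hx'2 : ∀ c, (x c : ℝ) * m / d ≤ (((x' c : Fin (m + 1)) : ℕ) : ℝ) + 1 := by
      intro c
      rw [div_le_iff₀ hd0]
      have h3 : x c * m ≤ (x c * m / d + 1) * d := by
        have h4 := Nat.div_add_mod (x c * m) d
        have h5 := Nat.mod_lt (x c * m) (Nat.pos_of_ne_zero (by omega : d ≠ 0))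
        nlinarith
      change _ ≤ (((x c * m / d : ℕ) : ℝ) + 1) * d
      exact_mod_cast h3
    have hxd : ∀ c, (x c : ℝ) / d ≤ 1 := fun c => by
      rw [div_le_one hd0]
      exact_mod_cast hx c
    have hxd0 : ∀ c, 0 ≤ (x c : ℝ) / d := fun c => by positivity
    rw [mem_biUnion]
    refine ⟨m, mem_range.2 (by omega), ?_⟩
    rw [mem_biUnion]
    refine ⟨x', ?_, ?_⟩
    · rw [mem_filter]
      refine ⟨mem_univ _, fun hmmm => ?_⟩
      have hm0 : 1 ≤ m := hmm1.trans hmmm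
      have hm0' : (0 : ℝ) < m := by exact_mod_cast hm0
      have hDd : D ≤ d := by
        have h6 : v * (1 - κ₀) ≤ d := by
          have := (abs_le.1 h0).1
          linarith
        have h7 : v / 2 ≤ d := by nlinarith
        have h8 : (q : ℝ) ≤ M * v := by
          have h9 : (1 : ℝ) ≤ t := le_trans (by exact_mod_cast hm0) hmt
          rw [ht, le_div_iff₀ hq0] at h9
          linarith
        have h10 : ((2 * M * D + 1 : ℕ) : ℝ) ≤ q := by exact_mod_cast hq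
        push_cast at h10
        have h11 : (2 * M * D : ℝ) ≤ M * (2 * d) := by
          have : M * v ≤ M * (2 * (d : ℝ)) := mul_le_mul_of_nonneg_left (by linarith) hM0.le
          linarith
        have h12 : (D : ℝ) ≤ d := by
          have h13 : (M : ℝ) * (2 * D) ≤ M * (2 * d) := by linarith
          have := le_of_mul_le_mul_left h13 hM0
          linarith
        exact_mod_cast h12
      obtain ⟨θ, hθ, hθ2⟩ := hD d x hd hDd hx hbd
      refine ⟨θ, hθ, ?_⟩
      have h14 := huc θ (fun c => (((x' c : Fin (m + 1)) : ℕ) : ℝ) / m) (fun c => (x c : ℝ) / d) ?_ ?_ ?_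
      · rw [Real.dist_eq] at h14
        have h15 := abs_sub_abs_le_abs_sub (f θ (fun c => (((x' c : Fin (m + 1)) : ℕ) : ℝ) / m)) (f θ (fun c => (x c : ℝ) / d))
        linarith
      · refine ⟨fun c => by simp only [Pi.zero_apply]; positivity, fun c => ?_⟩
        simp only [Pi.one_apply]
        rw [div_le_one hm0']
        have := hdiv c
        change ((x c * m / d : ℕ) : ℝ) ≤ m
        exact_mod_cast this
      · exact ⟨fun c => hxd0 c, fun c => hxd c⟩
      · rw [dist_pi_lt_iff (hρ θ)]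
        intro c
        rw [Real.dist_eq]
        have h16 : (x c : ℝ) / d = ((x c : ℝ) * m / d) / m := by field_simp
        have h17 : |(((x' c : Fin (m + 1)) : ℕ) : ℝ) / m - (x c : ℝ) / d| ≤ 1 / m := by
          rw [h16, ← sub_div, abs_div, abs_of_pos hm0']
          refine div_le_div_of_nonneg_right ?_ hm0'.le
          rw [abs_le]
          constructor
          · linarith [hx'2 c]
          · linarith [hx'1 c]
        refine lt_of_le_of_lt h17 ?_
        rw [div_lt_iff₀ hm0']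
        have h18 := hm₁' θ
        rw [div_lt_iff₀ (hρ θ)] at h18
        have h19 : (m₁ : ℝ) ≤ m := by
          have : m₁ ≤ m := by omega
          exact_mod_cast this
        have h20 := hρ θ
        nlinarith
    · rw [mem_filter]
      refine ⟨hi, fun l => ?_⟩
      have hML : 3 / (M : ℝ) = 1 / (8 * L) := by
        rw [hMr]
        field_simp
        norm_num
      rw [← hML]
      obtain ⟨o, rfl⟩ := e.surjective l
      have hred : ∀ z u : ℝ, |M * (z + u) / q - cel m x' (e o)| ≤ 3 → z = c₀ (e o) →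
          |u / q - (cel m x' (e o) / M - c₀ (e o) / q)| ≤ 3 / M := by
        intro z u h21 h22
        have h23 : u / q - (cel m x' (e o) / M - c₀ (e o) / q) = (M * (z + u) / q - cel m x' (e o)) / M := by
          rw [h22]
          field_simp
          ring
        rw [h23, abs_div, abs_of_pos hM0]
        exact div_le_div_of_nonneg_right h21 hM0.le
      refine hred _ _ ?_ rfl
      rcases o with _ | c
      · have h24 : cel m x' (e none) = m := by simp only [cel, Equiv.symm_apply_apply, Option.elim]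
        rw [h24, ← hv, ← ht, abs_le]
        constructor <;> linarith
      · have h24 : cel m x' (e (some c)) = (((x' c : Fin (m + 1)) : ℕ) : ℝ) := by
          simp only [cel, Equiv.symm_apply_apply, Option.elim]
        rw [h24]
        obtain ⟨vc, hvc⟩ : ∃ vc : ℝ, vc = (c₀ (e (some c)) : ℝ) + (y i (e (some c))).val := ⟨_, rfl⟩
        have h25 := hcs c
        rw [← hvc] at h25 ⊢
        have hMq : (0 : ℝ) < M / q := by positivity
        -- first part
        have h26 : |(M : ℝ) / q * (vc - x c)| ≤ 1 / 4 := by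
          rw [abs_mul, abs_of_pos hMq, abs_sub_comm]
          calc (M : ℝ) / q * |(x c : ℝ) - vc| ≤ M / q * (κ₀ * v) := mul_le_mul_of_nonneg_left h25 hMq.le
            _ = κ₀ * v * (M / q) := by ring
            _ ≤ 1 / 4 := hvt
        have h27 : |(M : ℝ) / q * d - m| ≤ 5 / 4 := by
          have h28 : |(M : ℝ) / q * (d - v)| ≤ 1 / 4 := by
            rw [abs_mul, abs_of_pos hMq]
            calc (M : ℝ) / q * |(d : ℝ) - v| ≤ M / q * (κ₀ * v) := mul_le_mul_of_nonneg_left h0 hMq.le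
              _ = κ₀ * v * (M / q) := by ring
              _ ≤ 1 / 4 := hvt
          have h29 : (M : ℝ) / q * d - m = (M : ℝ) / q * (d - v) + (t - m) := by
            rw [ht]
            ring
          rw [h29, abs_le]
          rw [abs_le] at h28
          constructor <;> linarith [h28.1, h28.2]
        have h30 : |(x c : ℝ) / d * ((M : ℝ) / q * d - m)| ≤ 5 / 4 := by
          rw [abs_mul, abs_of_nonneg (hxd0 c)]
          have := abs_nonneg ((M : ℝ) / q * d - m)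
          nlinarith [hxd c, hxd0 c]
        have h31 : (M : ℝ) * vc / q - (((x' c : Fin (m + 1)) : ℕ) : ℝ) = (M : ℝ) / q * (vc - x c) +
            (x c : ℝ) / d * ((M : ℝ) / q * d - m) + ((x c : ℝ) * m / d - (((x' c : Fin (m + 1)) : ℕ) : ℝ)) := by
          field_simp
          ring
        rw [h31, abs_le]
        rw [abs_le] at h26 h30
        constructor
        · linarith [h26.1, h30.1, hx'1 c]
        · linarith [h26.2, h30.2, hx'2 c]
  have hTc : ∀ m ∈ range (K + 1), ((T m).card : ℝ) ≤ (if m < mm then (mm : ℝ) ^ F else 0) + C * η ^ σ * ((K : ℝ) + 1) ^ F := by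
    intro m hm
    have hmK : m ≤ K := Nat.lt_succ_iff.1 (mem_range.1 hm)
    have hp : 0 ≤ C * η ^ σ := mul_nonneg hC (Real.rpow_pos_of_pos hη0 _).le
    by_cases hlt : m < mm
    · rw [if_pos hlt]
      have h1 : (T m).card ≤ (m + 1) ^ F := by
        refine (card_le_univ _).trans (le_of_eq ?_)
        rw [Fintype.card_fun, Fintype.card_fin, hF]
      have h2 : (m + 1) ^ F ≤ mm ^ F := Nat.pow_le_pow_left hlt F
      have h3 : ((T m).card : ℝ) ≤ (mm : ℝ) ^ F := by exact_mod_cast h1.trans h2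
      have h4 : 0 ≤ C * η ^ σ * ((K : ℝ) + 1) ^ F := by positivity
      linarith
    · rw [if_neg hlt, zero_add]
      push Not at hlt
      have h1 : 1 ≤ η * m := by
        have h2 : 1 / η ≤ m := by
          refine (Nat.le_ceil _).trans ?_
          have : ⌈1 / η⌉₊ ≤ m := by omega
          exact_mod_cast this
        rw [div_le_iff₀ hη0] at h2
        linarith
      have h3 := hcount m (hmm1.trans hlt) η hη0 hη1 h1
      have h4 : ((T m).card : ℝ) ≤ C * η ^ σ * ((m : ℝ) + 1) ^ F := by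
        refine le_trans ?_ h3
        have h5 : ((T m : Finset (κ → Fin (m + 1))) : Set (κ → Fin (m + 1))) ⊆
            {x : κ → Fin (m + 1) | ∃ θ, (∃ z, f θ z ≠ 0) ∧ |f θ (fun j => ((x j : ℕ) : ℝ) / m)| ≤ η} := by
          intro x hx
          exact (mem_filter.1 (mem_coe.1 hx)).2 hlt
        have h6 := Set.ncard_le_ncard h5 (Set.toFinite _)
        rw [Set.ncard_coe_finset] at h6
        exact_mod_cast h6
      refine h4.trans ?_
      have h7 : (m : ℝ) ≤ K := by exact_mod_cast hmK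
      gcongr
  have hLk : (0 : ℝ) < (L : ℝ) ^ k := by positivity
  have hsum : (S.card : ℝ) ≤ ∑ m ∈ range (K + 1), ((T m).card : ℝ) * (2 * 4 ^ k * s.card / (L : ℝ) ^ k) := by
    calc (S.card : ℝ) ≤ ((∑ m ∈ range (K + 1), ∑ x ∈ T m, (Sx m x).card : ℕ) : ℝ) := by
          exact_mod_cast (card_le_card hcov).trans (card_biUnion_le.trans (sum_le_sum fun m _ => card_biUnion_le))
      _ = ∑ m ∈ range (K + 1), ∑ x ∈ T m, ((Sx m x).card : ℝ) := by push_cast; rfl
      _ ≤ _ := sum_le_sum fun m _ => by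
          refine (sum_le_sum fun x _ => hone m x).trans (le_of_eq ?_)
          rw [sum_const, nsmul_eq_mul]
  have hs0 : (0 : ℝ) ≤ 2 * 4 ^ k * s.card / (L : ℝ) ^ k := by positivity
  have hp : 0 ≤ C * η ^ σ := mul_nonneg hC (Real.rpow_pos_of_pos hη0 _).le
  have htot : ∑ m ∈ range (K + 1), ((T m).card : ℝ) ≤ (mm : ℝ) ^ k + C * η ^ σ * (25 * ((B : ℝ) + 1) * L) ^ k := by
    refine (sum_le_sum hTc).trans ?_
    rw [sum_add_distrib, sum_const, card_range, nsmul_eq_mul, ← sum_filter, sum_const, nsmul_eq_mul]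
    have h1 : (((range (K + 1)).filter fun m => m < mm).card : ℝ) ≤ mm := by
      have h2 : ((range (K + 1)).filter fun m => m < mm) ⊆ range mm := fun m hm => mem_range.2 (mem_filter.1 hm).2
      have := card_le_card h2
      rw [card_range] at this
      exact_mod_cast this
    have h3 : ((K : ℝ) + 1) ≤ 25 * ((B : ℝ) + 1) * L := by
      rw [hK]
      push_cast
      rw [hMr]
      nlinarith
    have hKn : (0 : ℝ) ≤ (K : ℝ) + 1 := by positivity
    refine add_le_add ?_ ?_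
    · rw [hk, pow_succ, mul_comm]
      exact mul_le_mul_of_nonneg_left h1 (by positivity)
    · calc (((K + 1 : ℕ)) : ℝ) * (C * η ^ σ * ((K : ℝ) + 1) ^ F) = C * η ^ σ * ((K : ℝ) + 1) ^ k := by
            rw [hk, pow_succ]
            push_cast
            ring
        _ ≤ _ := by gcongr
  rw [← sum_mul] at hsum
  refine hsum.trans ((mul_le_mul_of_nonneg_right htot hs0).trans ?_)
  have hmmL : (mm : ℝ) ^ k * (2 * 4 ^ k / (L : ℝ) ^ k) ≤ ε / 2 := by
    have hw0 : (0 : ℝ) < w := by exact_mod_cast hw1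
    have hmm0 : (0 : ℝ) < mm := by exact_mod_cast hmm1
    have h1 : (L : ℝ) ^ k = (mm : ℝ) ^ k * (w : ℝ) ^ k := by
      rw [hL]
      push_cast
      rw [mul_pow]
    have h2 : (mm : ℝ) ^ k * (2 * 4 ^ k / (L : ℝ) ^ k) = 2 * 4 ^ k / (w : ℝ) ^ k := by
      rw [h1]
      field_simp
    have h3 : (w : ℝ) ≤ (w : ℝ) ^ k := by
      rw [hk]
      exact le_self_pow₀ (by exact_mod_cast hw1) (by omega)
    rw [h2]
    rw [div_le_iff₀ hε] at hwr
    rw [div_le_iff₀ (by positivity)]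
    nlinarith
  have h5 : C * η ^ σ * (25 * ((B : ℝ) + 1) * L) ^ k * (2 * 4 ^ k / (L : ℝ) ^ k) ≤ ε / 2 := by
    have h6 : C * η ^ σ * (25 * ((B : ℝ) + 1) * L) ^ k * (2 * 4 ^ k / (L : ℝ) ^ k) =
        2 * 4 ^ k * (C * (25 * ((B : ℝ) + 1)) ^ k) * η ^ σ := by
      rw [mul_pow (25 * ((B : ℝ) + 1)) (L : ℝ) k]
      field_simp
    rw [h6]
    exact hη
  calc ((mm : ℝ) ^ k + C * η ^ σ * (25 * ((B : ℝ) + 1) * L) ^ k) * (2 * 4 ^ k * s.card / (L : ℝ) ^ k) =
      ((mm : ℝ) ^ k * (2 * 4 ^ k / (L : ℝ) ^ k) + C * η ^ σ * (25 * ((B : ℝ) + 1) * L) ^ k * (2 * 4 ^ k / (L : ℝ) ^ k)) *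
        s.card := by ring
    _ ≤ (ε / 2 + ε / 2) * s.card := mul_le_mul_of_nonneg_right (add_le_add hmmL h5) (Nat.cast_nonneg _)
    _ = ε * s.card := by ring

end Pool.Agent.U569.APL
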