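import Pool.Agent.U569.APL.MonoT

set_option autoImplicit false

/-!
# Generic tuples of monomials near almost all members of families with small Fourier coefficients
-/

namespace Pool.Agent.U569.APL

open Finset
open Pool.Agent.R869.Wd
open Pool.Agent.U449.BV (NearTuples le_of_mem)

variable {n s : ℕ} {I : Fin s → Finset (Fin (n + 1))} {piv : Fin s → Fin (n + 1)}

theorem generic_of_large (N : ℕ) {d : ℕ} (hd : 1 ≤ d) {a : Fin s → (Fin (n + 1) →₀ ℕ)}
    (ha : a ∈ TuplesIn I d) {η : ℝ} (hd5 : n.factorial * (N : ℝ) ≤ η * d)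
    (hcon : ∀ θ, (∃ z, fam I piv θ z ≠ 0) → η < |fam I piv θ (fun c : Free I piv => ((a c.1.1 c.1.2 : ℕ) : ℝ) / d)|) :
    WideT ∅ (fun _ : Unit => withPowers d a) N := by
  have hscl : (fun c : Free I piv => ((a c.1.1 c.1.2 : ℕ) : ℝ) / d) = fun c : Free I piv => sclI d a c.1.1 c.1.2 := rfl
  rw [hscl] at hcon
  have hprm := adm_prm (piv := piv) (adm_scl hd ha)
  have hf : ∀ p q, fam I piv (Sum.inl (p, q)) (fun c : Free I piv => sclI d a c.1.1 c.1.2) =
      (dz p q (sclI d a)).det := by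
    intro p q
    change (dz p q (prm I piv _)).det = _
    rw [hprm]
  refine wide_of_typicalI hd hd5 (fun i => (ha i).2) fun p q => ?_
  by_cases h0 : (dz p q (sclI d a)).det = 0
  · exact Or.inl h0
  · refine Or.inr ?_
    have h5 := hcon (Sum.inl (p, q)) ⟨_, by rw [hf]; exact h0⟩
    rwa [hf] at h5

/-- **The properties of wide tuples hold for all tuples near almost all members.** -/
theorem nearMost_wide (N : ℕ) {P : ℕ → (Fin s → (Fin (n + 1) →₀ ℕ)) → Prop}
    (h : ∀ d a, a ∈ TuplesIn I d → WideT ∅ (fun _ : Unit => withPowers d a) N → P d a) : NearMost I P := by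
  classical
  intro piv hpiv e B ε hε
  obtain ⟨κ, L, η, q₀, h1, h2, h3, h4⟩ := near_count (fam I piv) (by
      rintro (⟨p, q⟩ | ⟨i, j⟩)
      · exact sepAff_dz p q
      · exact sepAff_prm i j) continuous_fam
    (fun d x => ∃ a ∈ TuplesIn I d, (∀ c : Free I piv, a c.1.1 c.1.2 = x c) ∧ ¬ P d a)
    (fun η hη => by
      refine ⟨⌈n.factorial * (N : ℝ) / η⌉₊, fun d x hd hDd hx hbad => ?_⟩
      obtain ⟨a, ha, hax, hP⟩ := hbad
      by_contra hcon
      push Not at hcon
      refine hP (h d a ha (generic_of_large (piv := piv) (η := η) N hd ha ?_ fun θ hθ => ?_))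
      · have h5 := (Nat.le_ceil (n.factorial * (N : ℝ) / η)).trans (Nat.cast_le.2 hDd)
        rw [div_le_iff₀ hη] at h5
        linarith
      · have h6 := hcon θ hθ
        simp only [← hax] at h6
        exact h6) e B ε hε
  refine ⟨κ, L, η, q₀, h1, h2, h3, fun q _ hq τ S y hy c hc E hE hbad => h4 q hq τ S y hy c hc E hE fun i hi => ?_⟩
  have h7 := hbad i hi
  unfold NearTuples at h7
  push Not at h7
  obtain ⟨d, a, hd, ha, h8, h9, h10⟩ := h7
  exact ⟨d, fun c => a c.1.1 c.1.2, hd, fun c => le_of_mem ha _ _, ⟨a, ha, fun c => rfl, h10⟩, h8, h9⟩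

end Pool.Agent.U569.APL
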