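import Pool.Agent.U569.APL.Mono
import Pool.Agent.U569.APL.EnX
import Pool.Agent.U449.BV.TYP

set_option autoImplicit false

/-!
# Tuples of monomials near almost all members of families with small Fourier coefficients
-/

namespace Pool.Agent.U569.APL

open Finset
open Pool.Agent.R869.Wd
open Pool.Agent.U449.BV (NearTuples le_of_mem)

variable {n s : ℕ}

/-- The Fourier coefficients of the family `y i`, `i ∈ S`, of vectors of residues at all nonzero integer vectors `h` with
coordinates less than `L` in absolute value are at most `η` (relative to the number of the members). -/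
def SmallCoefficients {R : ℕ} (L : ℕ) (η : ℝ) (q : ℕ) [NeZero q] {τ : Type} (S : Finset τ) (y : τ → Fin R → ZMod q) : Prop :=
  ∀ h : Fin R → ℤ, h ≠ 0 → (∀ l, |h l| < L) →
    ‖∑ i ∈ S, (ZMod.stdAddChar (∑ l, (h l : ZMod q) * y i l) : ℂ)‖ ≤ η * S.card

/-- The tuples of monomials of degree `d`, the `i`-th one in the variables from `I i`, are given by the `F + 1` coordinates: the
degree, and the exponents of all the variables of `I i` but the pivot `piv i`. For all `ε > 0` and `B` there are `κ > 0`, `L`,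
`η > 0` and `q₀` such that the following holds for all `q ≥ q₀` and all families of vectors modulo `q` with
`SmallCoefficients L η`: for all integer vectors `c` with coordinates at most `B q` in absolute value, and for all members
`v = c + y` of the family apart from at most `ε` times their number, ALL tuples of monomials with coordinates at a distance of
at most `κ |v (e none)|` from those of `v` (`v (e none)` stands for the degree) have the property `P`. -/
def NearMost (I : Fin s → Finset (Fin (n + 1))) (P : ℕ → (Fin s → (Fin (n + 1) →₀ ℕ)) → Prop) : Prop :=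
  ∀ piv : Fin s → Fin (n + 1), (∀ i, piv i ∈ I i) → ∀ (e : Option (Free I piv) ≃ Fin (fdim I + 1)) (B : ℕ) (ε : ℝ), 0 < ε →
    ∃ (κ : ℝ) (L : ℕ) (η : ℝ) (q₀ : ℕ), 0 < κ ∧ 1 ≤ L ∧ 0 < η ∧ ∀ (q : ℕ) [NeZero q], q₀ ≤ q →
      ∀ (τ : Type) (S : Finset τ) (y : τ → Fin (fdim I + 1) → ZMod q), SmallCoefficients L η q S y →
      ∀ c : Fin (fdim I + 1) → ℤ, (∀ l, |c l| ≤ (B : ℤ) * q) → ∀ E : Finset τ, E ⊆ S →
        (∀ i ∈ E, ¬ NearTuples I piv e P (κ * |((c (e none) : ℝ) + (y i (e none)).val)|)
          (fun l => (c l : ℝ) + (y i l).val)) →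
        (E.card : ℝ) ≤ ε * S.card

/-- Families of vectors of `R` residues with `FlatRes` have `SmallCoefficients L η` for all large moduli; the examples. -/
def FlatExamples (R : ℕ) : Prop :=
  (∀ (κ : ℝ) (L : ℕ) (η : ℝ), 0 < κ → 0 < η → ∃ q₀ : ℕ, ∀ (q : ℕ) [NeZero q], q₀ ≤ q →
    ∀ (τ : Type) (S : Finset τ) (y : τ → Fin R → ZMod q), FlatRes κ q S y → SmallCoefficients L η q S y) ∧ ExamplesR R

theorem flatExamples (R : ℕ) : FlatExamples R := by
  refine ⟨fun κ L η hκ hη => ?_, examplesR R⟩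
  obtain ⟨q₁, hq₁⟩ := Filter.eventually_atTop.1
    (((tendsto_rpow_neg_atTop hκ).comp tendsto_natCast_atTop_atTop).eventually (gt_mem_nhds hη))
  refine ⟨q₁ + L, fun q _ hq τ S y hy h hh hL => ?_⟩
  have h1 : (fun l => ((h l : ℤ) : ZMod q)) ≠ 0 := by
    intro h0
    apply hh
    funext l
    have h2 := congrFun h0 l
    simp only [Pi.zero_apply] at h2
    rw [ZMod.intCast_zmod_eq_zero_iff_dvd] at h2
    refine Int.eq_zero_of_abs_lt_dvd h2 ((hL l).trans_le ?_)
    exact_mod_cast (by omega : L ≤ q)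
  refine (hy _ h1).trans ?_
  refine mul_le_mul_of_nonneg_right ?_ (Nat.cast_nonneg _)
  exact (hq₁ q (by omega)).le

/-- the functions which are not small at generic tuples -/
noncomputable def fam (I : Fin s → Finset (Fin (n + 1))) (piv : Fin s → Fin (n + 1)) :
    ((Fin n → Fin s ⊕ Fin (n + 1)) × (Fin n → Fin s ⊕ Fin (n + 1))) ⊕ (Fin s × Fin (n + 1)) → (Free I piv → ℝ) → ℝ :=
  Sum.elim (fun pq x => (dz pq.1 pq.2 (prm I piv x)).det) fun ij x => prm I piv x ij.1 ij.2

variable {I : Fin s → Finset (Fin (n + 1))} {piv : Fin s → Fin (n + 1)}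

theorem continuous_ex0 (ij : Fin s × Fin (n + 1)) : Continuous fun x : Free I piv → ℝ => ex0 I piv x ij := by
  unfold ex0
  by_cases h : ij.2 ∈ I ij.1 ∧ ij.2 ≠ piv ij.1
  · simp only [dif_pos h]
    exact continuous_apply _
  · simp only [dif_neg h]
    exact continuous_const

theorem continuous_prm (i : Fin s) (j : Fin (n + 1)) : Continuous fun x : Free I piv → ℝ => prm I piv x i j := by
  unfold prm
  refine (continuous_ex0 _).add ?_
  by_cases h : j = piv i
  · simp only [if_pos h]
    exact continuous_const.sub (continuous_finsetSum _ fun j' _ => continuous_ex0 _)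
  · simp only [if_neg h]
    exact continuous_const

theorem continuous_vz (p : Fin s ⊕ Fin (n + 1)) (j : Fin n) : Continuous fun x : Free I piv → ℝ => vz (prm I piv x) p j := by
  rcases p with i | l
  · exact continuous_prm i j.castSucc
  · exact continuous_const

theorem continuous_fam (θ : ((Fin n → Fin s ⊕ Fin (n + 1)) × (Fin n → Fin s ⊕ Fin (n + 1))) ⊕ (Fin s × Fin (n + 1))) :
    Continuous (fam I piv θ) := by
  rcases θ with ⟨p, q⟩ | ⟨i, j⟩
  · change Continuous fun x : Free I piv → ℝ => (dz p q (prm I piv x)).det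
    exact Continuous.matrix_det (continuous_matrix fun l j => (continuous_vz _ _).sub (continuous_vz _ _))
  · exact continuous_prm i j

theorem typ_of_large (hpiv : ∀ i, piv i ∈ I i) {d : ℕ} (hd : 1 ≤ d) {a : Fin s → (Fin (n + 1) →₀ ℕ)} (ha : a ∈ TuplesIn I d)
    {η : ℝ} (hη : 0 < η)
    (hd5 : n.factorial * (((s + (n + 1)) * (n * Pool.Agent.R869.tri (s + (n + 1) - 1)) + 1 : ℕ) : ℝ) ≤ η * d)
    (hcon : ∀ θ, (∃ z, fam I piv θ z ≠ 0) → η < |fam I piv θ (fun c : Free I piv => ((a c.1.1 c.1.2 : ℕ) : ℝ) / d)|) :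
    TypI I d a := by
  have hscl : (fun c : Free I piv => ((a c.1.1 c.1.2 : ℕ) : ℝ) / d) = fun c : Free I piv => sclI d a c.1.1 c.1.2 := rfl
  rw [hscl] at hcon
  have hprm := adm_prm (piv := piv) (adm_scl hd ha)
  have hpos : ∀ i, ∀ j ∈ I i, a i j ≠ 0 := by
    intro i j hj h0
    obtain ⟨z, hz, hz0⟩ := adm_ne fun i => ⟨piv i, hpiv i⟩
    have h5 := hcon (Sum.inr (i, j)) ⟨_, by
      change prm I piv _ i j ≠ 0
      rw [adm_prm (piv := piv) hz]
      exact hz0 i j hj⟩
    have h6 : fam I piv (Sum.inr (i, j)) (fun c : Free I piv => sclI d a c.1.1 c.1.2) = 0 := by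
      change prm I piv _ i j = 0
      rw [hprm]
      unfold sclI
      rw [h0]
      simp
    rw [h6, abs_zero] at h5
    exact absurd h5 (not_lt.2 hη.le)
  have hf : ∀ p q, fam I piv (Sum.inl (p, q)) (fun c : Free I piv => sclI d a c.1.1 c.1.2) =
      (dz p q (sclI d a)).det := by
    intro p q
    change (dz p q (prm I piv _)).det = _
    rw [hprm]
  have hgen : ∀ p q : Fin n → Fin s ⊕ Fin (n + 1), (∃ z, Adm I z ∧ (dz p q z).det ≠ 0) → (dz p q (sclI d a)).det ≠ 0 := by
    intro p q hpq h0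
    obtain ⟨z, hz, hz0⟩ := hpq
    have h5 := hcon (Sum.inl (p, q)) ⟨_, by
      change (dz p q (prm I piv _)).det ≠ 0
      rw [adm_prm (piv := piv) hz]
      exact hz0⟩
    rw [hf, h0, abs_zero] at h5
    exact absurd h5 (not_lt.2 hη.le)
  have hwide : WideT ∅ (fun _ : Unit => withPowers d a) ((s + (n + 1)) * (n * Pool.Agent.R869.tri (s + (n + 1) - 1)) + 1) := by
    refine wide_of_typicalI hd hd5 (fun i => (ha i).2) fun p q => ?_
    by_cases h0 : (dz p q (sclI d a)).det = 0
    · exact Or.inl h0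
    · refine Or.inr ?_
      have h5 := hcon (Sum.inl (p, q)) ⟨_, by rw [hf]; exact h0⟩
      rwa [hf] at h5
  refine ⟨fun i => ⟨piv i, hpiv i⟩, ha, ⟨s + (n + 1), (s + (n + 1)) * (n * Pool.Agent.R869.tri (s + (n + 1) - 1)) + 1, ?_⟩,
    hd, hpos, hgen⟩
  exact { deg := ⟨d, deg_withPowers fun i => (ha i).2⟩
          pos := by omega
          card := card_withPowers d a
          wide := hwide
          num := Nat.lt_succ_self _ }

/-- **The properties of typical tuples hold for all tuples near almost all members.** -/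
theorem nearMost_typI {P : ℕ → (Fin s → (Fin (n + 1) →₀ ℕ)) → Prop} (h : ∀ d a, TypI I d a → P d a) : NearMost I P := by
  classical
  intro piv hpiv e B ε hε
  obtain ⟨κ, L, η, q₀, h1, h2, h3, h4⟩ := near_count (fam I piv) (by
      rintro (⟨p, q⟩ | ⟨i, j⟩)
      · exact sepAff_dz p q
      · exact sepAff_prm i j) continuous_fam
    (fun d x => ∃ a ∈ TuplesIn I d, (∀ c : Free I piv, a c.1.1 c.1.2 = x c) ∧ ¬ P d a)
    (fun η hη => by
      refine ⟨⌈n.factorial * (((s + (n + 1)) * (n * Pool.Agent.R869.tri (s + (n + 1) - 1)) + 1 : ℕ) : ℝ) / η⌉₊,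
        fun d x hd hDd hx hbad => ?_⟩
      obtain ⟨a, ha, hax, hP⟩ := hbad
      by_contra hcon
      push Not at hcon
      refine hP (h d a (typ_of_large hpiv hd ha hη ?_ fun θ hθ => ?_))
      · have h5 := (Nat.le_ceil (n.factorial * (((s + (n + 1)) * (n * Pool.Agent.R869.tri (s + (n + 1) - 1)) + 1 : ℕ) : ℝ) /
          η)).trans (Nat.cast_le.2 hDd)
        rw [div_le_iff₀ hη] at h5
        linarith
      · have h6 := hcon θ hθ
        simp only [← hax] at h6
        exact h6) e B ε hε
  refine ⟨κ, L, η, q₀, h1, h2, h3, fun q _ hq τ S y hy c hc E hE hbad => h4 q hq τ S y hy c hc E hE fun i hi => ?_⟩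
  have h7 := hbad i hi
  unfold NearTuples at h7
  push Not at h7
  obtain ⟨d, a, hd, ha, h8, h9, h10⟩ := h7
  exact ⟨d, fun c => a c.1.1 c.1.2, hd, fun c => le_of_mem ha _ _, ⟨a, ha, fun c => rfl, h10⟩, h8, h9⟩

end Pool.Agent.U569.APL
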