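import Pool.Agent.U569.APL.Fam
import Pool.Agent.N92.SD.Lift

set_option autoImplicit false

/-!
# Orders of difference sets with Singer parameters in families with small Fourier coefficients
-/

namespace Pool.Agent.U569.APL

open Finset Filter
open Pool.Agent.N384.VF (VFam transfer)
open Pool.Agent.N666.TM (Well)
open Pool.Agent.N92.TC (Eqd eqd_of_well)
open Pool.Agent.N92.SD (bad_null badX_null)
open Pool.Agent.H771R2.SingerDS (HasSinger)
open Pool.Agent.R116.AF (Liftable exO_lift)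

/-- a property of integers which is rare in all sequences uniformly distributed modulo all integers is rare in flat families -/
theorem rare_of_eqd {Q : ℤ → Prop} (hQ : ∀ (S : ℕ → Finset ℕ) (a : ℕ → ℤ), Eqd S a → ∀ ε : ℝ, 0 < ε → ∃ N₀ : ℕ, ∀ N : ℕ,
      N₀ ≤ N → ({n : ℕ | n ∈ S N ∧ Q (a n)}.ncard : ℝ) ≤ ε * (S N).card)
    {τ : ℕ → Type} {s : ∀ j, Finset (τ j)} {v : ∀ j, τ j → Unit → ℤ}
    (h : FlatFamilies s v) (ε : ℝ) (hε : 0 < ε) :
    ∀ᶠ j in atTop, ({i : τ j | i ∈ s j ∧ Q (v j i ())}.ncard : ℝ) ≤ ε * (s j).card := by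
  obtain ⟨Z₀, h1⟩ := transfer (ι := Unit) (fun _ c => ¬ Q (c ())) ε hε fun S x κ hκ hw => by
    have ha : Eqd S (fun t => x t ()) := eqd_of_well hκ hw
    obtain ⟨N₀, h2⟩ := hQ S _ ha ε hε
    refine ⟨N₀, fun N hN => ?_⟩
    have h3 := h2 N hN
    simpa only [not_not] using h3
  filter_upwards [h (Z₀ : ℝ)] with j hj
  obtain ⟨m, hm, y, c₀, Z, g1, g2, g3, g4⟩ := hj
  have h2 := h1 (τ j) m (s j) y Z g1 ⟨g2, g3⟩ c₀
  have h3 : v j = fun i l => c₀ l + ((y i l).val : ℕ) := by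
    funext i l
    exact g4 i l
  rw [h3]
  simpa only [not_not] using h2

lemma flat_shift {ι : Type} [Fintype ι] {τ : ℕ → Type} {s : ∀ j, Finset (τ j)} {v : ∀ j, τ j → ι → ℤ}
    (h : FlatFamilies s v) (c : ι → ℤ) : FlatFamilies s (fun j i l => v j i l + c l) := by
  intro Z₀
  filter_upwards [h Z₀] with j hj
  obtain ⟨q, hq, y, c₀, Z, g1, g2, g3, g4⟩ := hj
  exact ⟨q, hq, y, fun l => c₀ l + c l, Z, g1, g2, g3, fun i l => by rw [g4 i l]; ring⟩

theorem rare_false {τ : Type} (s : Finset τ) {ε : ℝ} (hε : 0 < ε) {B : τ → Prop} (hB : ∀ i, ¬ B i) :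
    ({i : τ | i ∈ s ∧ B i}.ncard : ℝ) ≤ ε * s.card := by
  have h1 : {i : τ | i ∈ s ∧ B i} = ∅ := by
    ext i
    simp only [Set.mem_ofPred_eq, Set.mem_empty_iff_false, iff_false, not_and]
    exact fun _ => hB i
  rw [h1, Set.ncard_empty, Nat.cast_zero]
  positivity

/-- **One small set of exceptions for all shifts, all odd powers and all dimensions.** -/
theorem singer_main {τ : ℕ → Type} {s : ∀ j, Finset (τ j)} {v : ∀ j, τ j → Unit → ℤ} (h : FlatFamilies s v) :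
    ∃ E : ∀ j, Finset (τ j), Small s E ∧ ∀ (c : ℤ) (K i : ℕ), Odd i → Outside s E v fun w =>
      ∀ n : ℕ, (n : ℤ) = w () + c → 2 ≤ n →
        (∀ m : ℕ, Odd m → 3 ≤ m → m.minFac ≤ K → ¬ HasSinger (n ^ i) m) ∧
        ∀ m : ℕ, Even m → 4 ≤ m → ¬ Liftable (n ^ i) m := by
  classical
  obtain ⟨E, h1, h2, h3⟩ := diag_fam (Φ := ℤ × ℕ × ℕ) s (fun φ j t =>
      (Odd φ.2.1 ∧ φ.2.2.Prime ∧ ∃ n : ℕ, (n : ℤ) = v j t () + φ.1 ∧ 2 ≤ n ∧
        ∃ m, Odd m ∧ 3 ≤ m ∧ φ.2.2 ∣ m ∧ HasSinger (n ^ φ.2.1) m) ∨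
      (Odd φ.2.1 ∧ φ.2.2 = 0 ∧ ∃ n : ℕ, (n : ℤ) = v j t () + φ.1 ∧ 2 ≤ n ∧
        ∃ m, Even m ∧ 4 ≤ m ∧ Liftable (n ^ φ.2.1) m)) (by
    rintro ⟨c, i, l⟩ ε hε
    have hf := flat_shift h (fun _ => c)
    by_cases hi : Odd i
    · by_cases hl : l.Prime
      · have h4 := rare_of_eqd (Q := fun z => ∃ n : ℕ, (n : ℤ) = z ∧ 2 ≤ n ∧ ∃ m, Odd m ∧ 3 ≤ m ∧ l ∣ m ∧ HasSinger (n ^ i) m)
          (fun S a ha => bad_null ha hi hl) hf ε hε
        filter_upwards [h4] with j hj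
        refine le_trans (le_of_eq ?_) hj
        congr 2
        ext t
        simp only [Set.mem_ofPred_eq]
        constructor
        · rintro ⟨ht, h5 | h5⟩
          · exact ⟨ht, h5.2.2⟩
          · exact absurd (h5.2.1 ▸ hl) Nat.not_prime_zero
        · rintro ⟨ht, h5⟩
          exact ⟨ht, Or.inl ⟨hi, hl, h5⟩⟩
      · by_cases hl0 : l = 0
        · have h4 := rare_of_eqd (Q := fun z => ∃ n : ℕ, (n : ℤ) = z ∧ 2 ≤ n ∧ ∃ m, Even m ∧ 4 ≤ m ∧ Liftable (n ^ i) m)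
            (fun S a ha => badX_null exO_lift ha hi) hf ε hε
          filter_upwards [h4] with j hj
          refine le_trans (le_of_eq ?_) hj
          congr 2
          ext t
          simp only [Set.mem_ofPred_eq]
          constructor
          · rintro ⟨ht, h5 | h5⟩
            · exact absurd h5.2.1 hl
            · exact ⟨ht, h5.2.2⟩
          · rintro ⟨ht, h5⟩
            exact ⟨ht, Or.inr ⟨hi, hl0, h5⟩⟩
        · exact Eventually.of_forall fun j => rare_false (s j) hε fun t => by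
            rintro (h5 | h5)
            · exact hl h5.2.1
            · exact hl0 h5.2.1
    · exact Eventually.of_forall fun j => rare_false (s j) hε fun t => by
        rintro (h5 | h5)
        · exact hi h5.1
        · exact hi h5.1)
  refine ⟨E, ⟨h1, h2⟩, fun c K i hi => ?_⟩
  have h4 := (eventually_all_finset (range (K + 1))).2 fun l _ => h3 (c, i, l)
  filter_upwards [h4] with j hj t ht htE n hn hn2
  refine ⟨fun m hm hm3 hmK hS => ?_, fun m hm hm4 hL => ?_⟩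
  · have hp : m.minFac.Prime := Nat.minFac_prime (by omega)
    exact hj m.minFac (mem_range.2 (by omega)) t ht htE (Or.inl ⟨hi, hp, n, hn, hn2, m, hm, hm3, Nat.minFac_dvd m, hS⟩)
  · exact hj 0 (mem_range.2 (by omega)) t ht htE (Or.inr ⟨hi, rfl, n, hn, hn2, m, hm, hm4, hL⟩)

end Pool.Agent.U569.APL
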