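import Pool.Agent.Y951.WP.Main

set_option autoImplicit false

/-! # Exponential sums over families `P_x(y) + u(x) + v(y)` with polynomials `P_x`

Copied from `Pool.Agent.N39.RG.Bias` and `Pool.Agent.N39.RG.BiasPoly` (helper39), which cannot be imported together
with other parts of the library. -/

namespace Pool.Agent.U569.APL

open Finset Polynomial

variable {p : ℕ} [Fact p.Prime]

lemma psi_add (a b : ZMod p) : (ZMod.stdAddChar (a + b) : ℂ) = ZMod.stdAddChar a * ZMod.stdAddChar b :=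
  AddChar.map_add_eq_mul _ _ _

lemma psi_norm (a : ZMod p) : ‖(ZMod.stdAddChar a : ℂ)‖ = 1 := AddChar.norm_apply _ _

lemma psi_conj (a : ZMod p) : (starRingEnd ℂ) (ZMod.stdAddChar a : ℂ) = ZMod.stdAddChar (-a) := by
  rw [AddChar.map_neg_eq_conj]

/-- the mean square of an exponential sum over any family of functions -/
lemma mean_square_gen {ι κ : Type} [Fintype κ] (X : Finset ι) (b : ι → κ → ZMod p) :
    ∑ y : κ, ‖∑ x ∈ X, (ZMod.stdAddChar (b x y) : ℂ)‖ ^ 2 ≤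
      ∑ q ∈ X ×ˢ X, ‖∑ y : κ, (ZMod.stdAddChar (b q.1 y - b q.2 y) : ℂ)‖ := by
  have h1 : ((∑ y : κ, ‖∑ x ∈ X, (ZMod.stdAddChar (b x y) : ℂ)‖ ^ 2 : ℝ) : ℂ) =
      ∑ q ∈ X ×ˢ X, ∑ y : κ, (ZMod.stdAddChar (b q.1 y - b q.2 y) : ℂ) := by
    push_cast
    have h2 : ∀ y : κ,
        ((‖∑ x ∈ X, (ZMod.stdAddChar (b x y) : ℂ)‖ : ℂ)) ^ 2 =
        ∑ q ∈ X ×ˢ X, (ZMod.stdAddChar (b q.1 y - b q.2 y) : ℂ) := by
      intro y
      rw [← Complex.mul_conj', map_sum, sum_mul_sum, sum_product]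
      refine sum_congr rfl fun x _ => sum_congr rfl fun x' _ => ?_
      rw [psi_conj, ← psi_add]
      congr 1
      ring
    rw [sum_congr rfl fun y _ => h2 y, sum_comm]
  have h4 : ‖((∑ y : κ, ‖∑ x ∈ X, (ZMod.stdAddChar (b x y) : ℂ)‖ ^ 2 : ℝ) : ℂ)‖ =
      ∑ y : κ, ‖∑ x ∈ X, (ZMod.stdAddChar (b x y) : ℂ)‖ ^ 2 := by
    rw [Complex.norm_real, Real.norm_of_nonneg (sum_nonneg fun _ _ => by positivity)]
  rw [← h4, h1]
  exact norm_sum_le _ _

/-- the exponential sums of the family `P_x(y) + u(x) + v(y)` -/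
theorem bias_poly_sq {ι : Type} (X : Finset ι) (r D : ℕ) (F : ι → Fin r → (ZMod p)[X])
    (hD : ∀ x ∈ X, ∀ j, (F x j).natDegree ≤ D) (hDp : D < p)
    (u : ι → Fin r → ZMod p) (Y : Finset (ZMod p)) (v : ZMod p → Fin r → ZMod p)
    (α : Fin r → ZMod p) :
    ‖∑ z ∈ X ×ˢ Y, (ZMod.stdAddChar
        (∑ j, α j * ((F z.1 j).eval z.2 + u z.1 j + v z.2 j)) : ℂ)‖ ^ 2 ≤
      Y.card * ((((X ×ˢ X).filter (fun q =>
          (∑ j, C (α j) * (F q.1 j - F q.2 j)).natDegree = 0)).card : ℝ) * p +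
        (X.card : ℝ) ^ 2 * (D * Real.sqrt p)) := by
  classical
  set b : ι → ZMod p → ZMod p := fun x y => ∑ j, α j * u x j + (∑ j, C (α j) * F x j).eval y with hb
  have h1 : ∑ z ∈ X ×ˢ Y, (ZMod.stdAddChar
        (∑ j, α j * ((F z.1 j).eval z.2 + u z.1 j + v z.2 j)) : ℂ) =
      ∑ y ∈ Y, (ZMod.stdAddChar (∑ j, α j * v y j) : ℂ) * ∑ x ∈ X, (ZMod.stdAddChar (b x y) : ℂ) := by
    rw [sum_product_right]
    refine sum_congr rfl fun y _ => ?_
    rw [mul_sum]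
    refine sum_congr rfl fun x _ => ?_
    rw [← psi_add, hb]
    congr 1
    simp only [eval_finsetSum, eval_mul, eval_C]
    rw [← sum_add_distrib, ← sum_add_distrib]
    refine sum_congr rfl fun j _ => ?_
    ring
  rw [h1]
  have h2 : ‖∑ y ∈ Y, (ZMod.stdAddChar (∑ j, α j * v y j) : ℂ) *
      ∑ x ∈ X, (ZMod.stdAddChar (b x y) : ℂ)‖ ≤ ∑ y ∈ Y, ‖∑ x ∈ X, (ZMod.stdAddChar (b x y) : ℂ)‖ := by
    refine (norm_sum_le _ _).trans (le_of_eq (sum_congr rfl fun y _ => ?_))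
    rw [norm_mul, psi_norm, one_mul]
  have h3 : (∑ y ∈ Y, ‖∑ x ∈ X, (ZMod.stdAddChar (b x y) : ℂ)‖) ^ 2 ≤
      Y.card * ∑ y ∈ Y, ‖∑ x ∈ X, (ZMod.stdAddChar (b x y) : ℂ)‖ ^ 2 := sq_sum_le_card_mul_sum_sq
  have h4 : ∑ y ∈ Y, ‖∑ x ∈ X, (ZMod.stdAddChar (b x y) : ℂ)‖ ^ 2 ≤
      ∑ y : ZMod p, ‖∑ x ∈ X, (ZMod.stdAddChar (b x y) : ℂ)‖ ^ 2 :=
    sum_le_sum_of_subset_of_nonneg (subset_univ _) fun _ _ _ => by positivity
  have h5 := mean_square_gen X b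
  have h6 : ∀ q ∈ X ×ˢ X, ‖∑ y : ZMod p, (ZMod.stdAddChar (b q.1 y - b q.2 y) : ℂ)‖ ≤
      (if (∑ j, C (α j) * (F q.1 j - F q.2 j)).natDegree = 0 then (p : ℝ) else 0) +
        D * Real.sqrt p := by
    intro q hq
    rw [mem_product] at hq
    have hsq : 0 ≤ (D : ℝ) * Real.sqrt p := by positivity
    split_ifs with hdeg
    · refine (norm_sum_le _ _).trans ?_
      rw [sum_congr rfl fun y _ => psi_norm _, sum_const, card_univ, ZMod.card, nsmul_eq_mul, mul_one]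
      linarith
    · rw [zero_add]
      have hG : ∀ y, b q.1 y - b q.2 y = (∑ j, α j * u q.1 j - ∑ j, α j * u q.2 j) +
          (∑ j, C (α j) * (F q.1 j - F q.2 j)).eval y := by
        intro y
        rw [hb]
        simp only [eval_finsetSum, eval_mul, eval_C, eval_sub, mul_sub, sum_sub_distrib]
        ring
      have e1 : ‖∑ y : ZMod p, (ZMod.stdAddChar (b q.1 y - b q.2 y) : ℂ)‖ =
          ‖∑ y : ZMod p, (ZMod.stdAddChar ((∑ j, C (α j) * (F q.1 j - F q.2 j)).eval y) : ℂ)‖ := by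
        have e2 : ∑ y : ZMod p, (ZMod.stdAddChar (b q.1 y - b q.2 y) : ℂ) =
            (ZMod.stdAddChar (∑ j, α j * u q.1 j - ∑ j, α j * u q.2 j) : ℂ) *
              ∑ y : ZMod p, (ZMod.stdAddChar ((∑ j, C (α j) * (F q.1 j - F q.2 j)).eval y) : ℂ) := by
          rw [mul_sum]
          refine sum_congr rfl fun y _ => ?_
          rw [← psi_add, hG]
        rw [e2, norm_mul, psi_norm, one_mul]
      rw [e1]
      have hle : (∑ j, C (α j) * (F q.1 j - F q.2 j)).natDegree ≤ D :=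
        natDegree_sum_le_of_forall_le _ _ fun i _ => (natDegree_C_mul_le _ _).trans
          ((natDegree_sub_le _ _).trans (max_le (hD _ hq.1 i) (hD _ hq.2 i)))
      have h3 := Pool.Agent.Y951.WP.weil_le p (∑ j, C (α j) * (F q.1 j - F q.2 j)) (by
        intro hd
        exact absurd (Nat.le_of_dvd (Nat.pos_of_ne_zero hdeg) hd) (by omega))
        (ZMod.isPrimitive_stdAddChar p)
      refine h3.trans ?_
      refine mul_le_mul_of_nonneg_right ?_ (Real.sqrt_nonneg _)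
      exact_mod_cast (by omega : (∑ j, C (α j) * (F q.1 j - F q.2 j)).natDegree - 1 ≤ D)
  have h7 : ∑ q ∈ X ×ˢ X, ‖∑ y : ZMod p, (ZMod.stdAddChar (b q.1 y - b q.2 y) : ℂ)‖ ≤
      (((X ×ˢ X).filter (fun q =>
          (∑ j, C (α j) * (F q.1 j - F q.2 j)).natDegree = 0)).card : ℝ) * p +
        (X.card : ℝ) ^ 2 * (D * Real.sqrt p) := by
    refine (sum_le_sum h6).trans (le_of_eq ?_)
    rw [sum_add_distrib, ← sum_filter, sum_const, sum_const, card_product, nsmul_eq_mul,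
      nsmul_eq_mul]
    push_cast
    ring
  calc _ ≤ (∑ y ∈ Y, ‖∑ x ∈ X, (ZMod.stdAddChar (b x y) : ℂ)‖) ^ 2 :=
        pow_le_pow_left₀ (norm_nonneg _) h2 2
    _ ≤ Y.card * ∑ y ∈ Y, ‖∑ x ∈ X, (ZMod.stdAddChar (b x y) : ℂ)‖ ^ 2 := h3
    _ ≤ Y.card * ∑ y : ZMod p, ‖∑ x ∈ X, (ZMod.stdAddChar (b x y) : ℂ)‖ ^ 2 := by gcongr
    _ ≤ _ := by
        apply mul_le_mul_of_nonneg_left _ (Nat.cast_nonneg _)
        exact h5.trans h7

end Pool.Agent.U569.APL
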