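import Pool.Agent.U569.APL.DiagF
import Pool.Agent.U569.APL.Bil
import Pool.Agent.U569.APL.Grp
import Pool.Agent.N918.EQ.Base

set_option autoImplicit false

/-! # Pronull sets and sequences of families of vectors of residues with small Fourier coefficients -/

namespace Pool.Agent.U569.APL

open Finset Filter
open Pool.Agent.N384.VF (Flat VFam transfer)
open Pool.Agent.N24.RW (ProNull)

section
variable {ι κ : Type} [Fintype ι] [Fintype κ]

lemma vfam_reindex (e : ι ≃ κ) {τ : Type} {q : ℕ} [NeZero q] {s : Finset τ} {y : τ → κ → ZMod q} {Z : ℝ}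
    (h : VFam q s y Z) : VFam q s (fun i l => y i (e l)) Z := by
  refine ⟨h.1, fun α hα => ?_⟩
  have h1 := h.2 (fun l => α (e.symm l)) (fun h0 => hα (by
    funext l
    have := congrFun h0 (e l)
    simpa using this))
  rw [Fintype.card_congr e]
  refine le_trans (le_of_eq ?_) h1
  congr 1
  refine sum_congr rfl fun i _ => ?_
  congr 1
  refine Fintype.sum_equiv e _ _ fun l => ?_
  simp

/-- The vectors `v j i`, `i ∈ s j`, are integral vectors plus vectors of residues with Fourier coefficients which tend to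
zero sufficiently fast. -/
def Spread {τ : ℕ → Type} (s : ∀ j, Finset (τ j)) (v : ∀ j, τ j → ι → ℤ) : Prop :=
  ∀ Z₀ : ℕ, ∀ᶠ j in atTop, ∃ (q : ℕ) (_ : NeZero q) (y : τ j → ι → ZMod q) (Z : ℝ) (c₀ : ι → ℤ), (Z₀ : ℝ) ≤ Z ∧
    VFam q (s j) y Z ∧ v j = fun i l => c₀ l + ((y i l).val : ℕ)

variable [DecidableEq ι]

/-- almost all members of a family avoid a pronull set -/
theorem rare_fam {B : Set (ι → ℤ)} (hB : ProNull B) (ε : ℝ) (hε : 0 < ε) :
    ∃ Z₀ : ℕ, ∀ (τ : Type) (q : ℕ) [NeZero q] (s : Finset τ) (y : τ → ι → ZMod q) (Z : ℝ), Z₀ ≤ Z → VFam q s y Z →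
      ∀ c₀ : ι → ℤ, ({i : τ | i ∈ s ∧ (fun j => c₀ j + ((y i j).val : ℕ) : ι → ℤ) ∈ B}.ncard : ℝ) ≤ ε * s.card := by
  obtain ⟨Z₀, h1⟩ := transfer (ι := ι) (fun _ v => v ∉ B) ε hε fun S x κ hκ hw => by
    obtain ⟨N₀, h2⟩ := Pool.Agent.N918.EQ.rareIn_of_well hκ hw hB ε hε
    refine ⟨N₀, fun N hN => ?_⟩
    have h3 := h2 N hN
    simpa only [not_not] using h3
  refine ⟨Z₀, fun τ q _ s y Z hZ hv c₀ => ?_⟩
  have h2 := h1 τ q s y Z hZ hv c₀
  simpa only [not_not] using h2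

theorem spread_rare {τ : ℕ → Type} {s : ∀ j, Finset (τ j)} {v : ∀ j, τ j → ι → ℤ} (h : Spread s v)
    {B : Set (ι → ℤ)} (hB : ProNull B) (ε : ℝ) (hε : 0 < ε) :
    ∀ᶠ j in atTop, ({i : τ j | i ∈ s j ∧ v j i ∈ B}.ncard : ℝ) ≤ ε * (s j).card := by
  obtain ⟨Z₀, h1⟩ := rare_fam hB ε hε
  filter_upwards [h Z₀] with j hj
  obtain ⟨q, hq, y, Z, c₀, g2, g3, g4⟩ := hj
  rw [g4]
  exact h1 (τ j) q (s j) y Z g2 g3 c₀

/-- one small set of exceptions for countably many pronull sets -/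
theorem spread_diag {Φ : Type} [Countable Φ] {τ : ℕ → Type} {s : ∀ j, Finset (τ j)} {v : ∀ j, τ j → ι → ℤ}
    (h : Spread s v) (B : Φ → Set (ι → ℤ)) (hB : ∀ φ, ProNull (B φ)) :
    ∃ E : ∀ j, Finset (τ j), ((∀ j, E j ⊆ s j) ∧ ∀ ε : ℝ, 0 < ε → ∀ᶠ j in atTop, ((E j).card : ℝ) ≤ ε * (s j).card) ∧
      ∀ φ, ∀ᶠ j in atTop, ∀ i ∈ s j, i ∉ E j → v j i ∉ B φ := by
  obtain ⟨E, h1, h2, h3⟩ := diag_fam s (fun φ j i => v j i ∈ B φ) fun φ ε hε => spread_rare h (hB φ) ε hε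
  exact ⟨E, ⟨h1, h2⟩, h3⟩

end

section
variable {ι : Type} [Fintype ι]

theorem spread_fam {τ : ℕ → Type} (q : ℕ → ℕ) [∀ j, NeZero (q j)] (s : ∀ j, Finset (τ j))
    (y : ∀ j, τ j → ι → ZMod (q j)) (Z : ℕ → ℝ) (c₀ : ℕ → ι → ℤ) (hZ : Tendsto Z atTop atTop)
    (hv : ∀ j, VFam (q j) (s j) (y j) (Z j)) : Spread s (fun j i l => c₀ j l + ((y j i l).val : ℕ)) := by
  intro Z₀
  filter_upwards [hZ.eventually_ge_atTop (Z₀ : ℝ)] with j hj
  exact ⟨q j, inferInstance, y j, Z j, c₀ j, hj, hv j, rfl⟩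

variable (δ : ℝ) (hδ : 0 < δ) (hδ1 : δ ≤ 1) (P : ℕ → ℕ) (hP : ∀ j, (P j).Prime) (hP' : Tendsto P atTop atTop)
include hδ hδ1 hP hP'

/-- polynomials on product sets -/
theorem spread_prod (k : ℕ → ℕ) (F : ∀ j, ι → MvPolynomial (Fin (k j)) (ZMod (P j)))
    (A : ∀ j, Fin (k j) → Finset (ZMod (P j))) (u : ∀ j, Fin (k j) → ZMod (P j) → ι → ZMod (P j))
    (hF : ∀ j l, ((F j l).totalDegree : ℝ) ≤ (P j : ℝ) ^ (δ / 4))
    (hF' : ∀ j, ∀ α : ι → ZMod (P j), α ≠ 0 → Mixed (∑ l, MvPolynomial.C (α l) * F j l))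
    (hA : ∀ j i, (P j : ℝ) ^ (1 / 2 + δ) ≤ (A j i).card) (c₀ : ℕ → ι → ℤ) :
    Spread (fun j => Fintype.piFinset (A j)) (fun j a l =>
      c₀ j l + ((MvPolynomial.eval a (F j l) + ∑ i, u j i (a i) l).val : ℕ)) := by
  intro Z₀
  obtain ⟨p₀, h2⟩ := vfam_prod (Fintype.card ι) δ hδ hδ1 Z₀
  filter_upwards [hP'.eventually_ge_atTop p₀] with j hj
  have : NeZero (P j) := ⟨(hP j).ne_zero⟩
  obtain ⟨h3, h4⟩ := h2 (P j) (hP j) hj
  obtain ⟨e⟩ : Nonempty (ι ≃ Fin (Fintype.card ι)) := ⟨Fintype.equivFin ι⟩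
  have h5 := vfam_reindex e (h4 (k j) (fun l => F j (e.symm l)) (A j) (fun i x l => u j i x (e.symm l))
    (fun l => hF j _) (fun α hα => by
      have h6 := hF' j (fun l => α (e l)) (fun h0 => hα (by
        funext l
        have := congrFun h0 (e.symm l)
        simpa using this))
      convert h6 using 1
      exact Fintype.sum_equiv e.symm _ _ fun l => by simp) (hA j))
  simp only [Equiv.symm_apply_apply] at h5
  exact ⟨P j, this, _, _, c₀ j, h3, h5, rfl⟩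

/-- bilinear maps -/
theorem spread_bil (a b ρ : ℕ → ℕ) (M : ∀ j, ι → Matrix (Fin (a j)) (Fin (b j)) (ZMod (P j)))
    (E : ∀ j, Finset (Fin (a j) → ZMod (P j))) (F : ∀ j, Finset (Fin (b j) → ZMod (P j)))
    (u : ∀ j, (Fin (a j) → ZMod (P j)) → ι → ZMod (P j)) (v : ∀ j, (Fin (b j) → ZMod (P j)) → ι → ZMod (P j))
    (hM : ∀ j, ∀ α : ι → ZMod (P j), α ≠ 0 → ρ j ≤ (∑ l, α l • M j l).rank)
    (hEF : ∀ j, (P j : ℝ) ^ (((a j + b j : ℕ) : ℝ) + δ) ≤ (E j).card * (F j).card * (P j : ℝ) ^ ρ j)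
    (c₀ : ℕ → ι → ℤ) :
    Spread (fun j => E j ×ˢ F j) (fun j z l =>
      c₀ j l + ((z.1 ⬝ᵥ Matrix.mulVec (M j l) z.2 + u j z.1 l + v j z.2 l).val : ℕ)) := by
  intro Z₀
  obtain ⟨p₀, h2⟩ := vfam_bil (Fintype.card ι) δ hδ hδ1 Z₀
  filter_upwards [hP'.eventually_ge_atTop p₀] with j hj
  have : NeZero (P j) := ⟨(hP j).ne_zero⟩
  obtain ⟨h3, h4⟩ := h2 (P j) (hP j) hj
  obtain ⟨e⟩ : Nonempty (ι ≃ Fin (Fintype.card ι)) := ⟨Fintype.equivFin ι⟩
  have h5 := vfam_reindex e (h4 (a j) (b j) (ρ j) (fun l => M j (e.symm l)) (E j) (F j)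
    (fun x l => u j x (e.symm l)) (fun x l => v j x (e.symm l)) (fun α hα => by
      have h6 := hM j (fun l => α (e l)) (fun h0 => hα (by
        funext l
        have := congrFun h0 (e.symm l)
        simpa using this))
      convert h6 using 2
      exact Fintype.sum_equiv e.symm _ _ fun l => by simp) (hEF j))
  simp only [Equiv.symm_apply_apply] at h5
  exact ⟨P j, this, _, _, c₀ j, h3, h5, rfl⟩

/-- polynomials on subgroups of the multiplicative group -/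
theorem spread_grp (H : ∀ j, Subgroup (ZMod (P j))ˣ) (s : ∀ j, Finset (ZMod (P j))ˣ)
    (hs : ∀ j x, x ∈ s j ↔ x ∈ H j) (F : ∀ j, ι → Polynomial (ZMod (P j)))
    (hF : ∀ j l, ((F j l).natDegree : ℝ) ≤ (P j : ℝ) ^ (δ / 4))
    (hF' : ∀ j, ∀ α : ι → ZMod (P j), α ≠ 0 → 0 < (∑ l, Polynomial.C (α l) * F j l).natDegree)
    (hH : ∀ j, (P j : ℝ) ^ (1 / 2 + δ) ≤ (s j).card) (c₀ : ℕ → ι → ℤ) :
    Spread s (fun j (h : (ZMod (P j))ˣ) l => c₀ j l + (((F j l).eval (h : ZMod (P j))).val : ℕ)) := by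
  classical
  intro Z₀
  obtain ⟨p₀, h2⟩ := vfam_grp (Fintype.card ι) δ hδ hδ1 Z₀
  filter_upwards [hP'.eventually_ge_atTop p₀] with j hj
  have : NeZero (P j) := ⟨(hP j).ne_zero⟩
  obtain ⟨h3, h4⟩ := h2 (P j) (hP j) hj
  obtain ⟨e⟩ : Nonempty (ι ≃ Fin (Fintype.card ι)) := ⟨Fintype.equivFin ι⟩
  have hs' : s j = univ.filter (· ∈ H j) := by
    ext x
    rw [hs, mem_filter]
    exact ⟨fun h => ⟨mem_univ _, h⟩, fun h => h.2⟩
  have hcard : ((s j).card : ℝ) = Nat.card (H j) := by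
    rw [hs', Nat.card_eq_fintype_card, ← Fintype.card_subtype]
  have h5 := vfam_reindex e (h4 (H j) (fun l => F j (e.symm l)) (fun l => hF j _) (fun α hα => by
      have h6 := hF' j (fun l => α (e l)) (fun h0 => hα (by
        funext l
        have := congrFun h0 (e.symm l)
        simpa using this))
      convert h6 using 2
      exact Fintype.sum_equiv e.symm _ _ fun l => by simp) (by rw [← hcard]; exact hH j))
  simp only [Equiv.symm_apply_apply] at h5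
  rw [← hs'] at h5
  exact ⟨P j, this, _, _, c₀ j, h3, h5, rfl⟩

end

end Pool.Agent.U569.APL
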